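import Pool.Agent.L0h78.NK.Gad
import Pool.Agent.H532R2.RatPoly

/-!
# The learner and its running time
-/

namespace Pool.Agent.L0h78.NK

open Pool.Agent.L0h78.DE Finset
open Pool.Agent.NPC Pool.Agent.NPC.H532 Pool.Agent.H424R2.PPAD
open Pool.Agent.Helper91K9.DL (nvars nvars_upoly)

/-! ### The algorithm -/

/-- One step of the enumeration of pairs of subsets. -/
def pstep (cap : ℕ) (l : List (List Bool × List Bool)) (b : Bool) :
    List (List Bool × List Bool) :=
  (l.flatMap fun q => if b then [(false :: q.1, false :: q.2), (true :: q.1, false :: q.2),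
    (false :: q.1, true :: q.2), (true :: q.1, true :: q.2)] else
      [(false :: q.1, false :: q.2)]).take cap

/-- The pairs of subsets of a set. -/
def pairs (cap : ℕ) (α : List Bool) : List (List Bool × List Bool) :=
  α.reverse.foldl (pstep cap) [([], [])]

/-- The coefficient of a pair. -/
def cf (A A' : List Bool) : ℤ :=
  ((A.zip A').map fun p => if p.1 && p.2 then 8 else if p.1 || p.2 then -4 else 1).prod

/-- All variables of `A` are true. -/
def kL (A x : List Bool) : Bool := (A.zip x).all fun p => !p.1 || p.2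

/-- The product of the local factors. -/
def phZ (α x y : List Bool) : ℤ :=
  ((α.zip (x.zip y)).map fun p => if p.1 then (if xor p.2.1 p.2.2 then -3 else 1) else 1).prod

/-- The number of elements. -/
def cntT (α : List Bool) : ℕ := (α.filter fun b => b).length

/-- A power of `3`. -/
def t3 (α : List Bool) : ℤ := (α.map fun b => if b then (3 : ℤ) else 1).prod

/-- The simulated examples. -/
def simL (A A' : List Bool) (ex : List (List Bool × Bool)) (zb zb' : List Bool) :
    List (List Bool × Bool) :=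
  (ex.zip (zb.zip zb')).map fun p => (p.1.1 ++ [p.2.1, p.2.2],
    lb (p.1.2 && kL A p.1.1) (p.1.2 && kL A' p.1.1) p.2.1 p.2.2)

/-- The data of one run. -/
abbrev Run : Type := List (List Bool × Bool) × List Bool × List Bool × List Bool

/-- One run of the estimator. -/
def est1 (E : Input → ℕ) (n s g : ℕ) (A A' : List Bool) (r : Run) : ℕ :=
  E ((n + 2, 2 * s + 1, g, 8), simL A A' r.1 r.2.1 r.2.2.1, r.2.2.2)

/-- The number of entries close to `v`. -/
def near (l : List ℕ) (v : ℕ) : ℕ :=
  (l.filter fun w => decide (v ≤ w + 2) && decide (w ≤ v + 2)).length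

/-- A value close to more than half of the entries. -/
def med (l : List ℕ) : ℕ := ((l.filter fun v => decide (l.length < 2 * near l v)).head?).getD 0

/-- The amplified estimate. -/
def vv (E : Input → ℕ) (n s g : ℕ) (runs : List Run) (A A' : List Bool) : ℕ :=
  med (runs.map fun r => est1 E n s g A A' r)

/-- A number of examples. -/
def cnt (st : List (List Bool × Bool)) (A : List Bool) : ℕ :=
  (st.filter fun e => e.2 && kL A e.1).length

/-- The scaled estimate of the correlations. -/
def BZ (E : Input → ℕ) (n s g M : ℕ) (st : List (List Bool × Bool)) (runs : List Run)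
    (A A' : List Bool) : ℤ :=
  (10 * g * (cnt st A + cnt st A') + 7 * g * M : ℕ) - (320 * M * vv E n s g runs A A' : ℕ) +
    (144 * M * (vv E n s g runs A A + vv E n s g runs A' A') : ℕ)

/-- The noisy point. -/
def noisyL (x c w : List Bool) : List Bool :=
  (x.zip (c.zip w)).map fun p => if p.2.1 then p.2.2 else p.1

/-- The statistics of the first kind. -/
def fpz (D : ℕ) (st2 : List ((List Bool × Bool) × List Bool)) (H : List (Bool × List Bool))
    (α : List Bool) : ℤ :=
  (st2.map fun e => yZ e.1.2 * qH D H e.2 * phZ α e.1.1 e.2).sum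

/-- The statistics of the second kind. -/
def ppz (D : ℕ) (st2 : List ((List Bool × Bool) × List Bool)) (H : List (Bool × List Bool))
    (α : List Bool) : ℤ :=
  (st2.map fun e => qH D H e.1.1 * qH D H e.2 * phZ α e.1.1 e.2).sum

/-- The main term. -/
def ffz (E : Input → ℕ) (n s g M cap : ℕ) (st : List (List Bool × Bool)) (runs : List Run)
    (α : List Bool) : ℤ :=
  ((pairs cap α).map fun q => cf q.1 q.2 * BZ E n s g M st runs q.1 q.2).sum

/-- The scaled estimate of the energy. -/
def WW (E : Input → ℕ) (n s g M D cap : ℕ) (st : List (List Bool × Bool))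
    (st2 : List ((List Bool × Bool) × List Bool)) (runs : List Run) (H : List (Bool × List Bool))
    (α : List Bool) : ℤ :=
  (4 * D * D : ℕ) * ffz E n s g M cap st runs α - (40 * g * D : ℕ) * fpz D st2 H α +
    (20 * g : ℕ) * ppz D st2 H α

/-- The test of a prefix. -/
def tst (E : Input → ℕ) (n s g M D Z l cap : ℕ) (st : List (List Bool × Bool))
    (st2 : List ((List Bool × Bool) × List Bool)) (runs : List Run) (H : List (Bool × List Bool))
    (_ : ℕ) (α : List Bool) : Bool :=
  decide (cntT α = 0) || (decide (cntT α ≤ l) &&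
    !decide ((Z : ℤ) * WW E n s g M D cap st st2 runs H α < (40 * g * M * D * D : ℕ) * t3 α))

/-- The pairs (example, noisy point). -/
def st2L (n M : ℕ) (ex : List (List Bool × Bool)) (bt : List Bool) :
    List ((List Bool × Bool) × List Bool) :=
  (ex.take M).zipIdx.map fun p => (p.1, noisyL p.1.1 ((bt.drop (p.2 * n)).take n)
    ((bt.drop (M * n + p.2 * n)).take n))

/-- The runs. -/
def runsL (n M kk ME : ℕ) (ex : List (List Bool × Bool)) (bt : List Bool) : List Run :=
  (List.range kk).map fun j => ((ex.drop (M + j * ME)).take ME,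
    (bt.drop (2 * (M * n) + j * (3 * ME))).take ME,
    (bt.drop (2 * (M * n) + j * (3 * ME) + ME)).take ME,
    (bt.drop (2 * (M * n) + j * (3 * ME) + 2 * ME)).take ME)

/-- The parameter `D`. -/
def dn (s a : ℕ) : ℕ := 4 * (2 * s + 1) * a

/-- The learner. -/
def learner (E : Input → ℕ) (e : ℕ) (I : Input) : List (Bool × List Bool) :=
  let n := I.1.1
  let s := I.1.2.1
  let a := I.1.2.2.1
  let b := I.1.2.2.2
  let ex := I.2.1
  let bt := I.2.2
  let q := qq n s a b
  let D := dn s a
  let g := q ^ 32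
  let M := q ^ 71
  let ME := (n + 2 + (2 * s + 1) + g + 8) ^ e
  loop (tst E n s g M D (2 * D * D * D) D.bits.length ex.length (ex.take M) (st2L n M ex bt)
    (runsL n M (min (q ^ 7) ex.length) ME ex bt)) M D (ex.take M) (nvars ex) ex.length
    (min (D * D + 1) ex.length)

/-! ### Polynomial time -/

attribute [local fun_prop] Poly_addZ Poly_subZ Poly_mulZ Poly_sumZ Poly_neg Poly_isNeg
  Pool.Agent.NPC.H532.RP.Poly_prodZ
  Pool.Agent.H424R2.SG.PolyA.poly_take Pool.Agent.H424R2.SG.PolyA.poly_drop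

section

variable {α : Type} [TEnc α]

@[fun_prop] theorem castZ_poly {f : α → ℕ} (hf : NPC.Poly f) : NPC.Poly (fun a => (f a : ℤ)) :=
  Poly_ofNat hf

theorem pairs_inv (cap : ℕ) : ∀ (R : List Bool) (L : List (List Bool × List Bool)) (c : ℕ),
    L.length ≤ max 1 cap → (∀ q ∈ L, q.1.length = c ∧ q.2.length = c) →
    (R.foldl (pstep cap) L).length ≤ max 1 cap ∧
      ∀ q ∈ R.foldl (pstep cap) L, q.1.length = c + R.length ∧ q.2.length = c + R.length := by
  intro R
  induction R with
  | nil => exact fun L c h1 h2 => ⟨h1, by simpa using h2⟩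
  | cons b R ih =>
    intro L c h1 h2
    rw [List.foldl_cons]
    have h3 : ∀ q ∈ pstep cap L b, q.1.length = c + 1 ∧ q.2.length = c + 1 := by
      intro q hq
      unfold pstep at hq
      obtain ⟨γ, hγ, h5⟩ := List.mem_flatMap.1 (List.mem_of_mem_take hq)
      have h6 := h2 γ hγ
      cases b
      · simp only [Bool.false_eq_true, if_false, List.mem_singleton] at h5
        subst h5
        simp [h6]
      · simp only [if_true, List.mem_cons, List.not_mem_nil, or_false] at h5
        rcases h5 with rfl | rfl | rfl | rfl <;> simp [h6]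
    have h4 : (pstep cap L b).length ≤ max 1 cap := by
      unfold pstep
      exact (List.length_take_le _ _).trans (le_max_right _ _)
    obtain ⟨h5, h6⟩ := ih _ (c + 1) h4 h3
    refine ⟨h5, fun q hq => ?_⟩
    have h7 := h6 q hq
    rw [List.length_cons]
    omega

theorem pstep_poly {cap : α → ℕ} {l : α → List (List Bool × List Bool)} {b : α → Bool}
    (hcap : NPC.Poly cap) (hl : NPC.Poly l) (hb : NPC.Poly b) :
    NPC.Poly fun x => pstep (cap x) (l x) (b x) := by
  unfold pstep
  have h1 : NPC.Poly fun x => (l x).flatMap fun q => if b x then [(false :: q.1, false :: q.2),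
    (true :: q.1, false :: q.2), (false :: q.1, true :: q.2), (true :: q.1, true :: q.2)] else
      [(false :: q.1, false :: q.2)] := by fun_prop
  exact Pool.Agent.H424R2.SG.PolyA.poly_take h1 hcap

@[fun_prop] theorem pairs_poly {cap : α → ℕ} {f : α → List Bool} (hcap : UPoly cap)
    (hf : NPC.Poly f) : NPC.Poly fun x => pairs (cap x) (f x) := by
  obtain ⟨r, hr⟩ := Helper91K9.DL.UPoly.sz_le (UPoly.length hf)
  obtain ⟨s, hs⟩ := Helper91K9.DL.UPoly.sz_le hcap
  have hcap' : NPC.Poly cap := hcap.toPoly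
  have hrev : NPC.Poly fun x => (f x).reverse := by fun_prop
  refine NPC.Poly.foldl (F := fun x => pstep (cap x)) hrev (NPC.Poly.const [([], [])])
    (pstep_poly (α := α × List (List Bool × List Bool) × Bool)
      (cap := fun p => cap p.1) (l := fun p => p.2.1) (b := fun p => p.2.2)
      (hcap'.comp (by fun_prop)) (by fun_prop) (by fun_prop))
    ((s + 1) * (Polynomial.C 8 * r + Polynomial.C 4) + Polynomial.C 1) ?_
  intro a k hk
  obtain ⟨h1, h2⟩ := pairs_inv (cap a) ((f a).reverse.take k) [([], [])] 0 (by simp)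
    (by simp)
  have h3 : ((f a).reverse.take k).length ≤ (f a).length := by simp
  have h4 := sz_le_length_mul (((f a).reverse.take k).foldl
    (pstep (cap a)) [([], [])]) (8 * (f a).length + 3) (by
      intro q hq
      have h5 := h2 q hq
      rw [show q = (q.1, q.2) from rfl, sz_pair]
      have h6 := sz_listBool_le q.1
      have h7 := sz_listBool_le q.2
      omega)
  refine h4.trans ?_
  have e1 := hr a
  have e2 := hs a
  simp only [Polynomial.eval_add, Polynomial.eval_mul, Polynomial.eval_C, Polynomial.eval_one]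
  refine Nat.add_le_add_right (Nat.mul_le_mul ?_ (by omega)) 1
  exact h1.trans (max_le (by omega) (by omega))

@[fun_prop] theorem cf_poly {f g : α → List Bool} (hf : NPC.Poly f) (hg : NPC.Poly g) :
    NPC.Poly fun x => cf (f x) (g x) := by
  unfold cf
  fun_prop

@[fun_prop] theorem kL_poly {f g : α → List Bool} (hf : NPC.Poly f) (hg : NPC.Poly g) :
    NPC.Poly fun x => kL (f x) (g x) := by
  unfold kL
  fun_prop

@[fun_prop] theorem phZ_poly {f g h : α → List Bool} (hf : NPC.Poly f) (hg : NPC.Poly g)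
    (hh : NPC.Poly h) : NPC.Poly fun x => phZ (f x) (g x) (h x) := by
  unfold phZ
  fun_prop

@[fun_prop] theorem cntT_poly {f : α → List Bool} (hf : NPC.Poly f) :
    NPC.Poly fun x => cntT (f x) := by
  unfold cntT
  fun_prop

@[fun_prop] theorem t3_poly {f : α → List Bool} (hf : NPC.Poly f) :
    NPC.Poly fun x => t3 (f x) := by
  unfold t3
  fun_prop

@[fun_prop] theorem simL_poly {A A' zb zb' : α → List Bool} {ex : α → List (List Bool × Bool)}
    (hA : NPC.Poly A) (hA' : NPC.Poly A') (hex : NPC.Poly ex) (hzb : NPC.Poly zb)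
    (hzb' : NPC.Poly zb') : NPC.Poly fun x => simL (A x) (A' x) (ex x) (zb x) (zb' x) := by
  unfold simL lb
  fun_prop

theorem est1_poly {E : Input → ℕ} (hE : NPC.Poly E) {n s g : α → ℕ} {A A' : α → List Bool}
    {r : α → Run} (hn : NPC.Poly n) (hs : NPC.Poly s) (hg : NPC.Poly g) (hA : NPC.Poly A)
    (hA' : NPC.Poly A') (hr : NPC.Poly r) :
    NPC.Poly fun x => est1 E (n x) (s x) (g x) (A x) (A' x) (r x) := by
  unfold est1
  exact hE.comp (by fun_prop)

@[fun_prop] theorem near_poly {l : α → List ℕ} {v : α → ℕ} (hl : NPC.Poly l)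
    (hv : NPC.Poly v) : NPC.Poly fun x => near (l x) (v x) := by
  unfold near
  fun_prop

@[fun_prop] theorem med_poly {l : α → List ℕ} (hl : NPC.Poly l) :
    NPC.Poly fun x => med (l x) := by
  unfold med
  have h1 : NPC.Poly fun x => (l x).filter fun v => decide ((l x).length < 2 * near (l x) v) :=
    NPC.Poly.filter (p := fun x v => decide ((l x).length < 2 * near (l x) v)) hl (by fun_prop)
  exact NPC.Poly.head?_getD h1 0

theorem vv_poly {E : Input → ℕ} (hE : NPC.Poly E) {n s g : α → ℕ} {A A' : α → List Bool}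
    {r : α → List Run} (hn : NPC.Poly n) (hs : NPC.Poly s) (hg : NPC.Poly g) (hA : NPC.Poly A)
    (hA' : NPC.Poly A') (hr : NPC.Poly r) :
    NPC.Poly fun x => vv E (n x) (s x) (g x) (r x) (A x) (A' x) := by
  unfold vv
  refine med_poly (NPC.Poly.map (F := fun x r => est1 E (n x) (s x) (g x) (A x) (A' x) r) hr ?_)
  exact est1_poly hE (by fun_prop) (by fun_prop) (by fun_prop) (by fun_prop) (by fun_prop)
    (by fun_prop)

@[fun_prop] theorem cnt_poly {st : α → List (List Bool × Bool)} {A : α → List Bool}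
    (hst : NPC.Poly st) (hA : NPC.Poly A) : NPC.Poly fun x => cnt (st x) (A x) := by
  unfold cnt
  fun_prop

theorem BZ_poly {E : Input → ℕ} (hE : NPC.Poly E) {n s g M : α → ℕ} {A A' : α → List Bool}
    {st : α → List (List Bool × Bool)}
    {r : α → List Run} (hn : NPC.Poly n) (hs : NPC.Poly s) (hg : NPC.Poly g) (hM : NPC.Poly M)
    (hst : NPC.Poly st) (hr : NPC.Poly r) (hA : NPC.Poly A) (hA' : NPC.Poly A') :
    NPC.Poly fun x => BZ E (n x) (s x) (g x) (M x) (st x) (r x) (A x) (A' x) := by
  unfold BZ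
  have h1 := vv_poly hE hn hs hg hA hA' hr
  have h2 := vv_poly hE hn hs hg hA hA hr
  have h3 := vv_poly hE hn hs hg hA' hA' hr
  fun_prop

@[fun_prop] theorem noisyL_poly {x c w : α → List Bool} (hx : NPC.Poly x) (hc : NPC.Poly c)
    (hw : NPC.Poly w) : NPC.Poly fun a => noisyL (x a) (c a) (w a) := by
  unfold noisyL
  fun_prop

@[fun_prop] theorem fpz_poly {D : α → ℕ} {st2 : α → List ((List Bool × Bool) × List Bool)}
    {H : α → List (Bool × List Bool)} {f : α → List Bool} (hD : NPC.Poly D) (hst : NPC.Poly st2)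
    (hH : NPC.Poly H) (hf : NPC.Poly f) : NPC.Poly fun x => fpz (D x) (st2 x) (H x) (f x) := by
  unfold fpz
  fun_prop

@[fun_prop] theorem ppz_poly {D : α → ℕ} {st2 : α → List ((List Bool × Bool) × List Bool)}
    {H : α → List (Bool × List Bool)} {f : α → List Bool} (hD : NPC.Poly D) (hst : NPC.Poly st2)
    (hH : NPC.Poly H) (hf : NPC.Poly f) : NPC.Poly fun x => ppz (D x) (st2 x) (H x) (f x) := by
  unfold ppz
  fun_prop

theorem ffz_poly {E : Input → ℕ} (hE : NPC.Poly E) {n s g M cap : α → ℕ}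
    {st : α → List (List Bool × Bool)} {r : α → List Run} {f : α → List Bool}
    (hn : NPC.Poly n) (hs : NPC.Poly s) (hg : NPC.Poly g) (hM : NPC.Poly M) (hcap : UPoly cap)
    (hst : NPC.Poly st) (hr : NPC.Poly r) (hf : NPC.Poly f) :
    NPC.Poly fun x => ffz E (n x) (s x) (g x) (M x) (cap x) (st x) (r x) (f x) := by
  unfold ffz
  refine Poly_sumZ (NPC.Poly.map (F := fun x (q : List Bool × List Bool) => cf q.1 q.2 *
    BZ E (n x) (s x) (g x) (M x) (st x) (r x) q.1 q.2) (pairs_poly hcap hf) ?_)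
  refine Poly_mulZ (by fun_prop) (BZ_poly hE (by fun_prop) (by fun_prop) (by fun_prop)
    (by fun_prop) (by fun_prop) (by fun_prop) (by fun_prop) (by fun_prop))

theorem tst_poly {E : Input → ℕ} (hE : NPC.Poly E) {n s g M D Z l cap k : α → ℕ}
    {st : α → List (List Bool × Bool)} {st2 : α → List ((List Bool × Bool) × List Bool)}
    {r : α → List Run} {H : α → List (Bool × List Bool)} {f : α → List Bool}
    (hn : NPC.Poly n) (hs : NPC.Poly s) (hg : NPC.Poly g) (hM : NPC.Poly M) (hD : NPC.Poly D)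
    (hZ : NPC.Poly Z) (hl : NPC.Poly l) (hcap : UPoly cap)
    (hst : NPC.Poly st) (hst2 : NPC.Poly st2) (hr : NPC.Poly r) (hH : NPC.Poly H)
    (hf : NPC.Poly f) :
    NPC.Poly fun x => tst E (n x) (s x) (g x) (M x) (D x) (Z x) (l x) (cap x) (st x) (st2 x) (r x)
      (H x) (k x) (f x) := by
  unfold tst WW
  have h1 := ffz_poly hE hn hs hg hM hcap hst hr hf
  fun_prop

end

theorem st2L_poly {α : Type} [TEnc α] {n M : α → ℕ} {ex : α → List (List Bool × Bool)}
    {bt : α → List Bool} (hn : NPC.Poly n) (hM : NPC.Poly M) (hex : NPC.Poly ex)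
    (hbt : NPC.Poly bt) : NPC.Poly fun x => st2L (n x) (M x) (ex x) (bt x) := by
  unfold st2L
  fun_prop

theorem runsL_poly {α : Type} [TEnc α] {n M kk ME : α → ℕ} {ex : α → List (List Bool × Bool)}
    {bt : α → List Bool} (hn : NPC.Poly n) (hM : NPC.Poly M) (hkk : UPoly kk)
    (hME : NPC.Poly ME) (hex : NPC.Poly ex)
    (hbt : NPC.Poly bt) : NPC.Poly fun x => runsL (n x) (M x) (kk x) (ME x) (ex x) (bt x) := by
  unfold runsL
  have h1 : NPC.Poly fun x => List.range (kk x) := hkk.range
  refine NPC.Poly.map (F := fun x j => ((((ex x).drop (M x + j * ME x)).take (ME x),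
    ((bt x).drop (2 * (M x * n x) + j * (3 * ME x))).take (ME x),
    ((bt x).drop (2 * (M x * n x) + j * (3 * ME x) + ME x)).take (ME x),
    ((bt x).drop (2 * (M x * n x) + j * (3 * ME x) + 2 * ME x)).take (ME x)) : Run)) h1 ?_
  fun_prop

theorem learner_poly {E : Input → ℕ} (hE : NPC.Poly E) (e : ℕ) :
    NPC.Poly (learner E e) := by
  have hn : NPC.Poly (fun I : Input => I.1.1) := by fun_prop
  have hs : NPC.Poly (fun I : Input => I.1.2.1) := by fun_prop
  have ha : NPC.Poly (fun I : Input => I.1.2.2.1) := by fun_prop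
  have hex : NPC.Poly (fun I : Input => I.2.1) := by fun_prop
  have hbt : NPC.Poly (fun I : Input => I.2.2) := by fun_prop
  have hq : NPC.Poly (fun I : Input => qq I.1.1 I.1.2.1 I.1.2.2.1 I.1.2.2.2) := by
    unfold qq
    fun_prop
  have hD : NPC.Poly (fun I : Input => dn I.1.2.1 I.1.2.2.1) := by
    unfold dn
    fun_prop
  have hl : NPC.Poly (fun I : Input => (dn I.1.2.1 I.1.2.2.1).bits.length) :=
    NPC.Poly.length (NPC.Poly.natBits hD)
  have hg := pow_poly 32 hq
  have hM := pow_poly 71 hq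
  have hkk := pow_poly 7 hq
  have hME := pow_poly e (NPC.Poly.add (NPC.Poly.add (NPC.Poly.add (NPC.Poly.add hn
    (NPC.Poly.const 2)) (NPC.Poly.add (NPC.Poly.mul (NPC.Poly.const 2) hs) (NPC.Poly.const 1)))
    hg) (NPC.Poly.const 8))
  have hlen : UPoly (fun I : Input => I.2.1.length) := UPoly.length hex
  have hnv : UPoly (fun I : Input => nvars I.2.1) := nvars_upoly.comp hex
  have hst := Pool.Agent.H424R2.SG.PolyA.poly_take hex hM
  have hst2 := st2L_poly hn hM hex hbt
  have hkk' : UPoly (fun I : Input => min (qq I.1.1 I.1.2.1 I.1.2.2.1 I.1.2.2.2 ^ 7)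
      I.2.1.length) := UPoly.of_le (NPC.Poly.min hkk hlen.toPoly) hlen fun a => min_le_right _ _
  have hr := runsL_poly hn hM hkk' hME hex hbt
  have hZ : NPC.Poly (fun I : Input => 2 * dn I.1.2.1 I.1.2.2.1 * dn I.1.2.1 I.1.2.2.1 *
      dn I.1.2.1 I.1.2.2.1) := NPC.Poly.mul (NPC.Poly.mul (NPC.Poly.mul (NPC.Poly.const 2) hD) hD) hD
  have c1 : NPC.Poly fun p : ((Input × List (Bool × List Bool)) × ℕ) × List Bool => p.1.1.1 := by
    fun_prop
  refine loop_poly (t := fun I : Input => tst E I.1.1 I.1.2.1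
    (qq I.1.1 I.1.2.1 I.1.2.2.1 I.1.2.2.2 ^ 32) (qq I.1.1 I.1.2.1 I.1.2.2.1 I.1.2.2.2 ^ 71)
    (dn I.1.2.1 I.1.2.2.1) (2 * dn I.1.2.1 I.1.2.2.1 * dn I.1.2.1 I.1.2.2.1 *
      dn I.1.2.1 I.1.2.2.1) (dn I.1.2.1 I.1.2.2.1).bits.length I.2.1.length
    (I.2.1.take (qq I.1.1 I.1.2.1 I.1.2.2.1 I.1.2.2.2 ^ 71))
    (st2L I.1.1 (qq I.1.1 I.1.2.1 I.1.2.2.1 I.1.2.2.2 ^ 71) I.2.1 I.2.2)
    (runsL I.1.1 (qq I.1.1 I.1.2.1 I.1.2.2.1 I.1.2.2.2 ^ 71)
      (min (qq I.1.1 I.1.2.1 I.1.2.2.1 I.1.2.2.2 ^ 7) I.2.1.length)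
      ((I.1.1 + 2 + (2 * I.1.2.1 + 1) + qq I.1.1 I.1.2.1 I.1.2.2.1 I.1.2.2.2 ^ 32 + 8) ^ e)
      I.2.1 I.2.2)) ?_ hM hD hst hnv hlen ?_
  · exact tst_poly (k := fun p : ((Input × List (Bool × List Bool)) × ℕ) × List Bool => p.1.2)
      hE (hn.comp c1) (hs.comp c1) (hg.comp c1) (hM.comp c1) (hD.comp c1) (hZ.comp c1)
      (hl.comp c1) (hlen.comp c1) (hst.comp c1) (hst2.comp c1) (hr.comp c1) (by fun_prop)
      (by fun_prop)
  · exact UPoly.of_le (NPC.Poly.min (NPC.Poly.add (NPC.Poly.mul hD hD) (NPC.Poly.const 1))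
      hlen.toPoly) hlen fun a => min_le_right _ _

end Pool.Agent.L0h78.NK
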