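import Pool.Agent.L0h78.NK.GoodP
import Pool.Agent.L0h78.DE.Shift

/-!
# Estimating the noise sensitivity suffices for learning
-/

namespace Pool.Agent.L0h78.NK

open Pool.Agent.L0h78.DE Finset
open Pool.Agent.NPC Pool.Agent.NPC.H532 Pool.Agent.H424R2.PPAD
open Pool.Agent.Helper91K9.DL (dnfVal termVal examples nvars)

variable {n : ℕ}

/-! ### The maps on the sample space -/

section

variable {M NN ME kk : ℕ}

/-- The indices of the noise. -/
def iS (h : 2 * (M * n) ≤ NN) (q : Fin 2 × Fin M × Fin n) : Fin NN :=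
  blk 0 (2 * (M * n)) (by omega) (finProdFinEquiv (q.1, finProdFinEquiv (q.2.1, q.2.2)))

theorem iS_inj (h : 2 * (M * n) ≤ NN) : Function.Injective (iS (n := n) h) := by
  intro p q hpq
  have h1 := finProdFinEquiv.injective (blk_inj _ _ _ hpq)
  obtain ⟨h3, h4⟩ := Prod.mk.inj h1
  exact Prod.ext h3 (finProdFinEquiv.injective h4)

/-- The triples. -/
def pFn (hM : M ≤ NN) (hS : 2 * (M * n) ≤ NN) (ω : Sample n NN) : Fin M → Tr n := fun j =>
  (ω.1 (blk 0 M (by omega) j), fun k => ω.2 (iS hS (0, j, k)), fun k => ω.2 (iS hS (1, j, k)))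

/-- Rearrangement. -/
def eP (n M : ℕ) : ((Fin M → Cu n) × (Fin 2 × Fin M × Fin n → Bool)) ≃ (Fin M → Tr n) where
  toFun p := fun j => (p.1 j, fun k => p.2 (0, j, k), fun k => p.2 (1, j, k))
  invFun P := (fun j => (P j).1,
    fun q => if q.1 = 0 then (P q.2.1).2.1 q.2.2 else (P q.2.1).2.2 q.2.2)
  left_inv p := by
    refine Prod.ext rfl ?_
    funext q
    obtain ⟨c, j, k⟩ := q
    by_cases hc : c = 0
    · subst hc
      simp
    · have : c = 1 := by omega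
      subst this
      simp
  right_inv P := by
    funext j
    simp

theorem mp_pFn (hM : M ≤ NN) (hS : 2 * (M * n) ≤ NN) :
    DE.MP fun ω : Sample n NN => pFn hM hS ω := by
  have e1 : DE.MP fun w : Fin NN → Cu n => fun j => w (blk 0 M (by omega) j) :=
    MP.restrict _ (blk_inj _ _ _)
  have e2 : DE.MP fun w : Fin NN → Bool => fun q => w (iS (n := n) hS q) :=
    MP.restrict _ (iS_inj hS)
  exact (e1.prod e2).comp (MP.equiv (eP n M))

/-- The indices of the points of the runs. -/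
def iR (h : M + kk * ME ≤ NN) (q : Fin kk × Fin ME) : Fin NN :=
  blk M (kk * ME) h (finProdFinEquiv q)

theorem iR_inj (h : M + kk * ME ≤ NN) : Function.Injective (iR h) :=
  (blk_inj _ _ _).comp finProdFinEquiv.injective

/-- The indices of the bits of the runs. -/
def iB (h : 2 * (M * n) + kk * (3 * ME) ≤ NN) (q : Fin kk × Fin 3 × Fin ME) : Fin NN :=
  blk (2 * (M * n)) (kk * (3 * ME)) h (finProdFinEquiv (q.1, finProdFinEquiv (q.2.1, q.2.2)))

theorem iB_inj (h : 2 * (M * n) + kk * (3 * ME) ≤ NN) : Function.Injective (iB (n := n) h) := by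
  intro p q hpq
  have h1 := finProdFinEquiv.injective (blk_inj _ _ _ hpq)
  obtain ⟨h3, h4⟩ := Prod.mk.inj h1
  exact Prod.ext h3 (finProdFinEquiv.injective h4)

/-- The runs. -/
def rFn (hR : M + kk * ME ≤ NN) (hB : 2 * (M * n) + kk * (3 * ME) ≤ NN) (ω : Sample n NN) :
    Fin kk → Om n ME := fun j =>
  (fun i => ω.1 (iR hR (j, i)), fun i => ω.2 (iB hB (j, 0, i)), fun i => ω.2 (iB hB (j, 1, i)),
    fun i => ω.2 (iB hB (j, 2, i)))

/-- Rearrangement. -/
def eR (n kk ME : ℕ) : ((Fin kk × Fin ME → Cu n) × (Fin kk × Fin 3 × Fin ME → Bool)) ≃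
    (Fin kk → Om n ME) where
  toFun p := fun j => (fun i => p.1 (j, i), fun i => p.2 (j, 0, i), fun i => p.2 (j, 1, i),
    fun i => p.2 (j, 2, i))
  invFun R := (fun q => (R q.1).1 q.2,
    fun q => if q.2.1 = 0 then (R q.1).2.1 q.2.2 else if q.2.1 = 1 then (R q.1).2.2.1 q.2.2 else
      (R q.1).2.2.2 q.2.2)
  left_inv p := by
    refine Prod.ext rfl ?_
    funext q
    obtain ⟨j, c, i⟩ := q
    have hc : c = 0 ∨ c = 1 ∨ c = 2 := by omega
    rcases hc with rfl | rfl | rfl <;> simp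
  right_inv R := by
    funext j
    simp

theorem mp_rFn (hR : M + kk * ME ≤ NN) (hB : 2 * (M * n) + kk * (3 * ME) ≤ NN) :
    DE.MP fun ω : Sample n NN => rFn hR hB ω := by
  have e1 : DE.MP fun w : Fin NN → Cu n => fun q => w (iR hR q) := MP.restrict _ (iR_inj hR)
  have e2 : DE.MP fun w : Fin NN → Bool => fun q => w (iB (n := n) hB q) :=
    MP.restrict _ (iB_inj hB)
  exact (e1.prod e2).comp (MP.equiv (eR n kk ME))

theorem fpf_val {a b : ℕ} (i : Fin a) (j : Fin b) :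
    ((finProdFinEquiv (i, j) : Fin (a * b)) : ℕ) = j + b * i := rfl

theorem st2L_eq (F : List (List (ℕ × Bool))) (hM : M ≤ NN) (hS : 2 * (M * n) ≤ NN)
    (ω : Sample n NN) : st2L n M (examples F ω.1) (List.ofFn ω.2) =
      st2F (fn n F) (pFn hM hS ω) := by
  unfold st2L st2F
  rw [take_examples F ω.1 hM]
  unfold stL
  refine List.ext_getElem (by simp) fun j h1 h2 => ?_
  have hj : j < M := by simpa using h1
  simp only [List.getElem_map, List.getElem_zipIdx, List.getElem_ofFn, Nat.zero_add]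
  have hb : j * n + n ≤ M * n := by
    have h5 : (j + 1) * n ≤ M * n := Nat.mul_le_mul_right n hj
    have h6 : (j + 1) * n = j * n + n := by ring
    omega
  rw [ofFn_drop_take ω.2 (j * n) n (by omega), ofFn_drop_take ω.2 (M * n + j * n) n (by omega),
    noisyL_eq]
  have e1 : (fun k => ω.2 (blk (j * n) n (by omega) k)) =
      fun k => ω.2 (iS hS (0, ⟨j, hj⟩, k)) := by
    funext k
    refine congrArg ω.2 (Fin.ext ?_)
    simp only [iS, blk, fpf_val]
    have := Nat.mul_comm n j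
    simp only [Fin.val_zero, Nat.mul_zero]
    omega
  have e2 : (fun k => ω.2 (blk (M * n + j * n) n (by omega) k)) =
      fun k => ω.2 (iS hS (1, ⟨j, hj⟩, k)) := by
    funext k
    refine congrArg ω.2 (Fin.ext ?_)
    simp only [iS, blk, fpf_val]
    have := Nat.mul_comm n j
    simp only [Fin.val_one, Nat.mul_one]
    omega
  rw [e1, e2]
  rfl

theorem runsL_eq (F : List (List (ℕ × Bool))) (hR : M + kk * ME ≤ NN)
    (hB : 2 * (M * n) + kk * (3 * ME) ≤ NN) (ω : Sample n NN) :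
    runsL n M kk ME (examples F ω.1) (List.ofFn ω.2) =
      List.ofFn fun j => runOf F (rFn hR hB ω j) := by
  unfold runsL
  refine List.ext_getElem (by simp) fun j h1 h2 => ?_
  have hj : j < kk := by simpa using h1
  simp only [List.getElem_map, List.getElem_range, List.getElem_ofFn]
  have hb : j * ME + ME ≤ kk * ME := by
    have h5 : (j + 1) * ME ≤ kk * ME := Nat.mul_le_mul_right ME hj
    have h6 : (j + 1) * ME = j * ME + ME := by ring
    omega
  have hb3 : j * (3 * ME) + 3 * ME ≤ kk * (3 * ME) := by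
    have h5 : (j + 1) * (3 * ME) ≤ kk * (3 * ME) := Nat.mul_le_mul_right (3 * ME) hj
    have h6 : (j + 1) * (3 * ME) = j * (3 * ME) + 3 * ME := by ring
    omega
  have c1 := Nat.mul_comm ME j
  have c3 := Nat.mul_comm (3 * ME) j
  unfold runOf rFn
  refine Prod.ext ?_ (Prod.ext ?_ (Prod.ext ?_ ?_))
  · simp only
    have h := ofFn_drop_take (fun j => (List.ofFn (ω.1 j), dnfVal F (List.ofFn (ω.1 j))))
      (M + j * ME) ME (by omega)
    unfold examples
    rw [h]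
    congr 1
    funext i
    have e : blk (M + j * ME) ME (by omega) i = iR hR (⟨j, hj⟩, i) := by
      refine Fin.ext ?_
      simp only [iR, blk, fpf_val]
      omega
    rw [e]
  · simp only
    rw [ofFn_drop_take ω.2 _ ME (by omega)]
    congr 1
    funext i
    refine congrArg ω.2 (Fin.ext ?_)
    simp only [iB, blk, fpf_val, Fin.val_zero, Nat.mul_zero]
    omega
  · simp only
    rw [ofFn_drop_take ω.2 _ ME (by omega)]
    congr 1
    funext i
    refine congrArg ω.2 (Fin.ext ?_)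
    simp only [iB, blk, fpf_val, Fin.val_one, Nat.mul_one]
    omega
  · simp only
    rw [ofFn_drop_take ω.2 _ ME (by omega)]
    congr 1
    funext i
    refine congrArg ω.2 (Fin.ext ?_)
    simp only [iB, blk, fpf_val, Fin.val_two]
    omega

end

/-- Good samples are likely. -/
theorem good_prob {m : Bool} {E : Input → ℕ} {e : ℕ}
    (hE : ∀ (n s g b : ℕ) (F : List (List (ℕ × Bool))), 1 ≤ g → 1 ≤ b → Cls m n s F →
      1 - 1 / (b : ℝ) ≤ Prob fun ω : Sample n ((n + s + g + b) ^ e) =>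
        |(E (input n s g b F ω) : ℝ) / g - noiseSensitivity n (fn n F)| ≤ 1 / (g : ℝ))
    {s b D T g M NN ME kk : ℕ} {τ : ℝ} {F : List (List (ℕ × Bool))} (hb : 1 ≤ b)
    (hF : Cls m n s F) (hg1 : 1 ≤ g) (hτ : 0 ≤ τ)
    (hhoef : 128 * ((((n + 2) * T + 2 * n : ℕ) : ℝ) + 16 * b) ≤ M * τ ^ 2)
    (hME : ME = (n + 2 + (2 * s + 1) + g + 8) ^ e) (hkk : 128 * (2 * n + 16 * b) ≤ kk)
    (hM : M ≤ NN) (hS : 2 * (M * n) ≤ NN) (hR : M + kk * ME ≤ NN)
    (hB : 2 * (M * n) + kk * (3 * ME) ≤ NN) :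
    1 - 1 / (b : ℝ) ≤ Prob fun ω : Sample n NN =>
      Good D T g τ (fn n F) (pFn hM hS ω)
        (fun A A' => vv E n s g (List.ofFn fun j => runOf F (rFn hR hB ω j)) A A') := by
  have hb0 : (0 : ℝ) < b := by exact_mod_cast hb
  obtain ⟨l1, l2, l3, l4⟩ := unif_laws (fn n F) D T M b τ hτ hb hhoef
  have l5 := amp_prob hE hF hg1 hb hME hkk
  rw [← (mp_pFn hM hS).prob] at l1 l2 l3 l4
  rw [← (mp_rFn hR hB).prob] at l5
  refine le_prob_of ?_
  set P1 : Sample n NN → Prop := fun ω => ¬ ∀ A : Cu n,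
    |∑ j, fk (fn n F) A (pFn hM hS ω j).1 - M * Ex (fk (fn n F) A)| ≤ M * τ with hP1
  set P2 : Sample n NN → Prop := fun ω => ¬ ∀ (c : Cl n T) (S : Cu n),
      |∑ j, sR (fn n F (pFn hM hS ω j).1) * pC D c (yy (pFn hM hS ω j)) * Phi S (pFn hM hS ω j) -
        M * xw (fun x => sR (fn n F x)) (pC D c) S| ≤ M * τ with hP2
  set P3 : Sample n NN → Prop := fun ω => ¬ ∀ (c : Cl n T) (S : Cu n),
      |∑ j, pC D c (pFn hM hS ω j).1 * pC D c (yy (pFn hM hS ω j)) * Phi S (pFn hM hS ω j) -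
        M * xw (pC D c) (pC D c) S| ≤ M * τ with hP3
  set P4 : Sample n NN → Prop := fun ω => ¬ ∀ (c : Cl n T) (S : Cu n),
      |∑ j, rC (fn n F) D c (pFn hM hS ω j).1 * chi S (pFn hM hS ω j).1 -
        M * fc (rC (fn n F) D c) S| ≤ M * τ with hP4
  set P5 : Sample n NN → Prop := fun ω => ¬ ∀ A A' : List Bool,
      |(vv E n s g (List.ofFn fun j => runOf F (rFn hR hB ω j)) A A' : ℝ) / g -
        noiseSensitivity (n + 2) (gf (fn n F) (pad A) (pad A'))| ≤ 3 / (g : ℝ) with hP5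
  have hbad : ∀ ω : Sample n NN, ¬ Good D T g τ (fn n F) (pFn hM hS ω)
        (fun A A' => vv E n s g (List.ofFn fun j => runOf F (rFn hR hB ω j)) A A') →
      P1 ω ∨ (P2 ω ∨ (P3 ω ∨ (P4 ω ∨ P5 ω))) := by
    intro ω hω
    by_contra hcon
    simp only [not_or] at hcon
    obtain ⟨c1, c2, c3, c4, c5⟩ := hcon
    exact hω ⟨not_not.1 c5, not_not.1 c1, not_not.1 c2, not_not.1 c3, not_not.1 c4⟩
  refine (prob_mono hbad).trans ?_
  have s1 := prob_or_le P1 (fun ω => P2 ω ∨ (P3 ω ∨ (P4 ω ∨ P5 ω)))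
  have s2 := prob_or_le P2 (fun ω => P3 ω ∨ (P4 ω ∨ P5 ω))
  have s3 := prob_or_le P3 (fun ω => P4 ω ∨ P5 ω)
  have s4 := prob_or_le P4 P5
  have h8 : 1 / (8 * (b : ℝ)) = 1 / 8 * (1 / b) := by
    rw [one_div_mul_one_div]
  have h9 : (0 : ℝ) < 1 / b := by positivity
  rw [h8] at l1 l2 l3 l4 l5
  linarith

/-! ### The parameters -/

theorem dn_pos {s a : ℕ} (ha : 1 ≤ a) : 0 < dn s a := by
  unfold dn
  positivity

theorem dn_le {n s a b : ℕ} (ha : 1 ≤ a) (hb : 1 ≤ b) : dn s a ≤ qq n s a b ^ 3 := by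
  have h1 := dd_le (n := n) (s := s) (a := a) (b := b)
  have h2 := four_le_qq (n := n) (s := s) ha hb
  have h3 : dn s a = 2 * dd s a := by
    unfold dn dd
    ring
  rw [h3, pow_succ]
  calc 2 * dd s a ≤ qq n s a b * dd s a := Nat.mul_le_mul_right _ (by omega)
    _ ≤ qq n s a b * qq n s a b ^ 2 := Nat.mul_le_mul_left _ h1
    _ = _ := mul_comm _ _

/-- The parameter `τ`. -/
noncomputable def tau (D : ℕ) : ℝ := 1 / (896 * (D : ℝ) ^ 8)

theorem tau_nonneg (D : ℕ) : 0 ≤ tau D := by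
  unfold tau
  positivity

theorem size_le {D : ℕ} (hD : 0 < D) : 2 ^ D.bits.length ≤ 2 * D := by
  rw [Nat.size_eq_bits_len]
  have h1 : 0 < D.size := Nat.size_pos.2 hD
  have h2 : 2 ^ (D.size - 1) ≤ D := Nat.lt_size.1 (by omega)
  have h3 : D.size = (D.size - 1) + 1 := by omega
  rw [h3, pow_succ]
  omega

theorem le_size (D : ℕ) : D ≤ 2 ^ D.bits.length := by
  rw [Nat.size_eq_bits_len]
  exact (Nat.lt_size_self D).le

theorem acc_ok {D g l : ℕ} (hD : 0 < D) (hg : 65536 * D ^ 8 ≤ g) (hl : 2 ^ l ≤ 2 * D) :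
    (17 : ℝ) ^ l * (140 * tau D + 7296 / g) ≤ 20 / ((2 * D * D * D : ℕ) : ℝ) := by
  have hD0 : (0 : ℝ) < D := by exact_mod_cast hD
  have hg' : 65536 * (D : ℝ) ^ 8 ≤ g := by exact_mod_cast hg
  have h1 : (17 : ℝ) ^ l ≤ 32 * (D : ℝ) ^ 5 := by
    have h2 : (17 : ℝ) ^ l ≤ 32 ^ l := pow_le_pow_left₀ (by norm_num) (by norm_num) _
    have h3 : (32 : ℝ) ^ l = (2 ^ l) ^ 5 := by
      rw [← pow_mul, mul_comm, pow_mul]
      norm_num
    have h4 : (2 : ℝ) ^ l ≤ 2 * D := by exact_mod_cast hl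
    have h5 : ((2 : ℝ) ^ l) ^ 5 ≤ (2 * D) ^ 5 := pow_le_pow_left₀ (by positivity) h4 5
    have h6 : (2 * (D : ℝ)) ^ 5 = 32 * (D : ℝ) ^ 5 := by ring
    rw [h3] at h2
    rw [h6] at h5
    exact h2.trans h5
  have h2 : 140 * tau D + 7296 / g ≤ 5 / (16 * (D : ℝ) ^ 8) := by
    have h3 : 140 * tau D = 5 / (32 * (D : ℝ) ^ 8) := by
      unfold tau
      field_simp
      norm_num
    have h4 : 7296 / (g : ℝ) ≤ 7296 / (65536 * (D : ℝ) ^ 8) :=
      div_le_div_of_nonneg_left (by norm_num) (by positivity) hg'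
    have h5 : 7296 / (65536 * (D : ℝ) ^ 8) ≤ 5 / (32 * (D : ℝ) ^ 8) := by
      rw [div_le_div_iff₀ (by positivity) (by positivity)]
      have : (0 : ℝ) < (D : ℝ) ^ 8 := by positivity
      linarith
    have h6 : 5 / (16 * (D : ℝ) ^ 8) = 5 / (32 * (D : ℝ) ^ 8) + 5 / (32 * (D : ℝ) ^ 8) := by
      field_simp
      norm_num
    rw [h3, h6]
    linarith
  have h3 : (17 : ℝ) ^ l * (140 * tau D + 7296 / g) ≤
      (32 * (D : ℝ) ^ 5) * (5 / (16 * (D : ℝ) ^ 8)) := by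
    refine mul_le_mul h1 h2 ?_ (by positivity)
    have := tau_nonneg D
    positivity
  refine h3.trans (le_of_eq ?_)
  push_cast
  field_simp
  norm_num

theorem hoef_ok {n b D q M : ℕ} (hq : 4 ≤ q) (hn : n + 2 ≤ q) (hb : b ≤ q) (hD : 0 < D)
    (hDq : D ≤ q ^ 3) (hM : q ^ 71 ≤ M) :
    128 * ((((n + 2) * (D * D + 1) + 2 * n : ℕ) : ℝ) + 16 * b) ≤ (M : ℝ) * (tau D) ^ 2 := by
  have h1 : 128 * ((n + 2) * (D * D + 1) + 2 * n + 16 * b) * (802816 * D ^ 16) ≤ M := by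
    have e1 : D * D + 1 ≤ q ^ 7 := by
      have h2 : D * D ≤ q ^ 3 * q ^ 3 := Nat.mul_le_mul hDq hDq
      have h4 : 1 ≤ q ^ 6 := Nat.one_le_pow _ _ (by omega)
      calc D * D + 1 ≤ q ^ 3 * q ^ 3 + 1 := by omega
        _ = q ^ 6 + 1 := by ring
        _ ≤ q ^ 6 + q ^ 6 := by omega
        _ = 2 * q ^ 6 := by ring
        _ ≤ q * q ^ 6 := Nat.mul_le_mul_right _ (by omega)
        _ = q ^ 7 := by ring
    have e2 : (n + 2) * (D * D + 1) ≤ q ^ 8 := by
      calc (n + 2) * (D * D + 1) ≤ q * q ^ 7 := Nat.mul_le_mul hn e1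
        _ = q ^ 8 := by ring
    have e3 : 2 * n + 16 * b ≤ q ^ 8 := by
      have h4 : 18 ≤ q ^ 7 := by
        calc 18 ≤ 4 ^ 7 := by norm_num
          _ ≤ q ^ 7 := Nat.pow_le_pow_left hq 7
      calc 2 * n + 16 * b ≤ 18 * q := by omega
        _ ≤ q ^ 7 * q := Nat.mul_le_mul_right _ h4
        _ = q ^ 8 := by ring
    have e4 : D ^ 16 ≤ q ^ 48 := by
      calc D ^ 16 ≤ (q ^ 3) ^ 16 := Nat.pow_le_pow_left hDq 16
        _ = q ^ 48 := by ring
    have e5 : 205520896 ≤ q ^ 15 := by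
      calc 205520896 ≤ 4 ^ 15 := by norm_num
        _ ≤ q ^ 15 := Nat.pow_le_pow_left hq 15
    calc 128 * ((n + 2) * (D * D + 1) + 2 * n + 16 * b) * (802816 * D ^ 16)
        ≤ 128 * (q ^ 8 + q ^ 8) * (802816 * q ^ 48) :=
          Nat.mul_le_mul (Nat.mul_le_mul_left _ (by omega)) (Nat.mul_le_mul_left _ e4)
      _ = 205520896 * q ^ 56 := by ring
      _ ≤ q ^ 15 * q ^ 56 := Nat.mul_le_mul_right _ e5
      _ = q ^ 71 := by ring
      _ ≤ M := hM
  have h2 : 128 * ((((n + 2) * (D * D + 1) + 2 * n : ℕ) : ℝ) + 16 * b) *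
      (802816 * (D : ℝ) ^ 16) ≤ (M : ℝ) := by exact_mod_cast h1
  unfold tau
  have hD0 : (0 : ℝ) < D := by exact_mod_cast hD
  have e : (896 * (D : ℝ) ^ 8) ^ 2 = 802816 * (D : ℝ) ^ 16 := by ring
  rw [div_pow, one_pow, e, mul_one_div, le_div_iff₀ (by positivity)]
  exact h2

theorem kk_ok {n b q : ℕ} (hq : 4 ≤ q) (hn : n + 2 ≤ q) (hb : b ≤ q) :
    128 * (2 * n + 16 * b) ≤ q ^ 7 := by
  have h4 : 2304 ≤ q ^ 6 := by
    calc 2304 ≤ 4 ^ 6 := by norm_num
      _ ≤ q ^ 6 := Nat.pow_le_pow_left hq 6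
  calc 128 * (2 * n + 16 * b) ≤ 2304 * q := by omega
    _ ≤ q ^ 6 * q := Nat.mul_le_mul_right _ h4
    _ = q ^ 7 := by ring

theorem size1 {n s q : ℕ} (hq : 4 ≤ q) (hns : n + s + 4 ≤ q) (e : ℕ) :
    (n + 2 + (2 * s + 1) + q ^ 32 + 8) ^ e ≤ q ^ (33 * e) := by
  rw [pow_mul]
  refine Nat.pow_le_pow_left ?_ e
  have h1 : q ≤ q ^ 32 := Nat.le_self_pow (by norm_num) q
  calc n + 2 + (2 * s + 1) + q ^ 32 + 8 ≤ 4 * q ^ 32 := by omega
    _ ≤ q * q ^ 32 := Nat.mul_le_mul_right _ hq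
    _ = q ^ 33 := by ring

theorem size2 {n q ME NN : ℕ} (hq : 4 ≤ q) (hn : n + 2 ≤ q) (e : ℕ) (hME : ME ≤ q ^ (33 * e))
    (hNN : q ^ (75 + 33 * e) ≤ NN) : q ^ 71 + q ^ 7 * ME ≤ NN ∧
      2 * (q ^ 71 * n) + q ^ 7 * (3 * ME) ≤ NN := by
  have h0 : q ^ (75 + 33 * e) = q * q ^ (74 + 33 * e) := by
    rw [show 75 + 33 * e = (74 + 33 * e) + 1 by omega, pow_succ]
    ring
  have h1 : q ^ 7 * ME ≤ q ^ (74 + 33 * e) := by
    calc q ^ 7 * ME ≤ q ^ 7 * q ^ (33 * e) := Nat.mul_le_mul_left _ hME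
      _ = q ^ (7 + 33 * e) := by rw [← pow_add]
      _ ≤ q ^ (74 + 33 * e) := Nat.pow_le_pow_right (by omega) (by omega)
  have h2 : q ^ 7 * (3 * ME) ≤ q ^ (74 + 33 * e) := by
    calc q ^ 7 * (3 * ME) = 3 * (q ^ 7 * ME) := by ring
      _ ≤ q * (q ^ 7 * q ^ (33 * e)) :=
          Nat.mul_le_mul (by omega) (Nat.mul_le_mul_left _ hME)
      _ = q ^ (8 + 33 * e) := by rw [← pow_add, ← pow_succ']; congr 1; omega
      _ ≤ q ^ (74 + 33 * e) := Nat.pow_le_pow_right (by omega) (by omega)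
  have h3 : q ^ 71 ≤ q ^ (74 + 33 * e) := Nat.pow_le_pow_right (by omega) (by omega)
  have h4 : 2 * (q ^ 71 * n) ≤ q ^ (74 + 33 * e) := by
    calc 2 * (q ^ 71 * n) ≤ q * (q ^ 71 * q) :=
          Nat.mul_le_mul (by omega) (Nat.mul_le_mul_left _ (by omega))
      _ = q ^ 73 := by ring
      _ ≤ q ^ (74 + 33 * e) := Nat.pow_le_pow_right (by omega) (by omega)
  have h5 : 4 * q ^ (74 + 33 * e) ≤ q * q ^ (74 + 33 * e) := Nat.mul_le_mul_right _ hq
  constructor <;> omega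

theorem small_ok {D q : ℕ} (hq : 4 ≤ q) (hDq : D ≤ q ^ 3) :
    4 * (2 * D * D * D) + 1 ≤ q ^ 71 ∧ 2 * D * (2 * D) ≤ q ^ 71 ∧ D * D + 1 ≤ q ^ 71 := by
  have h1 : D * D ≤ q ^ 6 := by
    calc D * D ≤ q ^ 3 * q ^ 3 := Nat.mul_le_mul hDq hDq
      _ = q ^ 6 := by ring
  have h2 : D * D * D ≤ q ^ 9 := by
    calc D * D * D ≤ q ^ 6 * q ^ 3 := Nat.mul_le_mul h1 hDq
      _ = q ^ 9 := by ring
  have h3 : q ^ 9 ≤ q ^ 69 := Nat.pow_le_pow_right (by omega) (by norm_num)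
  have h4 : q ^ 6 ≤ q ^ 69 := Nat.pow_le_pow_right (by omega) (by norm_num)
  have h5 : 16 * q ^ 69 ≤ q ^ 71 := by
    calc 16 * q ^ 69 ≤ (q * q) * q ^ 69 :=
          Nat.mul_le_mul_right _ (by nlinarith)
      _ = q ^ 71 := by ring
  have h6 : 1 ≤ q ^ 69 := Nat.one_le_pow _ _ (by omega)
  have e1 : 4 * (2 * D * D * D) = 8 * (D * D * D) := by ring
  have e2 : 2 * D * (2 * D) = 4 * (D * D) := by ring
  rw [e1, e2]
  refine ⟨?_, ?_, ?_⟩ <;> omega

/-- The learner with abstract parameters. -/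
theorem learn_prob {m : Bool} {E : Input → ℕ} {e : ℕ}
    (hE : ∀ (n s g b : ℕ) (F : List (List (ℕ × Bool))), 1 ≤ g → 1 ≤ b → Cls m n s F →
      1 - 1 / (b : ℝ) ≤ Prob fun ω : Sample n ((n + s + g + b) ^ e) =>
        |(E (input n s g b F ω) : ℝ) / g - noiseSensitivity n (fn n F)| ≤ 1 / (g : ℝ))
    {s a b D g M NN ME kk : ℕ} {F : List (List (ℕ × Bool))} (ha : 1 ≤ a) (hb : 1 ≤ b)
    (hF : Cls m n s F) (hDd : D = dn s a) (hg1 : 1 ≤ g) (hM1 : 1 ≤ M)
    (hg : 65536 * D ^ 8 ≤ g)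
    (hhoef : 128 * ((((n + 2) * (D * D + 1) + 2 * n : ℕ) : ℝ) + 16 * b) ≤ M * (tau D) ^ 2)
    (hME : ME = (n + 2 + (2 * s + 1) + g + 8) ^ e) (hkk : 128 * (2 * n + 16 * b) ≤ kk)
    (hM : M ≤ NN) (hS : 2 * (M * n) ≤ NN) (hR : M + kk * ME ≤ NN)
    (hB : 2 * (M * n) + kk * (3 * ME) ≤ NN)
    (hs1 : 4 * (2 * D * D * D) + 1 ≤ M) (hs2 : 2 * D * (2 * D) ≤ M) :
    1 - 1 / (b : ℝ) ≤ Prob fun ω : Sample n NN => Prob (fun x : Cu n =>
      evalH (loop (tst E n s g M D (2 * D * D * D) D.bits.length NN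
        (stL (fn n F) fun j => (pFn hM hS ω j).1) (st2F (fn n F) (pFn hM hS ω))
        (List.ofFn fun j => runOf F (rFn hR hB ω j))) M D
        (stL (fn n F) fun j => (pFn hM hS ω j).1) n NN (D * D + 1), List.ofFn x) ≠ fn n F x) ≤
      1 / (a : ℝ) := by
  have hD : 0 < D := by
    rw [hDd]
    exact dn_pos ha
  have hl := size_le hD
  have hl2 := le_size D
  have hgp := good_prob (D := D) (T := D * D + 1) hE hb hF hg1 (tau_nonneg D) hhoef hME hkk hM hS
    hR hB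
  have hD0 : (1 : ℝ) ≤ D := by exact_mod_cast hD
  have hP : Par M D g (2 * D * D * D) D.bits.length NN (tau D) := by
    refine ⟨hD, hg1, hM1, by positivity, tau_nonneg D, acc_ok hD hg hl, ?_, hl, ?_, ?_⟩
    · unfold tau
      rw [mul_one_div, div_le_one (by positivity)]
      have h1 : (1 : ℝ) ≤ (D : ℝ) ^ 7 := one_le_pow₀ hD0
      have h2 : (D : ℝ) ^ 8 = D ^ 7 * D := by ring
      rw [h2]
      nlinarith
    · nlinarith [Nat.zero_le (D * D * D)]
    · have h1 : 4 ^ D.bits.length = 2 ^ D.bits.length * 2 ^ D.bits.length := by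
        rw [← mul_pow]
        norm_num
      rw [h1]
      exact (Nat.mul_le_mul hl hl).trans (hs2.trans hM)
  refine hgp.trans (prob_mono fun ω hω => ?_)
  have hT := tst_good hω hP
  have hEc := ecoef_good hω hD hP.hτ2
  have h1 := learn_spec hF.1 ha hDd hl2 hT hEc hP.hZ hM1 (hs1.trans hM)
  exact h1

theorem learn_of_noise {m : Bool} (h : Estimable m noiseSensitivity) : Learnable m := by
  obtain ⟨E, hE, e, hspec⟩ := h
  refine ⟨List (Bool × List Bool), inferInstance, learner E e, evalH,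
    PTime.of_poly (learner_poly hE.toPoly e), PTime.of_poly evalH_poly, 2 * (75 + 33 * e), ?_⟩
  intro n s a b F ha hb hF
  have hq := four_le_qq (n := n) (s := s) ha hb
  have hnq : n + 2 ≤ qq n s a b := by unfold qq; omega
  have hbq : b ≤ qq n s a b := by unfold qq; omega
  have hnsq : n + s + 4 ≤ qq n s a b := by unfold qq; omega
  have hDq := dn_le (n := n) (s := s) ha hb
  have hy : qq n s a b ≤ (n + s + a + b) ^ 2 := by
    unfold qq
    have : 2 ≤ n + s + a + b := by omega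
    nlinarith
  have hNN : qq n s a b ^ (75 + 33 * e) ≤ (n + s + a + b) ^ (2 * (75 + 33 * e)) := by
    rw [pow_mul]
    exact Nat.pow_le_pow_left hy _
  have hlr : ∀ (NN : ℕ) (ω : Sample n NN), learner E e (input n s a b F ω) =
      loop (tst E n s (qq n s a b ^ 32) (qq n s a b ^ 71) (dn s a)
        (2 * dn s a * dn s a * dn s a) (dn s a).bits.length (examples F ω.1).length
        ((examples F ω.1).take (qq n s a b ^ 71))
        (st2L n (qq n s a b ^ 71) (examples F ω.1) (List.ofFn ω.2))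
        (runsL n (qq n s a b ^ 71) (min (qq n s a b ^ 7) (examples F ω.1).length)
          ((n + 2 + (2 * s + 1) + qq n s a b ^ 32 + 8) ^ e) (examples F ω.1) (List.ofFn ω.2)))
        (qq n s a b ^ 71) (dn s a) ((examples F ω.1).take (qq n s a b ^ 71))
        (nvars (examples F ω.1)) (examples F ω.1).length
        (min (dn s a * dn s a + 1) (examples F ω.1).length) := fun NN ω => rfl
  have hME := size1 hq hnsq e
  obtain ⟨hR, hB⟩ := size2 hq hnq e hME hNN
  obtain ⟨hs1, hs2, hs3⟩ := small_ok hq hDq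
  have hkk := kk_ok hq hnq hbq
  have hhoef := hoef_ok hq hnq hbq (dn_pos (s := s) ha) hDq (le_refl (qq n s a b ^ 71))
  have hg : 65536 * dn s a ^ 8 ≤ qq n s a b ^ 32 := by
    calc 65536 * dn s a ^ 8 ≤ qq n s a b ^ 8 * (qq n s a b ^ 3) ^ 8 :=
          Nat.mul_le_mul (le_trans (by norm_num) (Nat.pow_le_pow_left hq 8))
            (Nat.pow_le_pow_left hDq 8)
      _ = qq n s a b ^ 32 := by ring
  have hg1 : 1 ≤ qq n s a b ^ 32 := Nat.one_le_pow _ _ (by omega)
  have hM1 : 1 ≤ qq n s a b ^ 71 := Nat.one_le_pow _ _ (by omega)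
  have hkM : qq n s a b ^ 7 ≤ qq n s a b ^ 71 := Nat.pow_le_pow_right (by omega) (by norm_num)
  generalize (n + s + a + b) ^ (2 * (75 + 33 * e)) = NN at *
  generalize qq n s a b ^ 71 = M at *
  generalize qq n s a b ^ 32 = g at *
  generalize qq n s a b ^ 7 = kk at *
  generalize hMEd : (n + 2 + (2 * s + 1) + g + 8) ^ e = ME at *
  have hM : M ≤ NN := by omega
  have hS : 2 * (M * n) ≤ NN := by omega
  have key := learn_prob hspec ha hb hF rfl hg1 hM1 hg hhoef hMEd.symm hkk hM hS hR hB hs1 hs2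
  refine key.trans (prob_mono fun ω hω => ?_)
  have hlen : (examples F ω.1).length = NN := by simp [examples]
  have h2 : learner E e (input n s a b F ω) = loop (tst E n s g M (dn s a)
        (2 * dn s a * dn s a * dn s a) (dn s a).bits.length NN
        (stL (fn n F) fun j => (pFn hM hS ω j).1) (st2F (fn n F) (pFn hM hS ω))
        (List.ofFn fun j => runOf F (rFn hR hB ω j))) M (dn s a)
        (stL (fn n F) fun j => (pFn hM hS ω j).1) n NN (dn s a * dn s a + 1) := by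
    rw [hlr, hlen, nvars_examples F ω.1 (by omega), min_eq_left (by omega : kk ≤ NN),
      min_eq_left (by omega : dn s a * dn s a + 1 ≤ NN), take_examples F ω.1 hM,
      st2L_eq F hM hS ω, runsL_eq F hR hB ω]
    rfl
  rw [h2]
  exact hω

end Pool.Agent.L0h78.NK
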