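import Pool.Agent.L0h78.NK.Skel

/-!
# DNF formulas and small coefficients of low degree
-/

namespace Pool.Agent.L0h78.NK

open Pool.Agent.L0h78.DE Finset
open Pool.Agent.Helper91K9.DL (dnfVal termVal examples)

variable {n : ℕ}

theorem wt_sh_ev (S : Cu n) (v : Fin n) : wt (sh S (ev v)) ≤ wt S + 1 := by
  unfold wt
  have h : (univ.filter fun i => sh S (ev v) i = true) ⊆
      insert v (univ.filter fun i => S i = true) := by
    intro i hi
    rw [mem_filter] at hi
    rw [mem_insert, mem_filter]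
    by_cases h : i = v
    · exact Or.inl h
    · right
      refine ⟨mem_univ _, ?_⟩
      have := hi.2
      simp only [sh, ev, h, decide_false, Bool.xor_false] at this
      exact this
  exact (card_le_card h).trans (card_insert_le _ _)

theorem SmallL.lit {r : Cu n → ℝ} {θ : ℝ} {ℓ : ℕ} (h : SmallL r θ (ℓ + 1)) (v : Fin n)
    (b : Bool) : SmallL (fun x => (if (x v == b) = true then (1 : ℝ) else 0) * r x) θ ℓ := by
  intro S hS
  have h1 : fc (fun x => (if (x v == b) = true then (1 : ℝ) else 0) * r x) S =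
      (1 / 2) * fc r S + (if b then -1 / 2 else 1 / 2) * fc r (sh S (ev v)) := by
    unfold fc
    rw [← Ex_mul_left, ← Ex_mul_left, ← Ex_add]
    refine Ex_congr fun x => ?_
    rw [chi_comm (sh S (ev v)), chi_sh, chi_comm x S, chi_comm x (ev v), chi_ev]
    cases hx : x v <;> cases b <;> simp [hx] <;> ring
  rw [h1]
  refine (abs_add_le _ _).trans ?_
  rw [abs_mul, abs_mul]
  have h2 := h S (by omega)
  have h3 := h (sh S (ev v)) ((wt_sh_ev S v).trans (by omega))
  have h4 : |(if b then -1 / 2 else 1 / 2 : ℝ)| = 1 / 2 := by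
    cases b <;> simp [abs_div]
  rw [h4, abs_of_pos (by norm_num : (0 : ℝ) < 1 / 2)]
  linarith

theorem tv_cons (l : ℕ × Bool) (t : List (ℕ × Bool)) (hl : l.1 < n) (x : Cu n) :
    tv (l :: t) x = (if (x ⟨l.1, hl⟩ == l.2) = true then (1 : ℝ) else 0) * tv t x := by
  unfold tv
  have h3 : termVal (l :: t) (List.ofFn x) = ((x ⟨l.1, hl⟩ == l.2) && termVal t (List.ofFn x)) := by
    unfold termVal
    rw [List.all_cons, getD_ofFn x l.1 hl]
  rw [h3]
  cases (x ⟨l.1, hl⟩ == l.2) <;> cases termVal t (List.ofFn x) <;> simp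

theorem SmallL.term {r : Cu n → ℝ} {θ : ℝ} : ∀ (t : List (ℕ × Bool)) (ℓ : ℕ),
    SmallL r θ (ℓ + t.length) → (∀ l ∈ t, l.1 < n) → SmallL (fun x => tv t x * r x) θ ℓ := by
  intro t
  induction t with
  | nil =>
    intro ℓ h _
    have h1 : (fun x : Cu n => tv [] x * r x) = r := by
      funext x
      simp [tv, termVal]
    rw [h1]
    simpa using h
  | cons l t ih =>
    intro ℓ h ht
    have hl : l.1 < n := ht l (by simp)
    have h1 := (ih (ℓ + 1) (by
      have e : ℓ + 1 + t.length = ℓ + (l :: t).length := by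
        rw [List.length_cons]
        omega
      rw [e]
      exact h) fun l' hl' => ht l' (List.mem_cons_of_mem _ hl')).lit ⟨l.1, hl⟩ l.2
    have h2 : (fun x : Cu n => tv (l :: t) x * r x) = fun x : Cu n =>
        (if (x ⟨l.1, hl⟩ == l.2) = true then (1 : ℝ) else 0) * (tv t x * r x) := by
      funext x
      rw [tv_cons l t hl]
      ring
    rw [h2]
    exact h1

theorem tv_dedup (t : List (ℕ × Bool)) (x : Cu n) : tv t.dedup x = tv t x := by
  unfold tv termVal
  have h : t.dedup.all (fun l => (List.ofFn x).getD l.1 false == l.2) =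
      t.all (fun l => (List.ofFn x).getD l.1 false == l.2) := by
    rw [Bool.eq_iff_iff, List.all_eq_true, List.all_eq_true]
    simp only [List.mem_dedup]
  rw [h]

theorem tv_nonneg (t : List (ℕ × Bool)) (x : Cu n) : 0 ≤ tv t x := by
  unfold tv
  split_ifs <;> norm_num

/-- Terms that do not contain a variable are not changed if it is flipped. -/
theorem tv_flip (v : Fin n) : ∀ t : List (ℕ × Bool), (∀ l ∈ t, l.1 < n) →
    (∀ l ∈ t, l.1 ≠ v) → ∀ x : Cu n, tv t (sh x (ev v)) = tv t x := by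
  intro t
  induction t with
  | nil => intro _ _ x; simp [tv, termVal]
  | cons l t ih =>
    intro h1 h2 x
    have hl : l.1 < n := h1 l (by simp)
    rw [tv_cons l t hl, tv_cons l t hl, ih (fun l' hl' => h1 l' (List.mem_cons_of_mem _ hl'))
      (fun l' hl' => h2 l' (List.mem_cons_of_mem _ hl'))]
    have h3 : (sh x (ev v)) ⟨l.1, hl⟩ = x ⟨l.1, hl⟩ := by
      have h4 : (⟨l.1, hl⟩ : Fin n) ≠ v := fun h => h2 l (by simp) (congrArg Fin.val h)
      simp [sh, ev, h4]
    rw [h3]

theorem tv_mem {t : List (ℕ × Bool)} {l : ℕ × Bool} (hl : l ∈ t) (hn : l.1 < n) (x : Cu n)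
    (h : (x ⟨l.1, hn⟩ == l.2) = false) : tv t x = 0 := by
  unfold tv
  rw [if_neg]
  unfold termVal
  rw [List.all_eq_true]
  push Not
  refine ⟨l, hl, ?_⟩
  rw [getD_ofFn x l.1 hn, h]
  simp

theorem Ex_tv_le : ∀ t : List (ℕ × Bool), t.Nodup → (∀ l ∈ t, l.1 < n) →
    Ex (fun x : Cu n => tv t x) ≤ (1 / 2 : ℝ) ^ t.length := by
  intro t
  induction t with
  | nil =>
    intro _ _
    refine Ex_le fun x => ?_
    simp [tv, termVal]
  | cons l t ih =>
    intro h1 h2
    rw [List.nodup_cons] at h1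
    have hl : l.1 < n := h2 l (by simp)
    have h3 := ih h1.2 fun l' hl' => h2 l' (List.mem_cons_of_mem _ hl')
    rw [List.length_cons, pow_succ]
    by_cases h4 : ∃ l' ∈ t, l'.1 = l.1
    · -- the term is contradictory
      obtain ⟨l', hl', h5⟩ := h4
      have h6 : l'.2 = !l.2 := by
        by_contra hcon
        have h7 : l'.2 = l.2 := by
          revert hcon
          cases l'.2 <;> cases l.2 <;> simp
        exact h1.1 ((Prod.ext h5 h7 : l' = l) ▸ hl')
      have h7 : ∀ x : Cu n, tv (l :: t) x = 0 := by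
        intro x
        rw [tv_cons l t hl]
        by_cases h8 : (x ⟨l.1, hl⟩ == l.2) = true
        · rw [tv_mem hl' (h2 l' (List.mem_cons_of_mem _ hl')) x, mul_zero]
          have h9 : (⟨l'.1, h2 l' (List.mem_cons_of_mem _ hl')⟩ : Fin n) = ⟨l.1, hl⟩ := Fin.ext h5
          rw [h9, h6]
          revert h8
          cases x ⟨l.1, hl⟩ <;> cases l.2 <;> simp
        · rw [if_neg h8, zero_mul]
      rw [Ex_congr h7, Ex_const]
      positivity
    · push Not at h4
      have h5 : Ex (fun x : Cu n => tv (l :: t) x) =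
          Ex (fun x : Cu n => (if (x ⟨l.1, hl⟩ == l.2) = true then (0 : ℝ) else 1) * tv t x) := by
        rw [← Ex_sh (fun x : Cu n => tv (l :: t) x) (ev ⟨l.1, hl⟩)]
        refine Ex_congr fun x => ?_
        rw [tv_cons l t hl, tv_flip ⟨l.1, hl⟩ t (fun l' hl' => h2 l' (List.mem_cons_of_mem _ hl'))
          (fun l' hl' => h4 l' hl')]
        congr 1
        simp only [sh, ev, decide_true, Bool.xor_true]
        cases x ⟨l.1, hl⟩ <;> cases l.2 <;> simp
      have h6 : Ex (fun x : Cu n => tv (l :: t) x) +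
          Ex (fun x : Cu n => (if (x ⟨l.1, hl⟩ == l.2) = true then (0 : ℝ) else 1) * tv t x) =
          Ex (fun x : Cu n => tv t x) := by
        rw [← Ex_add]
        refine Ex_congr fun x => ?_
        rw [tv_cons l t hl]
        split_ifs <;> ring
      rw [← h5] at h6
      linarith

theorem Ex_term_leL {r : Cu n → ℝ} {θ : ℝ} {ℓ : ℕ} (hr : ∀ x, |r x| ≤ 2) (hθ : 0 ≤ θ)
    (h : SmallL r θ ℓ) (t : List (ℕ × Bool))
    (ht : ∀ l ∈ t, l.1 < n) : Ex (fun x => tv t x * r x) ≤ θ + (1 / 2) ^ ℓ := by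
  have ht' : ∀ l ∈ t.dedup, l.1 < n := fun l hl => ht l (List.mem_dedup.1 hl)
  have e : (fun x : Cu n => tv t x * r x) = fun x => tv t.dedup x * r x := by
    funext x
    rw [tv_dedup]
  rw [e]
  have hp : (0 : ℝ) ≤ (1 / 2) ^ ℓ := by positivity
  by_cases hlen : t.dedup.length ≤ ℓ
  · have h0 : SmallL r θ (ℓ - t.dedup.length + t.dedup.length) := by
      rw [Nat.sub_add_cancel hlen]
      exact h
    have h1 := SmallL.term t.dedup (ℓ - t.dedup.length) h0 ht' zv (by
      have : wt (zv : Cu n) = 0 := by simp [wt, zv]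
      omega)
    unfold fc at h1
    simp only [chi_zv, mul_one] at h1
    have h2 := (le_abs_self _).trans h1
    linarith
  · have h1 := Ex_tv_le t.dedup (List.nodup_dedup t) ht'
    have h2 : Ex (fun x : Cu n => tv t.dedup x * r x) ≤ Ex (fun x : Cu n => tv t.dedup x * 2) := by
      refine Ex_mono fun x => mul_le_mul_of_nonneg_left ?_ (tv_nonneg _ _)
      exact (le_abs_self _).trans (hr x)
    rw [Ex_mul_right] at h2
    have h3 : (1 / 2 : ℝ) ^ t.dedup.length ≤ (1 / 2) ^ (ℓ + 1) :=
      pow_le_pow_of_le_one (by norm_num) (by norm_num) (by omega)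
    rw [pow_succ] at h3
    linarith

/-- Small coefficients of low degree of `f - p` imply that `p` is close to `f`. -/
theorem dnf_closeL {s ℓ : ℕ} {F : List (List (ℕ × Bool))} (hF : IsDnf n s F) {p : Cu n → ℝ}
    (hp : ∀ x, -1 ≤ p x ∧ p x ≤ 1) {θ : ℝ} (hθ : 0 ≤ θ)
    (h : SmallL (fun x => sR (fn n F x) - p x) θ ℓ) :
    Ex (fun x => |sR (fn n F x) - p x|) ≤ (2 * s + 1) * θ + 2 * s * (1 / 2) ^ ℓ := by
  set r : Cu n → ℝ := fun x => sR (fn n F x) - p x with hr
  have hr2 : ∀ x, |r x| ≤ 2 := by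
    intro x
    have h1 := abs_sR (fn n F x)
    have h2 := abs_le.1 h1.le
    have h3 := hp x
    rw [abs_le]
    simp only [hr]
    constructor <;> linarith [h2.1, h2.2]
  have h1 : Ex (fun x => |r x|) ≤ Ex (fun x => 2 * (F.map fun t => tv t x * r x).sum - r x) := by
    refine Ex_mono fun x => (abs_sub_le_dq F x (p x) (hp x).1 (hp x).2).trans_eq ?_
    unfold dq
    rw [List.sum_map_mul_right]
    simp only [hr]
    ring
  rw [Ex_sub, Ex_mul_left, Ex_list_sum] at h1
  have hp0 : (0 : ℝ) ≤ (1 / 2) ^ ℓ := by positivity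
  have h2 : (F.map fun t => Ex fun x => tv t x * r x).sum ≤ F.length * (θ + (1 / 2) ^ ℓ) := by
    have h3 : ∀ G : List (List (ℕ × Bool)), (∀ t ∈ G, ∀ l ∈ t, l.1 < n) →
        (G.map fun t => Ex fun x => tv t x * r x).sum ≤ G.length * (θ + (1 / 2) ^ ℓ) := by
      intro G
      induction G with
      | nil => simp
      | cons t G ih =>
        intro hG
        have h4 := ih fun t' ht' => hG t' (List.mem_cons_of_mem _ ht')
        have h5 := Ex_term_leL hr2 hθ h t (hG t (by simp))
        rw [List.map_cons, List.sum_cons, List.length_cons]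
        push_cast
        linarith
    exact h3 F hF.2
  have h3 : -Ex r ≤ θ := by
    have h4 := h zv (by
      have : wt (zv : Cu n) = 0 := by simp [wt, zv]
      omega)
    unfold fc at h4
    simp only [chi_zv, mul_one] at h4
    exact (neg_le_abs _).trans h4
  have h4 : (F.length : ℝ) ≤ s := by exact_mod_cast hF.1
  have h5 : (F.length : ℝ) * (θ + (1 / 2) ^ ℓ) ≤ s * (θ + (1 / 2) ^ ℓ) :=
    mul_le_mul_of_nonneg_right h4 (by positivity)
  linarith

/-- The error of the hypothesis. -/
theorem learn_spec {M D Z ℓ cap s a : ℕ} {F : List (List (ℕ × Bool))} {X : Fin M → Cu n}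
    {t : List (Bool × List Bool) → ℕ → List Bool → Bool} (hF : IsDnf n s F) (ha : 1 ≤ a)
    (hDd : D = 4 * (2 * s + 1) * a) (hℓ : D ≤ 2 ^ ℓ)
    (hT : TS n (D * D + 1) D Z ℓ (fn n F) t) (hE : EC D (D * D + 1) (fn n F) X) (hZ : 0 < Z)
    (hM : 0 < M) (hcap : 4 * Z + 1 ≤ cap) :
    Prob (fun x : Cu n => evalH (loop t M D (stL (fn n F) X) n cap (D * D + 1),
      List.ofFn x) ≠ fn n F x) ≤ 1 / (a : ℝ) := by
  have hD : 0 < D := by
    rw [hDd]
    positivity
  obtain ⟨h1, h2⟩ := loop_spec hT hE hZ hD hM hcap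
  set H := loop t M D (stL (fn n F) X) n cap (D * D + 1) with hH
  have hD0 : (0 : ℝ) < D := by exact_mod_cast hD
  have ha0 : (0 : ℝ) < a := by exact_mod_cast ha
  have h3 := dnf_closeL hF (p := pC D (toC n (D * D + 1) H)) (fun x => ⟨clip_ge _, clip_le _⟩)
    (by positivity : (0 : ℝ) ≤ 2 / D) h2
  have h4 := prob_sign_le (fn n F) (pC D (toC n (D * D + 1) H))
    (fun x => evalH (H, List.ofFn x)) (fun x => by
      unfold evalH pC
      rw [Bool.not_eq_true', decide_eq_false_iff_not, not_lt]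
      rw [← GH_eq (D * D + 1) H h1]
      constructor
      · intro h5
        have h6 : (0 : ℝ) ≤ (GH H (List.ofFn x) : ℝ) / D :=
          div_nonneg (by exact_mod_cast h5) hD0.le
        unfold clip
        exact le_max_of_le_right (le_min (by norm_num) h6)
      · intro h5
        by_contra h6
        have h7 : (GH H (List.ofFn x) : ℝ) / D < 0 :=
          div_neg_of_neg_of_pos (by exact_mod_cast not_le.1 h6) hD0
        unfold clip at h5
        have h8 : max (-1) (min 1 ((GH H (List.ofFn x) : ℝ) / D)) < 0 :=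
          max_lt (by norm_num) ((min_le_right _ _).trans_lt h7)
        linarith)
  refine h4.trans (h3.trans ?_)
  have h5 : (1 / 2 : ℝ) ^ ℓ ≤ 1 / D := by
    rw [div_pow, one_pow]
    exact div_le_div_of_nonneg_left (by norm_num) hD0 (by exact_mod_cast hℓ)
  have hs0 : (0 : ℝ) ≤ s := Nat.cast_nonneg s
  have h6 : 2 * (s : ℝ) * (1 / 2) ^ ℓ ≤ 2 * s * (1 / D) :=
    mul_le_mul_of_nonneg_left h5 (by positivity)
  have h7 : (D : ℝ) = 4 * (2 * s + 1) * a := by
    rw [hDd]
    push_cast
    ring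
  have h8 : (2 * (s : ℝ) + 1) * (2 / D) = 1 / (2 * a) := by
    rw [h7]
    field_simp
    norm_num
  have h9 : 2 * (s : ℝ) * (1 / D) ≤ 1 / (2 * a) := by
    rw [mul_one_div, div_le_div_iff₀ hD0 (by positivity), h7]
    nlinarith
  have h10 : (1 : ℝ) / a = 1 / (2 * a) + 1 / (2 * a) := by
    field_simp
    norm_num
  rw [h8, h10]
  linarith

end Pool.Agent.L0h78.NK
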