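import Pool.Agent.L0h78.NK.Iden

/-!
# Correctness of the test for good samples
-/

namespace Pool.Agent.L0h78.NK

open Pool.Agent.L0h78.DE Finset
open Pool.Agent.NPC Pool.Agent.NPC.H532 Pool.Agent.H424R2.PPAD
open Pool.Agent.Helper91K9.DL (dnfVal termVal examples nvars)

variable {n : ℕ}

/-- Good samples. -/
structure Good {M : ℕ} (D T g : ℕ) (τ : ℝ) (f : Cu n → Bool) (P : Fin M → Tr n)
    (v : List Bool → List Bool → ℕ) : Prop where
  hv : ∀ A A' : List Bool, |(v A A' : ℝ) / g -
    noiseSensitivity (n + 2) (gf f (pad A) (pad A'))| ≤ 3 / g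
  hm : ∀ A : Cu n, |∑ j, fk f A (P j).1 - M * Ex (fk f A)| ≤ M * τ
  h3 : ∀ (c : Cl n T) (S : Cu n), |∑ j, sR (f (P j).1) * pC D c (yy (P j)) * Phi S (P j) -
    M * xw (fun x => sR (f x)) (pC D c) S| ≤ M * τ
  h4 : ∀ (c : Cl n T) (S : Cu n), |∑ j, pC D c (P j).1 * pC D c (yy (P j)) * Phi S (P j) -
    M * xw (pC D c) (pC D c) S| ≤ M * τ
  h5 : ∀ (c : Cl n T) (S : Cu n), |∑ j, rC f D c (P j).1 * chi S (P j).1 -
    M * fc (rC f D c) S| ≤ M * τ

/-- The pairs (example, noisy point). -/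
def st2F {M : ℕ} (f : Cu n → Bool) (P : Fin M → Tr n) : List ((List Bool × Bool) × List Bool) :=
  List.ofFn fun j => ((List.ofFn (P j).1, f (P j).1), List.ofFn (yy (P j)))

theorem sum_st2F {M : ℕ} (f : Cu n → Bool) (P : Fin M → Tr n)
    (φ : (List Bool × Bool) × List Bool → ℤ) :
    (((st2F f P).map φ).sum : ℝ) = ∑ j, (φ ((List.ofFn (P j).1, f (P j).1),
      List.ofFn (yy (P j))) : ℝ) := by
  unfold st2F
  rw [List.map_ofFn, List.sum_ofFn]
  push_cast
  rfl

section

variable {M D T g : ℕ} {τ : ℝ} {f : Cu n → Bool} {P : Fin M → Tr n}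
  {v : List Bool → List Bool → ℕ}

theorem ecoef_good (hG : Good D T g τ f P v) (hD : 0 < D) (hτ : 2 * D * τ ≤ 1) :
    EC D T f (fun j => (P j).1) := by
  intro H hH α
  have hD0 : (0 : ℝ) < D := by exact_mod_cast hD
  have hM0 : (0 : ℝ) ≤ M := Nat.cast_nonneg M
  unfold ecoef
  rw [sum_stL]
  have h1 : ∀ j, (((D * yZ (f (P j).1) - qH D H (List.ofFn (P j).1)) *
      chL α (List.ofFn (P j).1) : ℤ) : ℝ) =
      D * (rC f D (toC n T H) (P j).1 * chi (pad α) (P j).1) := by
    intro j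
    push_cast
    rw [yZ_eq, qH_eq T D hD H hH, chL_eq]
    unfold rC
    ring
  rw [sum_congr rfl fun j _ => h1 j, ← mul_sum]
  have h2 := mul_le_mul_of_nonneg_left (hG.h5 (toC n T H) (pad α)) hD0.le
  rw [← abs_of_pos hD0, ← abs_mul, abs_of_pos hD0] at h2
  have h3 : (D : ℝ) * (M * τ) ≤ M / 2 := by
    have := mul_le_mul_of_nonneg_left hτ hM0
    linarith
  have h4 : (D : ℝ) * ∑ j, rC f D (toC n T H) (P j).1 * chi (pad α) (P j).1 -
      M * D * fc (rC f D (toC n T H)) (pad α) = D *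
      (∑ j, rC f D (toC n T H) (P j).1 * chi (pad α) (P j).1 -
        M * fc (rC f D (toC n T H)) (pad α)) := by ring
  rw [h4]
  exact h2.trans h3

theorem filter_len {α : Type} (p : α → Bool) : ∀ l : List α,
    ((l.filter p).length : ℝ) = (l.map fun a => bR (p a)).sum := by
  intro l
  induction l with
  | nil => simp
  | cons a l ih =>
    rw [List.map_cons, List.sum_cons, ← ih]
    cases h : p a
    · rw [List.filter_cons_of_neg (by simp [h])]
      simp [bR]
    · rw [List.filter_cons_of_pos (by simp [h]), List.length_cons]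
      push_cast
      simp [bR]
      ring

theorem cnt_eq (f : Cu n → Bool) (X : Fin M → Cu n) (A : List Bool) :
    (cnt (stL f X) A : ℝ) = ∑ j, fk f (pad A) (X j) := by
  unfold cnt
  rw [filter_len]
  unfold stL
  rw [List.map_ofFn, List.sum_ofFn]
  refine sum_congr rfl fun j _ => ?_
  simp only [Function.comp]
  rw [kL_eq]
  rfl

/-- The main expression. -/
def BZ' (g M : ℕ) (st : List (List Bool × Bool)) (v : List Bool → List Bool → ℕ)
    (A A' : List Bool) : ℤ :=
  (10 * g * (cnt st A + cnt st A') + 7 * g * M : ℕ) - (320 * M * v A A' : ℕ) +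
    (144 * M * (v A A + v A' A') : ℕ)

theorem BZ_close (hG : Good D T g τ f P v) (hg : 0 < g) (A A' : List Bool) :
    |(BZ' g M (stL f fun j => (P j).1) v A A' : ℝ) - 20 * g * M * BB f (pad A) (pad A')| ≤
      20 * g * M * τ + 1824 * M := by
  have hg0 : (0 : ℝ) < g := by exact_mod_cast hg
  have hM0 : (0 : ℝ) ≤ M := Nat.cast_nonneg M
  have e1 : (BZ' g M (stL f fun j => (P j).1) v A A' : ℝ) =
      10 * g * (∑ j, fk f (pad A) (P j).1 + ∑ j, fk f (pad A') (P j).1) + 7 * g * M -
      320 * M * g * ((v A A' : ℝ) / g) +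
      144 * M * g * ((v A A : ℝ) / g + (v A' A' : ℝ) / g) := by
    unfold BZ'
    push_cast
    rw [cnt_eq, cnt_eq]
    field_simp
  have e2 := BB_ns f (pad A) (pad A')
  have e3 : (BZ' g M (stL f fun j => (P j).1) v A A' : ℝ) - 20 * g * M * BB f (pad A) (pad A') =
      10 * g * (∑ j, fk f (pad A) (P j).1 - M * Ex (fk f (pad A))) +
      10 * g * (∑ j, fk f (pad A') (P j).1 - M * Ex (fk f (pad A'))) -
      320 * M * g * ((v A A' : ℝ) / g - noiseSensitivity (n + 2) (gf f (pad A) (pad A'))) +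
      144 * M * g * ((v A A : ℝ) / g - noiseSensitivity (n + 2) (gf f (pad A) (pad A))) +
      144 * M * g * ((v A' A' : ℝ) / g - noiseSensitivity (n + 2) (gf f (pad A') (pad A'))) := by
    rw [e1]
    have e4 : 20 * (g : ℝ) * M * BB f (pad A) (pad A') = g * M * (20 * BB f (pad A) (pad A')) := by
      ring
    rw [e4, e2]
    ring
  rw [e3]
  have k1 := hG.hm (pad A)
  have k2 := hG.hm (pad A')
  have k3 := hG.hv A A'
  have k4 := hG.hv A A
  have k5 := hG.hv A' A'
  rw [abs_le] at k1 k2 k3 k4 k5 ⊢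
  have c1 : (0 : ℝ) ≤ 10 * g := by positivity
  have c2 : (0 : ℝ) ≤ 320 * M * g := by positivity
  have c3 : (0 : ℝ) ≤ 144 * M * g := by positivity
  have a1 := mul_le_mul_of_nonneg_left k1.1 c1
  have a2 := mul_le_mul_of_nonneg_left k1.2 c1
  have a3 := mul_le_mul_of_nonneg_left k2.1 c1
  have a4 := mul_le_mul_of_nonneg_left k2.2 c1
  have a5 := mul_le_mul_of_nonneg_left k3.1 c2
  have a6 := mul_le_mul_of_nonneg_left k3.2 c2
  have a7 := mul_le_mul_of_nonneg_left k4.1 c3
  have a8 := mul_le_mul_of_nonneg_left k4.2 c3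
  have a9 := mul_le_mul_of_nonneg_left k5.1 c3
  have a10 := mul_le_mul_of_nonneg_left k5.2 c3
  have g1 : 320 * (M : ℝ) * g * (3 / g) = 960 * M := by
    field_simp
    ring
  have g2 : 144 * (M : ℝ) * g * (3 / g) = 432 * M := by
    field_simp
    ring
  have g3 : 320 * (M : ℝ) * g * -(3 / g) = -(960 * M) := by rw [mul_neg, g1]
  have g4 : 144 * (M : ℝ) * g * -(3 / g) = -(432 * M) := by rw [mul_neg, g2]
  rw [g3] at a5
  rw [g1] at a6
  rw [g4] at a7 a9
  rw [g2] at a8 a10
  constructor <;> linarith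

/-- Lists: sums of errors. -/
theorem sum_err {α : Type} (c x y : α → ℝ) (ε : ℝ) : ∀ l : List α,
    (∀ a ∈ l, |x a - y a| ≤ ε) →
    |(l.map fun a => c a * x a).sum - (l.map fun a => c a * y a).sum| ≤
      (l.map fun a => |c a|).sum * ε := by
  intro l
  induction l with
  | nil => intro _; simp
  | cons a l ih =>
    intro h
    have h1 := ih fun b hb => h b (List.mem_cons_of_mem _ hb)
    have h2 := h a (by simp)
    rw [List.map_cons, List.map_cons, List.map_cons, List.sum_cons, List.sum_cons, List.sum_cons]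
    have e : c a * x a + (l.map fun a => c a * x a).sum -
        (c a * y a + (l.map fun a => c a * y a).sum) =
        c a * (x a - y a) + ((l.map fun a => c a * x a).sum - (l.map fun a => c a * y a).sum) := by
      ring
    rw [e]
    refine (abs_add_le _ _).trans ?_
    rw [abs_mul, add_mul]
    exact add_le_add (mul_le_mul_of_nonneg_left h2 (abs_nonneg _)) h1

/-- The main term. -/
def ffz' (g M cap : ℕ) (st : List (List Bool × Bool)) (v : List Bool → List Bool → ℕ)
    (α : List Bool) : ℤ :=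
  ((pairs cap α).map fun q => cf q.1 q.2 * BZ' g M st v q.1 q.2).sum

theorem ffz_close {cap : ℕ} (hG : Good D T g τ f P v) (hg : 0 < g) (α : List Bool)
    (hα : α.length ≤ n) (hcap : 4 ^ cntT α ≤ cap) :
    |(ffz' g M cap (stL f fun j => (P j).1) v α : ℝ) - 20 * g * M *
      ((t3 α : ℝ) * xw (fun x => bR (f x)) (fun x => bR (f x)) (pad α))| ≤
      17 ^ cntT α * (20 * g * M * τ + 1824 * M) := by
  rw [xw_pairs f cap α hα hcap, ← List.sum_map_mul_left]
  have e1 : (ffz' g M cap (stL f fun j => (P j).1) v α : ℝ) = ((pairs cap α).map fun q =>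
      (cf q.1 q.2 : ℝ) * (BZ' g M (stL f fun j => (P j).1) v q.1 q.2 : ℝ)).sum := by
    unfold ffz'
    generalize pairs cap α = l
    induction l with
    | nil => simp
    | cons q l ih =>
      rw [List.map_cons, List.sum_cons, List.map_cons, List.sum_cons, ← ih]
      push_cast
      ring
  have e2 : ((pairs cap α).map fun q => 20 * (g : ℝ) * M * ((cf q.1 q.2 : ℝ) *
      BB f (pad q.1) (pad q.2))).sum = ((pairs cap α).map fun q => (cf q.1 q.2 : ℝ) *
      (20 * (g : ℝ) * M * BB f (pad q.1) (pad q.2))).sum := by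
    congr 1
    refine List.map_congr_left fun q _ => ?_
    ring
  rw [e1, e2, ← sum_abs_cf cap α hcap]
  exact sum_err (fun q : List Bool × List Bool => (cf q.1 q.2 : ℝ)) _ _ _ _
    fun q _ => BZ_close hG hg q.1 q.2

theorem t3_pos (α : List Bool) : (0 : ℝ) < (t3 α : ℝ) := by
  rw [t3_eq]
  positivity

theorem fpz_close (hG : Good D T g τ f P v) (hD : 0 < D) (H : List (Bool × List Bool))
    (hH : H.length ≤ T) (α : List Bool) (hα : α.length ≤ n) :
    |(fpz D (st2F f P) H α : ℝ) - M * D * (t3 α * xw (fun x => sR (f x))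
      (pC D (toC n T H)) (pad α))| ≤ D * t3 α * (M * τ) := by
  have hD0 : (0 : ℝ) < D := by exact_mod_cast hD
  have ht := t3_pos α
  unfold fpz
  rw [sum_st2F]
  have h1 : ∀ j, ((yZ (f (P j).1) * qH D H (List.ofFn (yy (P j))) *
      phZ α (List.ofFn (P j).1) (List.ofFn (yy (P j))) : ℤ) : ℝ) = (D * t3 α) *
      (sR (f (P j).1) * pC D (toC n T H) (yy (P j)) * Phi (pad α) (P j)) := by
    intro j
    push_cast
    rw [yZ_eq, qH_eq T D hD H hH, phZ_eq α _ _ hα]
    have h3 : (∏ i, if (pad α : Cu n) i then psi ((P j).1 i) (yy (P j) i) else 1) =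
      Phi (pad α) (P j) := rfl
    rw [h3]
    ring
  rw [sum_congr rfl fun j _ => h1 j, ← mul_sum]
  have h2 := mul_le_mul_of_nonneg_left (hG.h3 (toC n T H) (pad α)) (by positivity :
    (0 : ℝ) ≤ D * t3 α)
  rw [← abs_of_nonneg (by positivity : (0 : ℝ) ≤ D * t3 α), ← abs_mul,
    abs_of_nonneg (by positivity : (0 : ℝ) ≤ D * t3 α)] at h2
  refine le_trans (le_of_eq ?_) h2
  congr 1
  ring

theorem ppz_close (hG : Good D T g τ f P v) (hD : 0 < D) (H : List (Bool × List Bool))
    (hH : H.length ≤ T) (α : List Bool) (hα : α.length ≤ n) :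
    |(ppz D (st2F f P) H α : ℝ) - M * D ^ 2 * (t3 α * xw (pC D (toC n T H))
      (pC D (toC n T H)) (pad α))| ≤ D ^ 2 * t3 α * (M * τ) := by
  have hD0 : (0 : ℝ) < D := by exact_mod_cast hD
  have ht := t3_pos α
  unfold ppz
  rw [sum_st2F]
  have h1 : ∀ j, ((qH D H (List.ofFn (P j).1) * qH D H (List.ofFn (yy (P j))) *
      phZ α (List.ofFn (P j).1) (List.ofFn (yy (P j))) : ℤ) : ℝ) = (D ^ 2 * t3 α) *
      (pC D (toC n T H) (P j).1 * pC D (toC n T H) (yy (P j)) * Phi (pad α) (P j)) := by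
    intro j
    push_cast
    rw [qH_eq T D hD H hH, qH_eq T D hD H hH, phZ_eq α _ _ hα]
    have h3 : (∏ i, if (pad α : Cu n) i then psi ((P j).1 i) (yy (P j) i) else 1) =
      Phi (pad α) (P j) := rfl
    rw [h3]
    ring
  rw [sum_congr rfl fun j _ => h1 j, ← mul_sum]
  have h2 := mul_le_mul_of_nonneg_left (hG.h4 (toC n T H) (pad α)) (by positivity :
    (0 : ℝ) ≤ D ^ 2 * t3 α)
  rw [← abs_of_nonneg (by positivity : (0 : ℝ) ≤ D ^ 2 * t3 α), ← abs_mul,
    abs_of_nonneg (by positivity : (0 : ℝ) ≤ D ^ 2 * t3 α)] at h2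
  refine le_trans (le_of_eq ?_) h2
  congr 1
  ring

/-- The scaled estimate of the energy. -/
def WW' (g M D cap : ℕ) (st : List (List Bool × Bool))
    (st2 : List ((List Bool × Bool) × List Bool)) (v : List Bool → List Bool → ℕ)
    (H : List (Bool × List Bool)) (α : List Bool) : ℤ :=
  (4 * D * D : ℕ) * ffz' g M cap st v α - (40 * g * D : ℕ) * fpz D st2 H α +
    (20 * g : ℕ) * ppz D st2 H α

theorem WW_close {cap : ℕ} (hG : Good D T g τ f P v) (hτ : 0 ≤ τ) (hD : 0 < D) (hg : 0 < g)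
    (H : List (Bool × List Bool)) (hH : H.length ≤ T) (α : List Bool)
    (hα : α.length ≤ n) (hcap : 4 ^ cntT α ≤ cap) (hz : (pad α : Cu n) ≠ zv) :
    |(WW' g M D cap (stL f fun j => (P j).1) (st2F f P) v H α : ℝ) - 20 * g * M * D ^ 2 * t3 α *
      en (rC f D (toC n T H)) (pad α)| ≤ g * M * D ^ 2 *
        (17 ^ cntT α * (140 * τ + 7296 / g)) := by
  have hg0 : (0 : ℝ) < g := by exact_mod_cast hg
  have hD0 : (0 : ℝ) < D := by exact_mod_cast hD
  have hM0 : (0 : ℝ) ≤ M := Nat.cast_nonneg M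
  have k1 := ffz_close (cap := cap) hG hg α hα hcap
  have k2 := fpz_close hG hD H hH α hα
  have k3 := ppz_close hG hD H hH α hα
  have e0 : en (rC f D (toC n T H)) (pad α) = 4 * xw (fun x => bR (f x)) (fun x => bR (f x))
      (pad α) - 2 * xw (fun x => sR (f x)) (pC D (toC n T H)) (pad α) +
      xw (pC D (toC n T H)) (pC D (toC n T H)) (pad α) := by
    rw [← en_eq, ← xw_sR f hz, ← xw_sub]
    rfl
  have e1 : (WW' g M D cap (stL f fun j => (P j).1) (st2F f P) v H α : ℝ) =
      4 * D ^ 2 * (ffz' g M cap (stL f fun j => (P j).1) v α : ℝ) -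
      40 * g * D * (fpz D (st2F f P) H α : ℝ) + 20 * g * (ppz D (st2F f P) H α : ℝ) := by
    unfold WW'
    push_cast
    ring
  rw [e1, e0]
  set F1 : ℝ := (ffz' g M cap (stL f fun j => (P j).1) v α : ℝ) with hF1
  set F2 : ℝ := (fpz D (st2F f P) H α : ℝ) with hF2
  set F3 : ℝ := (ppz D (st2F f P) H α : ℝ) with hF3
  set X1 : ℝ := xw (fun x => bR (f x)) (fun x => bR (f x)) (pad α) with hX1
  set X2 : ℝ := xw (fun x => sR (f x)) (pC D (toC n T H)) (pad α) with hX2
  set X3 : ℝ := xw (pC D (toC n T H)) (pC D (toC n T H)) (pad α) with hX3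
  have hts : (t3 α : ℝ) ≤ 17 ^ cntT α := by
    rw [t3_eq]
    push_cast
    exact pow_le_pow_left₀ (by norm_num) (by norm_num) _
  have ht := t3_pos α
  set t : ℝ := (t3 α : ℝ) with htd
  set s : ℝ := 17 ^ cntT α with hsd
  have e2 : 4 * (D : ℝ) ^ 2 * F1 - 40 * g * D * F2 + 20 * g * F3 - 20 * g * M * D ^ 2 * t *
      (4 * X1 - 2 * X2 + X3) = 4 * D ^ 2 * (F1 - 20 * g * M * (t * X1)) -
      40 * g * D * (F2 - M * D * (t * X2)) + 20 * g * (F3 - M * D ^ 2 * (t * X3)) := by
    ring
  rw [e2]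
  have c1 : (0 : ℝ) ≤ 4 * D ^ 2 := by positivity
  have c2 : (0 : ℝ) ≤ 40 * g * D := by positivity
  have c3 : (0 : ℝ) ≤ 20 * g := by positivity
  rw [abs_le] at k1 k2 k3 ⊢
  have a1 := mul_le_mul_of_nonneg_left k1.1 c1
  have a2 := mul_le_mul_of_nonneg_left k1.2 c1
  have a3 := mul_le_mul_of_nonneg_left k2.1 c2
  have a4 := mul_le_mul_of_nonneg_left k2.2 c2
  have a5 := mul_le_mul_of_nonneg_left k3.1 c3
  have a6 := mul_le_mul_of_nonneg_left k3.2 c3
  have e3 : 4 * (D : ℝ) ^ 2 * (s * (20 * g * M * τ + 1824 * M)) =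
      g * M * D ^ 2 * (s * (80 * τ + 7296 / g)) := by
    field_simp
    ring
  have e4 : 40 * (g : ℝ) * D * (D * t * (M * τ)) + 20 * g * (D ^ 2 * t * (M * τ)) ≤
      g * M * D ^ 2 * (s * (60 * τ)) := by
    have h1 : 40 * (g : ℝ) * D * (D * t * (M * τ)) + 20 * g * (D ^ 2 * t * (M * τ)) =
        (g * M * D ^ 2 * (60 * τ)) * t := by ring
    have h2 : g * M * D ^ 2 * (s * (60 * τ)) = (g * M * D ^ 2 * (60 * τ)) * s := by ring
    rw [h1, h2]
    exact mul_le_mul_of_nonneg_left hts (by positivity)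
  have e5 : g * M * D ^ 2 * (s * (140 * τ + 7296 / g)) =
      g * M * D ^ 2 * (s * (80 * τ + 7296 / g)) + g * M * D ^ 2 * (s * (60 * τ)) := by ring
  rw [e5]
  constructor
  · have b1 : 4 * (D : ℝ) ^ 2 * -(s * (20 * g * M * τ + 1824 * M)) =
        -(g * M * D ^ 2 * (s * (80 * τ + 7296 / g))) := by rw [mul_neg, e3]
    rw [b1] at a1
    linarith
  · rw [e3] at a2
    linarith

/-- The hypotheses on the parameters. -/
structure Par (M D g Z l cap : ℕ) (τ : ℝ) : Prop where
  hD : 0 < D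
  hg : 0 < g
  hM : 0 < M
  hZ : 0 < Z
  hτ : 0 ≤ τ
  hacc : (17 : ℝ) ^ l * (140 * τ + 7296 / g) ≤ 20 / Z
  hτ2 : 2 * D * τ ≤ 1
  hl : 2 ^ l ≤ 2 * D
  hZ2 : 3 * (D * D * D) ≤ 2 * Z
  hcap : 4 ^ l ≤ cap

/-- The test. -/
def tst' (g M D Z l cap : ℕ) (st : List (List Bool × Bool))
    (st2 : List ((List Bool × Bool) × List Bool)) (v : List Bool → List Bool → ℕ)
    (H : List (Bool × List Bool)) (_ : ℕ) (α : List Bool) : Bool :=
  decide (cntT α = 0) || (decide (cntT α ≤ l) &&
    !decide ((Z : ℤ) * WW' g M D cap st st2 v H α < (40 * g * M * D * D : ℕ) * t3 α))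

theorem cntT_zero : ∀ α : List Bool, cntT α = 0 → (pad α : Cu n) = zv := by
  intro α h
  funext i
  unfold cntT at h
  rw [List.length_eq_zero_iff, List.filter_eq_nil_iff] at h
  simp only [pad, zv]
  by_cases hi : (i : ℕ) < α.length
  · rw [List.getD_eq_getElem _ _ hi]
    have := h _ (List.getElem_mem hi)
    simpa using this
  · rw [List.getD_eq_default _ _ (by omega)]

theorem cntT_take_le (S : Cu n) (k : ℕ) : cntT ((List.ofFn S).take k) ≤ wt S := by
  have h1 : cntT ((List.ofFn S).take k) ≤ cntT (List.ofFn S) := by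
    unfold cntT
    exact List.Sublist.length_le ((List.take_sublist k _).filter _)
  refine h1.trans (le_of_eq ?_)
  unfold cntT wt
  have h2 : ((List.ofFn S).filter fun b => b).length =
      ((List.finRange n).filter fun i => S i).length := by
    rw [List.ofFn_eq_map, List.filter_map, List.length_map]
    rfl
  rw [h2]
  have h3 := List.toFinset_card_of_nodup ((List.nodup_finRange n).filter fun i => S i)
  rw [← h3]
  congr 1
  ext i
  simp

theorem pad_take (S : Cu n) (k : ℕ) (hk : k ≤ n) : (pad ((List.ofFn S).take k) : Cu n) =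
    cut k S := by
  exact ((cut_eq_pad S k hk _ (by simp; omega)).2 rfl).symm

theorem tst_good {l cap Z : ℕ} (hG : Good D T g τ f P v) (hP : Par M D g Z l cap τ) :
    TS n T D Z l f (tst' g M D Z l cap (stL f fun j => (P j).1) (st2F f P) v) := by
  have hD0 : (0 : ℝ) < D := by exact_mod_cast hP.hD
  have hg0 : (0 : ℝ) < g := by exact_mod_cast hP.hg
  have hM0 : (0 : ℝ) < M := by exact_mod_cast hP.hM
  have hZ0 : (0 : ℝ) < Z := by exact_mod_cast hP.hZ
  -- the main comparison
  have key : ∀ H : List (Bool × List Bool), H.length ≤ T → ∀ α : List Bool, α.length ≤ n →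
      cntT α ≤ l → (pad α : Cu n) ≠ zv →
      |(Z : ℝ) * (WW' g M D cap (stL f fun j => (P j).1) (st2F f P) v H α : ℝ) -
        (20 * g * M * D ^ 2 * (t3 α : ℝ)) * (Z * en (rC f D (toC n T H)) (pad α))| ≤
        20 * g * M * D ^ 2 * (t3 α : ℝ) := by
    intro H hH α hα hc hz
    have hcap : 4 ^ cntT α ≤ cap := (Nat.pow_le_pow_right (by norm_num) hc).trans hP.hcap
    have h1 := WW_close hG hP.hτ hP.hD hP.hg H hH α hα hcap hz
    have h2 : (17 : ℝ) ^ cntT α * (140 * τ + 7296 / g) ≤ 20 / Z := by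
      refine le_trans (mul_le_mul_of_nonneg_right (pow_le_pow_right₀ (by norm_num) hc) ?_) hP.hacc
      have := hP.hτ
      positivity
    have h3 : (1 : ℝ) ≤ t3 α := by
      rw [t3_eq]
      push_cast
      exact one_le_pow₀ (by norm_num)
    have h4 : (g : ℝ) * M * D ^ 2 * (17 ^ cntT α * (140 * τ + 7296 / g)) ≤
        g * M * D ^ 2 * (20 / Z) := mul_le_mul_of_nonneg_left h2 (by positivity)
    have h5 := mul_le_mul_of_nonneg_left (h1.trans h4) hZ0.le
    rw [← abs_of_pos hZ0, ← abs_mul, abs_of_pos hZ0] at h5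
    have h6 : (Z : ℝ) * (g * M * D ^ 2 * (20 / Z)) = 20 * g * M * D ^ 2 * 1 := by
      field_simp
    rw [h6] at h5
    have h7 : (20 : ℝ) * g * M * D ^ 2 * 1 ≤ 20 * g * M * D ^ 2 * t3 α :=
      mul_le_mul_of_nonneg_left h3 (by positivity)
    refine le_trans (le_of_eq ?_) (h5.trans h7)
    congr 1
    ring
  -- the meaning of the test
  have hiff : ∀ (H : List (Bool × List Bool)) (α : List Bool),
      (!decide ((Z : ℤ) * WW' g M D cap (stL f fun j => (P j).1) (st2F f P) v H α <
        (40 * g * M * D * D : ℕ) * t3 α)) = true ↔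
      2 * (20 * g * M * D ^ 2 * (t3 α : ℝ)) ≤
        (Z : ℝ) * (WW' g M D cap (stL f fun j => (P j).1) (st2F f P) v H α : ℝ) := by
    intro H α
    rw [Bool.not_eq_true', decide_eq_false_iff_not, not_lt]
    have e : 2 * (20 * g * M * D ^ 2 * (t3 α : ℝ)) =
        (((40 * g * M * D * D : ℕ) * t3 α : ℤ) : ℝ) := by
      push_cast
      ring
    rw [e]
    constructor
    · intro h
      exact_mod_cast h
    · intro h
      exact_mod_cast h
  constructor
  · intro H hH k hk α hα ht hz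
    unfold tst' at ht
    have hc0 : ¬ cntT α = 0 := fun h => hz (cntT_zero α h)
    rw [decide_eq_false hc0, Bool.false_or, Bool.and_eq_true, decide_eq_true_iff] at ht
    obtain ⟨ht1, ht2⟩ := ht
    rw [hiff] at ht2
    have h1 := key H hH α (by omega) ht1 hz
    have h3 := t3_pos α
    have hK : (0 : ℝ) < 20 * g * M * D ^ 2 * t3 α := by positivity
    rw [abs_le] at h1
    rw [div_le_iff₀ hZ0]
    have h4 : (20 * g * M * D ^ 2 * (t3 α : ℝ)) * 1 ≤ (20 * g * M * D ^ 2 * t3 α) *
        (Z * en (rC f D (toC n T H)) (pad α)) := by linarith [h1.2]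
    have h5 := le_of_mul_le_mul_left h4 hK
    linarith
  · intro H hH k hk S hS1 hS
    have hlen : ((List.ofFn S).take (k + 1)).length ≤ n := by
      rw [List.length_take, List.length_ofFn]
      omega
    have hc : cntT ((List.ofFn S).take (k + 1)) ≤ l := (cntT_take_le S (k + 1)).trans hS1
    unfold tst'
    by_cases hc0 : cntT ((List.ofFn S).take (k + 1)) = 0
    · rw [decide_eq_true hc0, Bool.true_or]
    · rw [decide_eq_false hc0, Bool.false_or, Bool.and_eq_true, decide_eq_true_iff]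
      refine ⟨hc, ?_⟩
      rw [hiff]
      have hz : (pad ((List.ofFn S).take (k + 1)) : Cu n) ≠ zv := by
        intro h
        apply hc0
        unfold cntT
        rw [List.length_eq_zero_iff, List.filter_eq_nil_iff]
        intro b hb
        obtain ⟨i, hi, rfl⟩ := List.getElem_of_mem hb
        have h6 := congrFun h ⟨i, by omega⟩
        simp only [pad, zv] at h6
        rw [List.getD_eq_getElem _ _ hi] at h6
        rw [h6]
        simp
      have h1 := key H hH _ hlen hc hz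
      have h3 := t3_pos ((List.ofFn S).take (k + 1))
      have hK : (0 : ℝ) < 20 * g * M * D ^ 2 * t3 ((List.ofFn S).take (k + 1)) := by positivity
      have h4 : 3 ≤ (Z : ℝ) * en (rC f D (toC n T H)) (pad ((List.ofFn S).take (k + 1))) := by
        rw [pad_take S (k + 1) hk]
        have h5 := le_en (rC f D (toC n T H)) (k + 1) S
        have h6 : (2 / (D : ℝ)) ^ 2 ≤ fc (rC f D (toC n T H)) S ^ 2 := by
          rw [← sq_abs (fc (rC f D (toC n T H)) S)]
          exact pow_le_pow_left₀ (by positivity) hS 2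
        have h7 : 1 / (2 * (D : ℝ)) ≤ (1 / 2) ^ wt S := by
          have h8 : (1 / 2 : ℝ) ^ l ≤ (1 / 2) ^ wt S :=
            pow_le_pow_of_le_one (by norm_num) (by norm_num) hS1
          refine le_trans ?_ h8
          rw [div_pow, one_pow]
          refine div_le_div_of_nonneg_left (by norm_num) (by positivity) ?_
          exact_mod_cast hP.hl
        have h8 : (2 / (D : ℝ)) ^ 2 * (1 / (2 * (D : ℝ))) ≤
            en (rC f D (toC n T H)) (cut (k + 1) S) :=
          (mul_le_mul h6 h7 (by positivity) (sq_nonneg _)).trans h5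
        have h9 : 3 * ((D : ℝ) * D * D) ≤ 2 * Z := by exact_mod_cast hP.hZ2
        have h10 : (2 / (D : ℝ)) ^ 2 * (1 / (2 * (D : ℝ))) = 2 / (D * D * D) := by
          field_simp
        rw [h10] at h8
        have h11 : 3 ≤ (Z : ℝ) * (2 / (D * D * D)) := by
          rw [mul_div_assoc', le_div_iff₀ (by positivity)]
          linarith
        exact h11.trans (mul_le_mul_of_nonneg_left h8 hZ0.le)
      rw [abs_le] at h1
      have h12 := mul_le_mul_of_nonneg_left h4 hK.le
      linarith [h1.1]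

end

end Pool.Agent.L0h78.NK
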