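import Pool.Agent.L0h78.DE.Defs

/-!
# Learning (monotone) DNF formulas and estimating noise sensitivity: definitions
-/

namespace Pool.Agent.L0h78.NK

open Pool.Agent.NPC Pool.Agent.H424R2.PPAD Finset
open Pool.Agent.Helper91K9.DL (dnfVal termVal examples)
open Pool.Agent.L0h78.DE (Prob IsDnf fn Input Sample input)

/-- The formula `F` has no negated variables. -/
def Mono (F : List (List (ℕ × Bool))) : Prop := ∀ t ∈ F, ∀ l ∈ t, l.2 = true

/-- `F` is a DNF formula with at most `s` terms in the variables `0, …, n - 1`; if `m` is true it
must be monotone. -/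
def Cls (m : Bool) (n s : ℕ) (F : List (List (ℕ × Bool))) : Prop :=
  IsDnf n s F ∧ (m = true → Mono F)

/-- DNF formulas (monotone ones, if `m` is true) are learnable in polynomial time from uniform
random examples: there are a type `H` of (codes of) hypotheses, a polynomial time algorithm `A`
that outputs hypotheses, and a polynomial time algorithm `V` that evaluates them, such that for
every such formula `F` with at most `s` terms in `n` variables, given `(n + s + a + b) ^ e` examples
of `F` and as many random bits, `A` finds with probability at least `1 - 1/b` a hypothesis that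
differs from `F` with probability at most `1/a`. -/
def Learnable (m : Bool) : Prop :=
  ∃ (H : Type) (_ : TEnc H) (A : Input → H) (V : H × List Bool → Bool), PTime A ∧ PTime V ∧
    ∃ e : ℕ, ∀ (n s a b : ℕ) (F : List (List (ℕ × Bool))), 1 ≤ a → 1 ≤ b → Cls m n s F →
      1 - 1 / (b : ℝ) ≤ Prob fun ω : Sample n ((n + s + a + b) ^ e) =>
        Prob (fun x : Fin n → Bool =>
          V (A (input n s a b F ω), List.ofFn x) ≠ fn n F x) ≤ 1 / (a : ℝ)

/-- The number `Ψ` attached to Boolean functions can be estimated for DNF formulas (monotone ones,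
if `m` is true), in polynomial time from uniform random examples, with precision `1/g` and
confidence `1 - 1/b`. -/
def Estimable (m : Bool) (Ψ : (n : ℕ) → ((Fin n → Bool) → Bool) → ℝ) : Prop :=
  ∃ E : Input → ℕ, PTime E ∧
    ∃ e : ℕ, ∀ (n s g b : ℕ) (F : List (List (ℕ × Bool))), 1 ≤ g → 1 ≤ b → Cls m n s F →
      1 - 1 / (b : ℝ) ≤ Prob fun ω : Sample n ((n + s + g + b) ^ e) =>
        |(E (input n s g b F ω) : ℝ) / g - Ψ n (fn n F)| ≤ 1 / (g : ℝ)

/-- The noise sensitivity of `f`: the probability that the value of `f` changes if at a uniform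
point every bit is, with probability `1/2`, replaced by a new random bit. -/
noncomputable def noiseSensitivity (n : ℕ) (f : (Fin n → Bool) → Bool) : ℝ :=
  Prob fun p : (Fin n → Bool) × (Fin n → Bool) × (Fin n → Bool) =>
    f (fun i => if p.2.1 i then p.2.2 i else p.1 i) ≠ f p.1

/-- The variation of `f` on the set `a` of variables: the probability that the value of `f` changes
if at a uniform point the bits in `a` are replaced by new random bits. -/
noncomputable def variation {n : ℕ} (f : (Fin n → Bool) → Bool) (a : Fin n → Bool) : ℝ :=
  Prob fun p : (Fin n → Bool) × (Fin n → Bool) =>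
    f (fun i => if a i then p.2 i else p.1 i) ≠ f p.1

/-- As `Estimable`, for `variation f a`; the set `a` (as a bit vector) is given to the
algorithm. -/
def EstimableVariation (m : Bool) : Prop :=
  ∃ E : List Bool × Input → ℕ, PTime E ∧
    ∃ e : ℕ, ∀ (n s g b : ℕ) (F : List (List (ℕ × Bool))) (a : Fin n → Bool), 1 ≤ g → 1 ≤ b →
      Cls m n s F →
      1 - 1 / (b : ℝ) ≤ Prob fun ω : Sample n ((n + s + g + b) ^ e) =>
        |(E (List.ofFn a, input n s g b F ω) : ℝ) / g - variation (fn n F) a| ≤ 1 / (g : ℝ)

end Pool.Agent.L0h78.NK
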