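import Pool.Agent.L0h78.NK.Back
import Pool.Agent.L0h78.DE.Fwd

/-!
# Learning suffices for estimating the noise sensitivity
-/

namespace Pool.Agent.L0h78.NK

open Pool.Agent.L0h78.DE Finset
open Pool.Agent.NPC Pool.Agent.NPC.H532 Pool.Agent.H424R2.PPAD
open Pool.Agent.Helper91K9.DL (dnfVal termVal examples nvars)

variable {n : ℕ}

/-- The number of changes. -/
def cntV (h : List Bool → Bool) (st : List ((List Bool × Bool) × List Bool)) : ℕ :=
  (st.map fun e => if xor (h e.2) (h e.1.1) then 1 else 0).sum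

/-- The sample size. -/
@[irreducible] def ms (g b : ℕ) : ℕ := 2048 * (g * g) * b

@[fun_prop] theorem ms_poly {α : Type} [TEnc α] {g b : α → ℕ}
    (hg : NPC.Poly g) (hb : NPC.Poly b) : NPC.Poly fun x => ms (g x) (b x) := by
  unfold ms
  fun_prop

/-- The estimator. -/
def estim {H : Type} (A : Input → H) (V : H × List Bool → Bool) (e : ℕ) (I : Input) : ℕ :=
  let n := I.1.1
  let s := I.1.2.1
  let g := I.1.2.2.1
  let b := I.1.2.2.2
  let t := (n + s + 8 * g + 2 * b) ^ e
  let h := A ((n, s, 8 * g, 2 * b), I.2.1.take t, I.2.2.take t)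
  (2 * g * cntV (fun x => V (h, x)) (st2L n (ms g b) (I.2.1.drop t) (I.2.2.drop t)) + ms g b) /
    (2 * ms g b)

theorem estim_poly {H : Type} [TEnc H] {A : Input → H} {V : H × List Bool → Bool}
    (hA : NPC.Poly A) (hV : NPC.Poly V) (e : ℕ) : NPC.Poly (estim A V e) := by
  have hms : NPC.Poly fun I : Input => ms I.1.2.2.1 I.1.2.2.2 := by
    fun_prop
  have ht : NPC.Poly fun I : Input => (I.1.1 + I.1.2.1 + 8 * I.1.2.2.1 +
      2 * I.1.2.2.2) ^ e := pow_poly e (by fun_prop)
  have h1 := Pool.Agent.H424R2.SG.PolyA.poly_take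
    (by fun_prop : NPC.Poly fun I : Input => I.2.1) ht
  have h2 := Pool.Agent.H424R2.SG.PolyA.poly_take
    (by fun_prop : NPC.Poly fun I : Input => I.2.2) ht
  have h3 := Pool.Agent.H424R2.SG.PolyA.poly_drop
    (by fun_prop : NPC.Poly fun I : Input => I.2.1) ht
  have h3' := Pool.Agent.H424R2.SG.PolyA.poly_drop
    (by fun_prop : NPC.Poly fun I : Input => I.2.2) ht
  have hn : NPC.Poly fun I : Input => I.1.1 := by fun_prop
  have hst := st2L_poly hn hms h3 h3'
  have h4 : NPC.Poly fun I : Input => A ((I.1.1, I.1.2.1, 8 * I.1.2.2.1,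
      2 * I.1.2.2.2), I.2.1.take ((I.1.1 + I.1.2.1 + 8 * I.1.2.2.1 +
      2 * I.1.2.2.2) ^ e), I.2.2.take ((I.1.1 + I.1.2.1 + 8 * I.1.2.2.1 +
      2 * I.1.2.2.2) ^ e)) := hA.comp (by fun_prop)
  have h5 : NPC.Poly fun p : Input × H => cntV (fun x => V (p.2, x))
      (st2L p.1.1.1 (ms p.1.1.2.2.1 p.1.1.2.2.2) (p.1.2.1.drop ((p.1.1.1 + p.1.1.2.1 +
        8 * p.1.1.2.2.1 + 2 * p.1.1.2.2.2) ^ e)) (p.1.2.2.drop ((p.1.1.1 + p.1.1.2.1 +
        8 * p.1.1.2.2.1 + 2 * p.1.1.2.2.2) ^ e))) := by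
    unfold cntV
    have h6 := hst.comp (NPC.Poly.fst NPC.Poly.id : NPC.Poly fun p : Input × H => p.1)
    fun_prop
  have h6 := h5.comp (NPC.Poly.pair NPC.Poly.id h4)
  have hg : NPC.Poly fun I : Input => I.1.2.2.1 := by fun_prop
  exact NPC.Poly.div (NPC.Poly.add (NPC.Poly.mul (NPC.Poly.mul (NPC.Poly.const 2) hg) h6) hms)
    (NPC.Poly.mul (NPC.Poly.const 2) hms)

theorem ns_close (f h : Cu n → Bool) :
    |noiseSensitivity n h - noiseSensitivity n f| ≤ 2 * Prob (fun x => h x ≠ f x) := by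
  have r1 : noiseSensitivity n h = Prob (fun p : Tr n => h (yy p) ≠ h p.1) := rfl
  have r2 : noiseSensitivity n f = Prob (fun p : Tr n => f (yy p) ≠ f p.1) := rfl
  rw [r1, r2]
  have e1 : Prob (fun p : Tr n => h (yy p) ≠ f (yy p)) = Prob (fun x => h x ≠ f x) := by
    rw [prob_eq, prob_eq]
    exact Ex_yy fun x => ind (h x ≠ f x)
  have e2 : Prob (fun p : Tr n => h p.1 ≠ f p.1) = Prob (fun x => h x ≠ f x) := by
    rw [prob_eq, prob_eq]
    exact Ex_fst fun x => ind (h x ≠ f x)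
  have k1 : Prob (fun p : Tr n => h (yy p) ≠ h p.1) ≤ Prob (fun p : Tr n => f (yy p) ≠ f p.1) +
      (Prob (fun p : Tr n => h p.1 ≠ f p.1) + Prob (fun p : Tr n => h (yy p) ≠ f (yy p))) := by
    refine (prob_mono fun p hp => ?_).trans ((prob_or_le (fun p : Tr n => f (yy p) ≠ f p.1)
      (fun p : Tr n => h p.1 ≠ f p.1 ∨ h (yy p) ≠ f (yy p))).trans
        (add_le_add le_rfl (prob_or_le _ _)))
    by_contra hcon
    simp only [not_or, not_not] at hcon
    obtain ⟨c1, c2, c3⟩ := hcon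
    exact hp (by rw [c3, c1, c2])
  have k2 : Prob (fun p : Tr n => f (yy p) ≠ f p.1) ≤ Prob (fun p : Tr n => h (yy p) ≠ h p.1) +
      (Prob (fun p : Tr n => h p.1 ≠ f p.1) + Prob (fun p : Tr n => h (yy p) ≠ f (yy p))) := by
    refine (prob_mono fun p hp => ?_).trans ((prob_or_le (fun p : Tr n => h (yy p) ≠ h p.1)
      (fun p : Tr n => h p.1 ≠ f p.1 ∨ h (yy p) ≠ f (yy p))).trans
        (add_le_add le_rfl (prob_or_le _ _)))
    by_contra hcon
    simp only [not_or, not_not] at hcon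
    obtain ⟨c1, c2, c3⟩ := hcon
    exact hp (by rw [← c3, c1, c2])
  rw [e1, e2] at k1 k2
  rw [abs_le]
  constructor <;> linarith

theorem cntV_eq {M : ℕ} (h : List Bool → Bool) (f : Cu n → Bool) (P : Fin M → Tr n) :
    (cntV h (st2F f P) : ℝ) = ∑ j, ind ((fun x : Cu n => h (List.ofFn x)) (yy (P j)) ≠
      (fun x : Cu n => h (List.ofFn x)) (P j).1) := by
  unfold cntV st2F
  rw [List.map_ofFn, List.sum_ofFn]
  push_cast
  refine sum_congr rfl fun j _ => ?_
  simp only [Function.comp]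
  by_cases h3 : h (List.ofFn (yy (P j))) = h (List.ofFn (P j).1)
  · rw [ind_of_not (by simpa using h3), h3]
    simp
  · rw [ind_of h3]
    have : xor (h (List.ofFn (yy (P j)))) (h (List.ofFn (P j).1)) = true := by
      revert h3
      cases h (List.ofFn (yy (P j))) <;> cases h (List.ofFn (P j).1) <;> simp
    rw [this]
    simp

theorem size_fwd {n s g b : ℕ} (hg : 1 ≤ g) (hb : 1 ≤ b) (e : ℕ) :
    (n + s + 8 * g + 2 * b) ^ e + (ms g b + 2 * (ms g b * n)) ≤
      (n + s + g + b) ^ (4 * e + 18) := by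
  have hy : 2 ≤ n + s + g + b := by omega
  have hgy : g ≤ n + s + g + b := by omega
  have hby : b ≤ n + s + g + b := by omega
  have hny : n ≤ n + s + g + b := by omega
  have h0 : n + s + 8 * g + 2 * b ≤ 8 * (n + s + g + b) := by omega
  generalize hyd : n + s + g + b = y at *
  generalize n + s + 8 * g + 2 * b = u at *
  have h8 : 8 ≤ y ^ 3 := by
    calc 8 = 2 ^ 3 := by norm_num
      _ ≤ y ^ 3 := Nat.pow_le_pow_left hy 3
  have h1 : u ^ e ≤ y ^ (4 * e + 16) := by
    have h2 : u ≤ y ^ 4 := by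
      calc u ≤ 8 * y := h0
        _ ≤ y ^ 3 * y := Nat.mul_le_mul_right _ h8
        _ = y ^ 4 := by ring
    calc u ^ e ≤ (y ^ 4) ^ e := Nat.pow_le_pow_left h2 e
      _ = y ^ (4 * e) := (pow_mul y 4 e).symm
      _ ≤ y ^ (4 * e + 16) := Nat.pow_le_pow_right (by omega) (by omega)
  have h2 : ms g b ≤ y ^ 14 := by
    unfold ms
    have h3 : 2048 ≤ y ^ 11 := k_le hy
    calc 2048 * (g * g) * b ≤ y ^ 11 * (y * y) * y :=
          Nat.mul_le_mul (Nat.mul_le_mul h3 (Nat.mul_le_mul hgy hgy)) hby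
      _ = y ^ 14 := by ring
  have h3 : ms g b ≤ y ^ (4 * e + 16) := h2.trans (Nat.pow_le_pow_right (by omega) (by omega))
  have h4 : 2 * (ms g b * n) ≤ y ^ (4 * e + 16) := by
    calc 2 * (ms g b * n) ≤ y * (y ^ 14 * y) :=
          Nat.mul_le_mul hy (Nat.mul_le_mul h2 hny)
      _ = y ^ 16 := by ring
      _ ≤ y ^ (4 * e + 16) := Nat.pow_le_pow_right (by omega) (by omega)
  have h5 : y ^ (4 * e + 18) = y * y * y ^ (4 * e + 16) := by
    rw [show 4 * e + 18 = (4 * e + 16) + 2 by omega, pow_add]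
    ring
  have h6 : 4 * y ^ (4 * e + 16) ≤ y * y * y ^ (4 * e + 16) :=
    Nat.mul_le_mul_right _ (by nlinarith)
  omega

/-- Two independent samples. -/
def spE (n t N : ℕ) : ((Fin t → Cu n) × (Fin N → Cu n)) × ((Fin t → Bool) × (Fin N → Bool)) ≃
    Sample n t × Sample n N where
  toFun p := ((p.1.1, p.2.1), (p.1.2, p.2.2))
  invFun p := ((p.1.1, p.2.1), (p.1.2, p.2.2))
  left_inv _ := rfl
  right_inv _ := rfl

theorem mp_split {t N NN : ℕ} (h : t + N ≤ NN) : DE.MP fun ω : Sample n NN =>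
    (((fun j => ω.1 (blk 0 t (by omega) j), fun j => ω.2 (blk 0 t (by omega) j)),
      (fun j => ω.1 (blk t N h j), fun j => ω.2 (blk t N h j))) : Sample n t × Sample n N) := by
  have hd : ∀ (a : Fin t) (a' : Fin N), blk (NN := NN) 0 t (by omega) a ≠ blk t N h a' := by
    intro a a' haa
    have h4 := congrArg Fin.val haa
    simp only [blk] at h4
    have := a.2
    omega
  have e1 := MP.blocks (C := Cu n) (blk (NN := NN) 0 t (by omega)) (blk t N h)
    (blk_inj _ _ _) (blk_inj _ _ _) hd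
  have e2 := MP.blocks (C := Bool) (blk (NN := NN) 0 t (by omega)) (blk t N h)
    (blk_inj _ _ _) (blk_inj _ _ _) hd
  exact (e1.prod e2).comp (MP.equiv (spE n t N))

theorem ofFn_drop {C : Type} {t N NN : ℕ} (w : Fin NN → C) (h : t + N = NN) :
    (List.ofFn w).drop t = List.ofFn fun j => w (blk t N (by omega) j) := by
  refine List.ext_getElem (by simp; omega) fun i h1 h2 => ?_
  simp [blk]

theorem est_prob {m : Bool} {H : Type} {A : Input → H} {V : H × List Bool → Bool} {e : ℕ}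
    (hA : ∀ (n s a b : ℕ) (F : List (List (ℕ × Bool))), 1 ≤ a → 1 ≤ b → Cls m n s F →
      1 - 1 / (b : ℝ) ≤ Prob fun ω : Sample n ((n + s + a + b) ^ e) =>
        Prob (fun x : Fin n → Bool =>
          V (A (input n s a b F ω), List.ofFn x) ≠ fn n F x) ≤ 1 / (a : ℝ))
    {s g b : ℕ} {F : List (List (ℕ × Bool))}
    (hg : 1 ≤ g) (hb : 1 ≤ b) (hF : Cls m n s F) {NN t N M : ℕ}
    (ht : t = (n + s + 8 * g + 2 * b) ^ e) (hM : M = ms g b)
    (hNN : t + N = NN) (hM1 : M ≤ N) (hS : 2 * (M * n) ≤ N) :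
    1 - 1 / (b : ℝ) ≤ Prob fun ω : Sample n NN =>
      |(estim A V e (input n s g b F ω) : ℝ) / g - noiseSensitivity n (fn n F)| ≤ 1 / (g : ℝ) := by
  have hg0 : (0 : ℝ) < g := by exact_mod_cast hg
  have hb0 : (0 : ℝ) < b := by exact_mod_cast hb
  have hM0 : 1 ≤ M := by
    rw [hM]
    unfold ms
    have : 0 < 2048 * (g * g) * b := by positivity
    omega
  have p1 := hA n s (8 * g) (2 * b) F (by omega) (by omega) hF
  rw [← ht] at p1
  have p1' := prob_not_le_of p1
  have e3 := mp_split (n := n) (t := t) (N := N) (NN := NN) (by omega)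
  have e4 := e3.comp (MP.fst (Ω := Sample n t) (Ω' := Sample n N))
  have q1 := e4.prob (fun ω : Sample n t => ¬ Prob (fun x : Fin n → Bool =>
    V (A (input n s (8 * g) (2 * b) F ω), List.ofFn x) ≠ fn n F x) ≤ 1 / ((8 * g : ℕ) : ℝ))
  rw [← q1] at p1'
  have q2 := e3.prob (fun p : Sample n t × Sample n N =>
    M * (1 / (4 * (g : ℝ))) < |∑ j, ind ((fun x : Cu n => V (A (input n s (8 * g) (2 * b) F p.1),
      List.ofFn x)) (yy (pFn hM1 hS p.2 j)) ≠ (fun x : Cu n => V (A (input n s (8 * g) (2 * b) F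
        p.1), List.ofFn x)) (pFn hM1 hS p.2 j).1) - M * noiseSensitivity n (fun x : Cu n =>
          V (A (input n s (8 * g) (2 * b) F p.1), List.ofFn x))|)
  have p2 : Prob (fun p : Sample n t × Sample n N =>
    M * (1 / (4 * (g : ℝ))) < |∑ j, ind ((fun x : Cu n => V (A (input n s (8 * g) (2 * b) F p.1),
      List.ofFn x)) (yy (pFn hM1 hS p.2 j)) ≠ (fun x : Cu n => V (A (input n s (8 * g) (2 * b) F
        p.1), List.ofFn x)) (pFn hM1 hS p.2 j).1) - M * noiseSensitivity n (fun x : Cu n =>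
          V (A (input n s (8 * g) (2 * b) F p.1), List.ofFn x))|) ≤ 1 / (8 * (b : ℝ)) := by
    refine prob_prod_le (P := fun (u : Sample n t) (w : Sample n N) =>
      M * (1 / (4 * (g : ℝ))) < |∑ j, ind ((fun x : Cu n => V (A (input n s (8 * g) (2 * b) F u),
      List.ofFn x)) (yy (pFn hM1 hS w j)) ≠ (fun x : Cu n => V (A (input n s (8 * g) (2 * b) F
        u), List.ofFn x)) (pFn hM1 hS w j).1) - M * noiseSensitivity n (fun x : Cu n =>
          V (A (input n s (8 * g) (2 * b) F u), List.ofFn x))|) fun u => ?_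
    generalize hh : (fun x : Cu n => V (A (input n s (8 * g) (2 * b) F u), List.ofFn x)) = h
    have r1 := (mp_pFn hM1 hS (n := n)).prob (fun P : Fin M → Tr n =>
      M * (1 / (4 * (g : ℝ))) < |∑ j, ind (h (yy (P j)) ≠ h (P j).1) -
        M * noiseSensitivity n h|)
    refine le_trans (le_of_eq r1) ?_
    have h1 := unif_dev (ι := Unit) (Ω := Tr n) M 0 b
      (fun _ p => ind (h (yy p) ≠ h p.1)) 1 (1 / (4 * (g : ℝ))) (by positivity) (fun _ x => by
        rw [abs_of_nonneg (ind_nonneg _)]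
        exact ind_le_one _) (by positivity) hb (by simp) (by
        rw [hM]
        unfold ms
        push_cast
        rw [div_pow, one_pow, mul_one_div, le_div_iff₀ (by positivity)]
        have : (0 : ℝ) ≤ (g : ℝ) ^ 2 * b := by positivity
        nlinarith)
    refine (prob_mono fun X hX => ?_).trans h1
    refine ⟨(), ?_⟩
    have h2 : Ex (fun p : Tr n => ind (h (yy p) ≠ h p.1)) = noiseSensitivity n h :=
      (prob_eq fun p : Tr n => h (yy p) ≠ h p.1).symm
    rw [h2]
    exact hX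
  rw [← q2] at p2
  refine le_prob_of ?_
  have h6 := prob_or_le (fun ω : Sample n NN => ¬ Prob (fun x : Fin n → Bool =>
    V (A (input n s (8 * g) (2 * b) F ((fun j => ω.1 (blk 0 t (by omega) j)),
      fun j => ω.2 (blk 0 t (by omega) j))), List.ofFn x) ≠ fn n F x) ≤ 1 / ((8 * g : ℕ) : ℝ))
    (fun ω : Sample n NN => M * (1 / (4 * (g : ℝ))) <
      |∑ j, ind ((fun x : Cu n => V (A (input n s (8 * g) (2 * b) F
      ((fun j => ω.1 (blk 0 t (by omega) j)), fun j => ω.2 (blk 0 t (by omega) j))),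
      List.ofFn x)) (yy (pFn hM1 hS ((fun j => ω.1 (blk t N (by omega) j)),
        fun j => ω.2 (blk t N (by omega) j)) j)) ≠ (fun x : Cu n => V (A (input n s (8 * g)
        (2 * b) F ((fun j => ω.1 (blk 0 t (by omega) j)), fun j => ω.2 (blk 0 t (by omega) j))),
        List.ofFn x)) (pFn hM1 hS ((fun j => ω.1 (blk t N (by omega) j)),
        fun j => ω.2 (blk t N (by omega) j)) j).1) - M * noiseSensitivity n (fun x : Cu n =>
          V (A (input n s (8 * g) (2 * b) F ((fun j => ω.1 (blk 0 t (by omega) j)),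
            fun j => ω.2 (blk 0 t (by omega) j))), List.ofFn x))|)
  have h7 : 1 / ((2 * b : ℕ) : ℝ) + 1 / (8 * (b : ℝ)) ≤ 1 / (b : ℝ) := by
    push_cast
    have h8 : 1 / (2 * (b : ℝ)) = 1 / 2 * (1 / b) := by rw [one_div_mul_one_div]
    have h9 : 1 / (8 * (b : ℝ)) = 1 / 8 * (1 / b) := by rw [one_div_mul_one_div]
    have h10 : (0 : ℝ) < 1 / b := by positivity
    rw [h8, h9]
    linarith
  refine le_trans (prob_mono fun ω hω => ?_) (h6.trans ((add_le_add p1' p2).trans h7))
  by_contra hcon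
  rw [not_or, not_not, not_lt] at hcon
  refine hω ?_
  obtain ⟨c1, c2⟩ := hcon
  set X1 : Fin t → Cu n := fun j => ω.1 (blk 0 t (by omega) j) with hX1
  set Z1 : Fin t → Bool := fun j => ω.2 (blk 0 t (by omega) j) with hZ1
  set X2 : Fin N → Cu n := fun j => ω.1 (blk t N (by omega) j) with hX2
  set Z2 : Fin N → Bool := fun j => ω.2 (blk t N (by omega) j) with hZ2
  set hh : List Bool → Bool := fun x => V (A (input n s (8 * g) (2 * b) F (X1, Z1)), x) with hhh
  have h1 : (examples F ω.1).take t = examples F X1 := by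
    have h := ofFn_drop_take (fun j => (List.ofFn (ω.1 j), dnfVal F (List.ofFn (ω.1 j)))) 0 t
      (by omega)
    rw [List.drop_zero] at h
    exact h
  have h2 : (List.ofFn ω.2).take t = List.ofFn Z1 := by
    have h := ofFn_drop_take ω.2 0 t (by omega)
    rw [List.drop_zero] at h
    exact h
  have h3 : (examples F ω.1).drop t = examples F X2 :=
    ofFn_drop (fun j => (List.ofFn (ω.1 j), dnfVal F (List.ofFn (ω.1 j)))) hNN
  have h3' : (List.ofFn ω.2).drop t = List.ofFn Z2 := ofFn_drop ω.2 hNN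
  have h4 : estim A V e (input n s g b F ω) =
      (2 * g * cntV hh (st2F (fn n F) (pFn hM1 hS (X2, Z2))) + M) / (2 * M) := by
    unfold estim
    simp only [input, ← ht, ← hM, h1, h2, h3, h3']
    rw [st2L_eq F hM1 hS (X2, Z2)]
    rfl
  rw [h4]
  have h5 := cntV_eq hh (fn n F) (pFn hM1 hS (X2, Z2))
  refine acc_est (n := 0) (x := noiseSensitivity n fun x : Cu n => hh (List.ofFn x))
    (r := Prob (fun x : Cu n => hh (List.ofFn x) ≠ fn n F x)) hg hM0 ?_ ?_ ?_
  · rw [h5]
    exact c2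
  · have h8 := ns_close (fn n F) (fun x : Cu n => hh (List.ofFn x))
    push_cast
    linarith
  · have e9 : 8 * g * (0 + 1) = 8 * g := by ring
    rw [e9]
    exact c1

theorem noise_of_learn {m : Bool} (h : Learnable m) : Estimable m noiseSensitivity := by
  obtain ⟨H, hH, A, V, hA, hV, e, hspec⟩ := h
  refine ⟨estim A V e, PTime.of_poly (estim_poly hA.toPoly hV.toPoly e), 4 * e + 18, ?_⟩
  intro n s g b F hg hb hF
  have hsz := size_fwd (n := n) (s := s) hg hb e
  generalize (n + s + g + b) ^ (4 * e + 18) = NN at *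
  exact est_prob hspec hg hb hF (t := (n + s + 8 * g + 2 * b) ^ e)
    (N := NN - (n + s + 8 * g + 2 * b) ^ e) rfl rfl (by omega) (by omega) (by omega)

/-- The equivalence. -/
theorem main (m : Bool) : Learnable m ↔ Estimable m noiseSensitivity :=
  ⟨noise_of_learn, learn_of_noise⟩

end Pool.Agent.L0h78.NK
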