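import Pool.Agent.L0h78.NK.Close

/-!
# The gadget: noise sensitivities determine bilinear correlations
-/

namespace Pool.Agent.L0h78.NK

open Pool.Agent.L0h78.DE Finset
open Pool.Agent.Helper91K9.DL (dnfVal termVal examples)

variable {n : ℕ}

/-- Two more coordinates. -/
def ap (x : Cu n) (z z' : Bool) : Cu (n + 2) :=
  fun i => if h : (i : ℕ) < n then x ⟨i, h⟩ else if (i : ℕ) = n then z else z'

/-- The first coordinates. -/
def rs (u : Cu (n + 2)) : Cu n := fun i => u ⟨i, by omega⟩

theorem rs_ap (x : Cu n) (z z' : Bool) : rs (ap x z z') = x := by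
  funext i
  simp [rs, ap]

theorem ap_l (x : Cu n) (z z' : Bool) : ap x z z' ⟨n, by omega⟩ = z := by
  simp [ap]

theorem ap_r (x : Cu n) (z z' : Bool) : ap x z z' ⟨n + 1, by omega⟩ = z' := by
  simp [ap]

theorem ap_rs (u : Cu (n + 2)) : ap (rs u) (u ⟨n, by omega⟩) (u ⟨n + 1, by omega⟩) = u := by
  funext i
  unfold ap rs
  by_cases h : (i : ℕ) < n
  · rw [dif_pos h]
  · rw [dif_neg h]
    by_cases h2 : (i : ℕ) = n
    · rw [if_pos h2]
      congr 1
      exact Fin.ext h2.symm
    · rw [if_neg h2]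
      congr 1
      exact Fin.ext (by have := i.2; simp only; omega)

theorem ap_ofFn (x : Cu n) (z z' : Bool) : List.ofFn (ap x z z') = List.ofFn x ++ [z, z'] := by
  refine List.ext_getElem (by simp) fun i h1 h2 => ?_
  rw [List.getElem_ofFn]
  have hi : i < n + 2 := by
    rw [List.length_ofFn] at h1
    exact h1
  by_cases h : i < n
  · rw [List.getElem_append_left (by simpa using h), List.getElem_ofFn]
    simp [ap, h]
  · rw [List.getElem_append_right (by simpa using h)]
    have h3 : i = n ∨ i = n + 1 := by omega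
    rcases h3 with rfl | rfl <;> simp [ap]

/-- Base points and selectors. -/
abbrev Se : Type := (Bool × Bool × Bool) × (Bool × Bool × Bool)

/-- Triples in dimension `n + 2`. -/
def coE (n : ℕ) : Tr n × Se ≃ Tr (n + 2) where
  toFun q := (ap q.1.1 q.2.1.1 q.2.2.1, ap q.1.2.1 q.2.1.2.1 q.2.2.2.1,
    ap q.1.2.2 q.2.1.2.2 q.2.2.2.2)
  invFun p := ((rs p.1, rs p.2.1, rs p.2.2),
    ((p.1 ⟨n, by omega⟩, p.2.1 ⟨n, by omega⟩, p.2.2 ⟨n, by omega⟩),
    (p.1 ⟨n + 1, by omega⟩, p.2.1 ⟨n + 1, by omega⟩, p.2.2 ⟨n + 1, by omega⟩)))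
  left_inv q := by
    simp only [rs_ap, ap_l, ap_r]
  right_inv p := by
    simp only [ap_rs]

theorem yy_coE (p : Tr n) (w : Se) : yy (coE n (p, w)) =
    ap (yy p) (if w.1.2.1 then w.1.2.2 else w.1.1) (if w.2.2.1 then w.2.2.2 else w.2.1) := by
  funext i
  change (if ap p.2.1 w.1.2.1 w.2.2.1 i then ap p.2.2 w.1.2.2 w.2.2.2 i else
    ap p.1 w.1.1 w.2.1 i) = _
  unfold ap yy
  by_cases h : (i : ℕ) < n
  · simp [h]
  · by_cases h2 : (i : ℕ) = n
    · simp [h2]
    · simp [h, h2]

/-- The label. -/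
def lb (a a' z z' : Bool) : Bool := (z && !z' && a) || (!z && z' && a') || (z && z')

/-- The number of selectors for which the labels differ. -/
def dis (a a' b b' : Bool) : ℕ := (univ.filter fun w : Se =>
  lb b b' (if w.1.2.1 then w.1.2.2 else w.1.1) (if w.2.2.1 then w.2.2.2 else w.2.1) ≠
    lb a a' w.1.1 w.2.1).card

theorem dis_eq : ∀ a a' b b' : Bool, dis a a' b b' + 18 * (a && b).toNat +
    18 * (a' && b').toNat + 2 * (a && b').toNat + 2 * (a' && b).toNat =
    14 + 10 * (a.toNat + a'.toNat + b.toNat + b'.toNat) := by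
  decide

/-- Bits as numbers. -/
noncomputable def bR (b : Bool) : ℝ := if b then 1 else 0

theorem Ex_dis (a a' b b' : Bool) : Ex (fun w : Se => ind (lb b b'
    (if w.1.2.1 then w.1.2.2 else w.1.1) (if w.2.2.1 then w.2.2.2 else w.2.1) ≠
    lb a a' w.1.1 w.2.1)) = (14 + 10 * (bR a + bR a' + bR b + bR b') - 18 * (bR a * bR b) -
    18 * (bR a' * bR b') - 2 * (bR a * bR b') - 2 * (bR a' * bR b)) / 64 := by
  rw [← prob_eq]
  unfold Prob
  have h1 : ((Fintype.card Se : ℕ) : ℝ) = 64 := by
    have : Fintype.card Se = 64 := by decide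
    rw [this]
    norm_num
  rw [h1]
  congr 1
  have h2 := dis_eq a a' b b'
  have h3 : (dis a a' b b' : ℝ) + 18 * (bR a * bR b) + 18 * (bR a' * bR b') +
      2 * (bR a * bR b') + 2 * (bR a' * bR b) = 14 + 10 * (bR a + bR a' + bR b + bR b') := by
    have h4 : ((dis a a' b b' + 18 * (a && b).toNat +
      18 * (a' && b').toNat + 2 * (a && b').toNat + 2 * (a' && b).toNat : ℕ) : ℝ) =
      ((14 + 10 * (a.toNat + a'.toNat + b.toNat + b'.toNat) : ℕ) : ℝ) := by rw [h2]
    push_cast at h4
    have h5 : ∀ c d : Bool, (((c && d).toNat : ℕ) : ℝ) = bR c * bR d := by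
      intro c d
      cases c <;> cases d <;> simp [bR]
    have h6 : ∀ c : Bool, ((c.toNat : ℕ) : ℝ) = bR c := by
      intro c
      cases c <;> simp [bR]
    rw [h5, h5, h5, h5, h6, h6, h6, h6] at h4
    exact h4
  have h7 : (dis a a' b b' : ℝ) = ((univ.filter fun w : Se =>
      lb b b' (if w.1.2.1 then w.1.2.2 else w.1.1) (if w.2.2.1 then w.2.2.2 else w.2.1) ≠
      lb a a' w.1.1 w.2.1).card : ℝ) := rfl
  have h8 : ((univ.filter fun w : Se =>
      lb b b' (if w.1.2.1 then w.1.2.2 else w.1.1) (if w.2.2.1 then w.2.2.2 else w.2.1) ≠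
      lb a a' w.1.1 w.2.1).card : ℝ) = 14 + 10 * (bR a + bR a' + bR b + bR b') -
      18 * (bR a * bR b) - 18 * (bR a' * bR b') - 2 * (bR a * bR b') - 2 * (bR a' * bR b) := by
    rw [← h7]
    linarith
  rw [← h8]
  congr!

/-! ### The correlations -/

/-- All variables of `A` are true. -/
def kb (A x : Cu n) : Bool := decide (∀ i, A i = true → x i = true)

/-- `f` on the points with `kb A x`. -/
noncomputable def fk (f : Cu n → Bool) (A x : Cu n) : ℝ := bR (f x && kb A x)

/-- The correlations. -/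
noncomputable def BB (f : Cu n → Bool) (A A' : Cu n) : ℝ :=
  Ex fun p : Tr n => fk f A p.1 * fk f A' (yy p)

theorem Phi_zv (p : Tr n) : Phi zv p = 1 := by
  unfold Phi zv
  simp

theorem BB_eq (f : Cu n → Bool) (A A' : Cu n) : BB f A A' = xw (fk f A) (fk f A') zv := by
  unfold BB xw
  refine Ex_congr fun p => ?_
  rw [Phi_zv, mul_one]

theorem BB_comm (f : Cu n → Bool) (A A' : Cu n) : BB f A A' = BB f A' A := by
  rw [BB_eq, BB_eq, xw_comm]

theorem Ex_yy (g : Cu n → ℝ) : Ex (fun p : Tr n => g (yy p)) = Ex g := by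
  have h1 : Ex (fun p : Tr n => g (yy p)) = xw (fun _ => 1) g zv := by
    unfold xw
    refine Ex_congr fun p => ?_
    rw [Phi_zv]
    ring
  rw [h1, xw_comm]
  unfold xw
  have h2 : ∀ p : Tr n, g p.1 * 1 * Phi zv p = g p.1 := by
    intro p
    rw [Phi_zv]
    ring
  rw [Ex_congr h2]
  exact MP.fst (Ω := Cu n) (Ω' := Cu n × Cu n) g

theorem Ex_fst (g : Cu n → ℝ) : Ex (fun p : Tr n => g p.1) = Ex g :=
  MP.fst (Ω := Cu n) (Ω' := Cu n × Cu n) g

/-- The gadget function. -/
def gf (f : Cu n → Bool) (A A' : Cu n) (u : Cu (n + 2)) : Bool :=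
  lb (f (rs u) && kb A (rs u)) (f (rs u) && kb A' (rs u)) (u ⟨n, by omega⟩) (u ⟨n + 1, by omega⟩)

theorem gf_ap (f : Cu n → Bool) (A A' x : Cu n) (z z' : Bool) :
    gf f A A' (ap x z z') = lb (f x && kb A x) (f x && kb A' x) z z' := by
  unfold gf
  rw [rs_ap, ap_l, ap_r]

theorem ns_gf (f : Cu n → Bool) (A A' : Cu n) :
    64 * noiseSensitivity (n + 2) (gf f A A') = 14 + 20 * (Ex (fk f A) + Ex (fk f A')) -
      18 * (BB f A A + BB f A' A') - 4 * BB f A A' := by
  have h0 : noiseSensitivity (n + 2) (gf f A A') =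
      Prob (fun p : Tr (n + 2) => gf f A A' (yy p) ≠ gf f A A' p.1) := rfl
  rw [h0, ← (MP.equiv (coE n)).prob, prob_eq, Ex_prod]
  have h1 : ∀ p : Tr n, Ex (fun w : Se => ind (gf f A A' (yy (coE n (p, w))) ≠
      gf f A A' (coE n (p, w)).1)) = (14 + 10 * (fk f A p.1 + fk f A' p.1 + fk f A (yy p) +
      fk f A' (yy p)) - 18 * (fk f A p.1 * fk f A (yy p)) -
    18 * (fk f A' p.1 * fk f A' (yy p)) - 2 * (fk f A p.1 * fk f A' (yy p)) -
      2 * (fk f A' p.1 * fk f A (yy p))) / 64 := by
    intro p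
    have h2 := Ex_dis (f p.1 && kb A p.1) (f p.1 && kb A' p.1) (f (yy p) && kb A (yy p))
      (f (yy p) && kb A' (yy p))
    unfold fk
    rw [← h2]
    refine Ex_congr fun w => ?_
    rw [yy_coE, gf_ap]
    have h3 : (coE n (p, w)).1 = ap p.1 w.1.1 w.2.1 := rfl
    rw [h3, gf_ap]
  rw [Ex_congr h1]
  have h2 : Ex (fun p : Tr n => (14 + 10 * (fk f A p.1 + fk f A' p.1 + fk f A (yy p) +
      fk f A' (yy p)) - 18 * (fk f A p.1 * fk f A (yy p)) -
    18 * (fk f A' p.1 * fk f A' (yy p)) - 2 * (fk f A p.1 * fk f A' (yy p)) -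
      2 * (fk f A' p.1 * fk f A (yy p))) / 64) =
      (14 + 10 * (Ex (fun p : Tr n => fk f A p.1) + Ex (fun p : Tr n => fk f A' p.1) +
        Ex (fun p : Tr n => fk f A (yy p)) + Ex (fun p : Tr n => fk f A' (yy p))) -
        18 * BB f A A - 18 * BB f A' A' - 2 * BB f A A' - 2 * BB f A' A) / 64 := by
    unfold BB
    have e1 : ∀ p : Tr n, (14 + 10 * (fk f A p.1 + fk f A' p.1 + fk f A (yy p) +
      fk f A' (yy p)) - 18 * (fk f A p.1 * fk f A (yy p)) -
      18 * (fk f A' p.1 * fk f A' (yy p)) - 2 * (fk f A p.1 * fk f A' (yy p)) -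
      2 * (fk f A' p.1 * fk f A (yy p))) / 64 = (1 / 64) * (14 + (10 * fk f A p.1 +
        (10 * fk f A' p.1 + (10 * fk f A (yy p) + (10 * fk f A' (yy p) +
        ((-18) * (fk f A p.1 * fk f A (yy p)) + ((-18) * (fk f A' p.1 * fk f A' (yy p)) +
        ((-2) * (fk f A p.1 * fk f A' (yy p)) + (-2) * (fk f A' p.1 * fk f A (yy p)))))))))) := by
      intro p
      ring
    rw [Ex_congr e1, Ex_mul_left, Ex_add, Ex_add, Ex_add, Ex_add, Ex_add, Ex_add, Ex_add, Ex_add,
      Ex_mul_left, Ex_mul_left, Ex_mul_left, Ex_mul_left, Ex_mul_left, Ex_mul_left, Ex_mul_left,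
      Ex_mul_left, Ex_const]
    ring
  rw [h2, Ex_fst (fk f A), Ex_fst (fk f A'), Ex_yy (fk f A), Ex_yy (fk f A'), BB_comm f A' A]
  ring

/-- The correlations from the noise sensitivities. -/
theorem BB_ns (f : Cu n → Bool) (A A' : Cu n) :
    20 * BB f A A' = 7 + 10 * (Ex (fk f A) + Ex (fk f A')) +
      144 * (noiseSensitivity (n + 2) (gf f A A) + noiseSensitivity (n + 2) (gf f A' A')) -
      320 * noiseSensitivity (n + 2) (gf f A A') := by
  have h1 := ns_gf f A A'
  have h2 := ns_gf f A A
  have h3 := ns_gf f A' A'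
  linarith

/-! ### The formula -/

/-- The literals of a set of variables. -/
def lits (A : Cu n) : List (ℕ × Bool) :=
  ((List.finRange n).filter fun i : Fin n => A i).map fun i : Fin n => (i.val, true)

/-- The formula of the gadget. -/
def FG (F : List (List (ℕ × Bool))) (A A' : Cu n) : List (List (ℕ × Bool)) :=
  (F.map fun t => (n, true) :: (lits A ++ t)) ++ ((F.map fun t => (n + 1, true) :: (lits A' ++ t))
    ++ [[(n, true), (n + 1, true)]])

theorem cls_FG {m : Bool} {s : ℕ} {F : List (List (ℕ × Bool))} (hF : Cls m n s F)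
    (A A' : Cu n) : Cls m (n + 2) (2 * s + 1) (FG F A A') := by
  have hl : ∀ (A : Cu n), ∀ l ∈ lits A, l.1 < n ∧ l.2 = true := by
    intro A l hl
    obtain ⟨i, -, rfl⟩ := List.mem_map.1 hl
    exact ⟨i.2, rfl⟩
  refine ⟨⟨?_, fun t ht l hl' => ?_⟩, fun hm t ht l hl' => ?_⟩
  · unfold FG
    rw [List.length_append, List.length_append, List.length_map, List.length_map,
      List.length_singleton]
    have := hF.1.1
    omega
  · unfold FG at ht
    rcases List.mem_append.1 ht with ht | ht
    · obtain ⟨t', ht', rfl⟩ := List.mem_map.1 ht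
      rcases List.mem_cons.1 hl' with rfl | hl'
      · simp
      · rcases List.mem_append.1 hl' with hl' | hl'
        · have := (hl A l hl').1
          omega
        · have := hF.1.2 t' ht' l hl'
          omega
    · rcases List.mem_append.1 ht with ht | ht
      · obtain ⟨t', ht', rfl⟩ := List.mem_map.1 ht
        rcases List.mem_cons.1 hl' with rfl | hl'
        · simp
        · rcases List.mem_append.1 hl' with hl' | hl'
          · have := (hl A' l hl').1
            omega
          · have := hF.1.2 t' ht' l hl'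
            omega
      · rw [List.mem_singleton] at ht
        subst ht
        simp only [List.mem_cons, List.not_mem_nil, or_false] at hl'
        rcases hl' with rfl | rfl <;> simp
  · unfold FG at ht
    rcases List.mem_append.1 ht with ht | ht
    · obtain ⟨t', ht', rfl⟩ := List.mem_map.1 ht
      rcases List.mem_cons.1 hl' with rfl | hl'
      · rfl
      · rcases List.mem_append.1 hl' with hl' | hl'
        · exact (hl A l hl').2
        · exact hF.2 hm t' ht' l hl'
    · rcases List.mem_append.1 ht with ht | ht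
      · obtain ⟨t', ht', rfl⟩ := List.mem_map.1 ht
        rcases List.mem_cons.1 hl' with rfl | hl'
        · rfl
        · rcases List.mem_append.1 hl' with hl' | hl'
          · exact (hl A' l hl').2
          · exact hF.2 hm t' ht' l hl'
      · rw [List.mem_singleton] at ht
        subst ht
        simp only [List.mem_cons, List.not_mem_nil, or_false] at hl'
        rcases hl' with rfl | rfl <;> rfl

theorem all_lits (A x : Cu n) (z z' : Bool) :
    ((lits A).all fun l => (List.ofFn (ap x z z')).getD l.1 false == l.2) = kb A x := by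
  unfold kb
  rw [Bool.eq_iff_iff, List.all_eq_true, decide_eq_true_iff]
  constructor
  · intro h i hi
    have h1 := h ((i : ℕ), true) (List.mem_map.2 ⟨i, List.mem_filter.2
      ⟨List.mem_finRange i, hi⟩, rfl⟩)
    rw [getD_ofFn (ap x z z') (i : ℕ) (by omega)] at h1
    have h2 : ap x z z' ⟨(i : ℕ), by omega⟩ = x i := by simp [ap]
    rw [h2] at h1
    simpa using h1
  · intro h l hl
    obtain ⟨i, hi, rfl⟩ := List.mem_map.1 hl
    have h1 := h i (by simpa using (List.mem_filter.1 hi).2)
    simp only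
    rw [getD_ofFn (ap x z z') (i : ℕ) (by omega)]
    have h2 : ap x z z' ⟨(i : ℕ), by omega⟩ = x i := by simp [ap]
    rw [h2, h1]
    rfl

theorem termVal_ap {t : List (ℕ × Bool)} (ht : ∀ l ∈ t, l.1 < n) (x : Cu n) (z z' : Bool) :
    (t.all fun l => (List.ofFn (ap x z z')).getD l.1 false == l.2) =
      termVal t (List.ofFn x) := by
  unfold termVal
  rw [Bool.eq_iff_iff, List.all_eq_true, List.all_eq_true]
  have h1 : ∀ l ∈ t, (List.ofFn (ap x z z')).getD l.1 false = (List.ofFn x).getD l.1 false := by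
    intro l hl
    have h2 := ht l hl
    rw [getD_ofFn (ap x z z') l.1 (by omega), getD_ofFn x l.1 h2]
    simp [ap, h2]
  constructor
  · intro h l hl
    rw [← h1 l hl]
    exact h l hl
  · intro h l hl
    rw [h1 l hl]
    exact h l hl

theorem fn_FG {s : ℕ} {F : List (List (ℕ × Bool))} (hF : IsDnf n s F) (A A' x : Cu n)
    (z z' : Bool) : fn (n + 2) (FG F A A') (ap x z z') = gf (fn n F) A A' (ap x z z') := by
  rw [gf_ap]
  unfold fn FG dnfVal
  rw [List.any_append, List.any_append, List.any_map, List.any_map, List.any_cons, List.any_nil]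
  have hz : (List.ofFn (ap x z z')).getD n false = z := by
    rw [getD_ofFn (ap x z z') n (by omega), ap_l]
  have hz' : (List.ofFn (ap x z z')).getD (n + 1) false = z' := by
    rw [getD_ofFn (ap x z z') (n + 1) (by omega), ap_r]
  have h1 : ∀ (B : Cu n) (v : ℕ) (y : Bool), (List.ofFn (ap x z z')).getD v false = y →
      ∀ G : List (List (ℕ × Bool)), (∀ t ∈ G, ∀ l ∈ t, l.1 < n) →
      G.any ((fun t => termVal t (List.ofFn (ap x z z'))) ∘ fun t => (v, true) :: (lits B ++ t)) =
      (y && (kb B x && G.any fun t => termVal t (List.ofFn x))) := by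
    intro B v y hv G
    induction G with
    | nil => intro _; simp
    | cons t G ih =>
      intro hG
      rw [List.any_cons, List.any_cons, ih fun t' ht' => hG t' (List.mem_cons_of_mem _ ht')]
      have h2 : ((fun t => termVal t (List.ofFn (ap x z z'))) ∘ fun t =>
          (v, true) :: (lits B ++ t)) t = (y && (kb B x && termVal t (List.ofFn x))) := by
        simp only [Function.comp]
        have h3 : termVal ((v, true) :: (lits B ++ t)) (List.ofFn (ap x z z')) =
            (((List.ofFn (ap x z z')).getD v false == true) &&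
              (((lits B).all fun l => (List.ofFn (ap x z z')).getD l.1 false == l.2) &&
              (t.all fun l => (List.ofFn (ap x z z')).getD l.1 false == l.2))) := by
          unfold termVal
          rw [List.all_cons, List.all_append]
        rw [h3, hv, all_lits, termVal_ap (hG t (by simp))]
        simp
      rw [h2]
      cases y <;> cases kb B x <;> simp
  rw [h1 A n z hz F hF.2, h1 A' (n + 1) z' hz' F hF.2]
  have h4 : termVal [(n, true), (n + 1, true)] (List.ofFn (ap x z z')) = (z && z') := by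
    unfold termVal
    simp only [List.all_cons, List.all_nil, Bool.and_true]
    rw [hz, hz']
    cases z <;> cases z' <;> rfl
  rw [h4]
  unfold lb
  generalize (F.any fun t => termVal t (List.ofFn x)) = v
  cases z <;> cases z' <;> cases v <;> cases kb A x <;> cases kb A' x <;> rfl

theorem fn_FG' {s : ℕ} {F : List (List (ℕ × Bool))} (hF : IsDnf n s F) (A A' : Cu n) :
    fn (n + 2) (FG F A A') = gf (fn n F) A A' := by
  funext u
  rw [← ap_rs u]
  exact fn_FG hF A A' _ _ _

end Pool.Agent.L0h78.NK
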