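import Pool.Agent.L0h78.NK.Corr
import Pool.Agent.L0h78.DE.GoodProb

/-!
# Samples are good with high probability
-/

namespace Pool.Agent.L0h78.NK

open Pool.Agent.L0h78.DE Finset
open Pool.Agent.NPC Pool.Agent.NPC.H532 Pool.Agent.H424R2.PPAD
open Pool.Agent.Helper91K9.DL (dnfVal termVal examples nvars)

variable {n : ℕ}

/-! ### The median -/

theorem filter_disj {α : Type} (p q : α → Bool) : ∀ l : List α,
    (∀ a ∈ l, ¬ (p a = true ∧ q a = true)) → (l.filter p).length + (l.filter q).length ≤ l.length := by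
  intro l
  induction l with
  | nil => intro _; simp
  | cons a l ih =>
    intro h
    have h1 := ih fun b hb => h b (List.mem_cons_of_mem _ hb)
    have h2 := h a (by simp)
    rw [List.filter_cons, List.filter_cons]
    cases hp : p a <;> cases hq : q a
    · simp
      omega
    · simp
      omega
    · simp
      omega
    · exact (h2 ⟨hp, hq⟩).elim

theorem med_close {l : List ℕ} {g : ℕ} {x : ℝ} (hg : 0 < g) {p : ℕ → Bool}
    (hp : ∀ w, p w = true → |(w : ℝ) / g - x| ≤ 1 / g)
    (h : l.length < 2 * (l.filter p).length) : |(med l : ℝ) / g - x| ≤ 3 / g := by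
  have hg0 : (0 : ℝ) < g := by exact_mod_cast hg
  have hx : ∀ w, p w = true → |(w : ℝ) - g * x| ≤ 1 := by
    intro w hw
    have h1 := hp w hw
    have h2 : (w : ℝ) / g - x = (w - g * x) / g := by field_simp
    rw [h2, abs_div, abs_of_pos hg0] at h1
    exact (div_le_div_iff_of_pos_right hg0).1 h1
  -- good values pass
  have hpass : ∀ v, p v = true → l.length < 2 * near l v := by
    intro v hv
    refine lt_of_lt_of_le h (Nat.mul_le_mul_left _ ?_)
    unfold near
    have h1 : (l.filter p) = (l.filter fun w => decide (v ≤ w + 2) && decide (w ≤ v + 2)).filter p := by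
      rw [List.filter_filter]
      refine List.filter_congr fun w _ => ?_
      by_cases hw : p w = true
      · have h2 := abs_le.1 (hx w hw)
        have h3 := abs_le.1 (hx v hv)
        have h4 : v ≤ w + 2 := by
          have : (v : ℝ) ≤ w + 2 := by linarith [h2.1, h3.2]
          exact_mod_cast this
        have h5 : w ≤ v + 2 := by
          have : (w : ℝ) ≤ v + 2 := by linarith [h3.1, h2.2]
          exact_mod_cast this
        simp [hw, h4, h5]
      · have : p w = false := by simpa using hw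
        simp [this]
    rw [h1]
    exact List.length_filter_le _ _
  have hne : (l.filter p) ≠ [] := by
    intro h1
    rw [h1] at h
    simp at h
  obtain ⟨v, hv⟩ := List.exists_mem_of_ne_nil _ hne
  have hv2 := List.mem_filter.1 hv
  have hmem : v ∈ l.filter fun v => decide (l.length < 2 * near l v) :=
    List.mem_filter.2 ⟨hv2.1, by simpa using hpass v hv2.2⟩
  have h3 : med l ∈ l.filter fun v => decide (l.length < 2 * near l v) := by
    unfold med
    cases h4 : (l.filter fun v => decide (l.length < 2 * near l v)).head? with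
    | none =>
      rw [List.head?_eq_none_iff] at h4
      rw [h4] at hmem
      simp at hmem
    | some w =>
      rw [Option.getD_some]
      exact List.mem_of_mem_head? h4
  have h4 := (List.mem_filter.1 h3).2
  rw [decide_eq_true_iff] at h4
  generalize med l = m at h4
  have h5 : ∃ w ∈ l, (decide (m ≤ w + 2) && decide (w ≤ m + 2)) = true ∧ p w = true := by
    by_contra hcon
    push Not at hcon
    have h6 := filter_disj (fun w => decide (m ≤ w + 2) && decide (w ≤ m + 2)) p l
      (fun w hw hh => hcon w hw hh.1 hh.2)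
    unfold near at h4
    omega
  obtain ⟨w, -, hw1, hw2⟩ := h5
  rw [Bool.and_eq_true, decide_eq_true_iff, decide_eq_true_iff] at hw1
  have h6 := abs_le.1 (hx w hw2)
  have h7 : (m : ℝ) ≤ w + 2 := by exact_mod_cast hw1.1
  have h8 : (w : ℝ) ≤ m + 2 := by exact_mod_cast hw1.2
  have h9 : (m : ℝ) / g - x = (m - g * x) / g := by field_simp
  rw [h9, abs_div, abs_of_pos hg0]
  refine div_le_div_of_nonneg_right ?_ hg0.le
  rw [abs_le]
  constructor
  · linarith [h6.1]
  · linarith [h6.2]

/-! ### One run -/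

/-- The sample space of one run. -/
abbrev Om (n ME : ℕ) : Type :=
  (Fin ME → Cu n) × (Fin ME → Bool) × (Fin ME → Bool) × (Fin ME → Bool)

/-- The data of a run. -/
def runOf {ME : ℕ} (F : List (List (ℕ × Bool))) (ω : Om n ME) : Run :=
  (examples F ω.1, List.ofFn ω.2.1, List.ofFn ω.2.2.1, List.ofFn ω.2.2.2)

theorem simL_eq {s t : ℕ} {F : List (List (ℕ × Bool))} (hF : IsDnf n s F) (A A' : List Bool)
    (X : Fin t → Cu n) (Z Z' : Fin t → Bool) :
    simL A A' (examples F X) (List.ofFn Z) (List.ofFn Z') =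
      examples (FG F (pad A : Cu n) (pad A')) (fun j => ap (X j) (Z j) (Z' j)) := by
  unfold simL examples
  refine List.ext_getElem (by simp) fun i h1 h2 => ?_
  have hi : i < t := by simpa using h2
  simp only [List.getElem_map, List.getElem_zip, List.getElem_ofFn]
  rw [ap_ofFn]
  have h3 := fn_FG hF (pad A) (pad A') (X ⟨i, hi⟩) (Z ⟨i, hi⟩) (Z' ⟨i, hi⟩)
  rw [gf_ap] at h3
  unfold fn at h3
  rw [ap_ofFn] at h3
  rw [h3, kL_eq, kL_eq]

/-- The simulated sample. -/
def omE (n ME : ℕ) : Om n ME ≃ Sample (n + 2) ME where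
  toFun ω := (fun j => ap (ω.1 j) (ω.2.1 j) (ω.2.2.1 j), ω.2.2.2)
  invFun p := (fun j => rs (p.1 j), fun j => p.1 j ⟨n, by omega⟩, fun j => p.1 j ⟨n + 1, by omega⟩,
    p.2)
  left_inv ω := by
    simp only [rs_ap, ap_l, ap_r]
  right_inv p := by
    simp only [ap_rs]

theorem est1_eq (E : Input → ℕ) {s g ME : ℕ} {F : List (List (ℕ × Bool))} (hF : IsDnf n s F)
    (A A' : List Bool) (ω : Om n ME) : est1 E n s g A A' (runOf F ω) =
      E (input (n + 2) (2 * s + 1) g 8 (FG F (pad A : Cu n) (pad A')) (omE n ME ω)) := by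
  unfold est1 runOf input
  rw [simL_eq hF]
  rfl

/-- The estimates of one run are rarely bad. -/
theorem run_prob {m : Bool} {E : Input → ℕ} {e : ℕ}
    (hE : ∀ (n s g b : ℕ) (F : List (List (ℕ × Bool))), 1 ≤ g → 1 ≤ b → Cls m n s F →
      1 - 1 / (b : ℝ) ≤ Prob fun ω : Sample n ((n + s + g + b) ^ e) =>
        |(E (input n s g b F ω) : ℝ) / g - noiseSensitivity n (fn n F)| ≤ 1 / (g : ℝ))
    {s g ME : ℕ} {F : List (List (ℕ × Bool))} (hF : Cls m n s F) (hg : 1 ≤ g)
    (hME : ME = (n + 2 + (2 * s + 1) + g + 8) ^ e) (B B' : Cu n) :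
    Prob (fun ω : Om n ME => ¬ |(E (input (n + 2) (2 * s + 1) g 8 (FG F B B') (omE n ME ω)) : ℝ) /
      g - noiseSensitivity (n + 2) (gf (fn n F) B B')| ≤ 1 / (g : ℝ)) ≤ 1 / 8 := by
  subst hME
  have h1 := hE (n + 2) (2 * s + 1) g 8 (FG F B B') hg (by norm_num) (cls_FG hF B B')
  rw [fn_FG' hF.1] at h1
  have h2 := prob_not_le_of h1
  rw [← (MP.equiv (omE n _)).prob] at h2
  norm_num at h2 ⊢
  exact h2

/-- Amplification. -/
theorem amp_prob {m : Bool} {E : Input → ℕ} {e : ℕ}
    (hE : ∀ (n s g b : ℕ) (F : List (List (ℕ × Bool))), 1 ≤ g → 1 ≤ b → Cls m n s F →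
      1 - 1 / (b : ℝ) ≤ Prob fun ω : Sample n ((n + s + g + b) ^ e) =>
        |(E (input n s g b F ω) : ℝ) / g - noiseSensitivity n (fn n F)| ≤ 1 / (g : ℝ))
    {s g ME b kk : ℕ} {F : List (List (ℕ × Bool))} (hF : Cls m n s F) (hg : 1 ≤ g) (hb : 1 ≤ b)
    (hME : ME = (n + 2 + (2 * s + 1) + g + 8) ^ e) (hkk : 128 * (2 * n + 16 * b) ≤ kk) :
    Prob (fun R : Fin kk → Om n ME => ¬ ∀ A A' : List Bool,
      |(vv E n s g (List.ofFn fun j => runOf F (R j)) A A' : ℝ) / g -
        noiseSensitivity (n + 2) (gf (fn n F) (pad A) (pad A'))| ≤ 3 / (g : ℝ)) ≤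
      1 / (8 * (b : ℝ)) := by
  classical
  set bad : Cu n × Cu n → Om n ME → Prop := fun i ω =>
    ¬ |(E (input (n + 2) (2 * s + 1) g 8 (FG F i.1 i.2) (omE n ME ω)) : ℝ) / g -
      noiseSensitivity (n + 2) (gf (fn n F) i.1 i.2)| ≤ 1 / (g : ℝ) with hbad
  have hkk0 : (0 : ℝ) < kk := by
    have : 0 < kk := by omega
    exact_mod_cast this
  have h1 := unif_dev (ι := Cu n × Cu n) (Ω := Om n ME) kk (2 * n) b (fun i ω => ind (bad i ω)) 1
    (1 / 4) (by norm_num) (fun i ω => by
      rw [abs_of_nonneg (ind_nonneg _)]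
      exact ind_le_one _) (by norm_num) hb (by
      rw [Fintype.card_prod, two_mul, pow_add]
      simp) (by
      have h2 : ((128 * (2 * n + 16 * b) : ℕ) : ℝ) ≤ kk := by exact_mod_cast hkk
      push_cast at h2 ⊢
      linarith)
  refine le_trans (prob_mono fun R hR => ?_) h1
  by_contra hcon
  push Not at hcon
  refine hR fun A A' => ?_
  have h2 := hcon (pad A, pad A')
  have h3 : Ex (fun ω => ind (bad (pad A, pad A') ω)) ≤ 1 / 8 := by
    rw [← prob_eq]
    exact run_prob hE hF hg hME (pad A) (pad A')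
  have h4 : ∑ j, ind (bad (pad A, pad A') (R j)) ≤ (3 / 8) * kk := by
    have h5 := (abs_le.1 h2).2
    have h6 := mul_le_mul_of_nonneg_left h3 hkk0.le
    linarith
  -- count
  set x := noiseSensitivity (n + 2) (gf (fn n F) (pad A) (pad A')) with hx
  set p : ℕ → Bool := fun w => decide (|(w : ℝ) / g - x| ≤ 1 / (g : ℝ)) with hp
  refine med_close (p := p) (by omega) (fun w hw => by simpa [hp] using hw) ?_
  have h5 : (((List.ofFn fun j => runOf F (R j)).map fun r => est1 E n s g A A' r).filter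
      p).length = ∑ j, (if p (est1 E n s g A A' (runOf F (R j))) = true then 1 else 0) := by
    rw [List.map_ofFn]
    have h6 := filter_len p (List.ofFn ((fun r => est1 E n s g A A' r) ∘ fun j => runOf F (R j)))
    have h7 : (((List.ofFn ((fun r => est1 E n s g A A' r) ∘ fun j => runOf F (R j))).filter
        p).length : ℝ) = ((∑ j, (if p (est1 E n s g A A' (runOf F (R j))) = true then 1 else 0) : ℕ) : ℝ) := by
      rw [h6, List.map_ofFn, List.sum_ofFn]
      push_cast
      refine sum_congr rfl fun j _ => ?_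
      simp only [Function.comp, bR]
    exact_mod_cast h7
  rw [h5, List.length_map, List.length_ofFn]
  have h6 : ((∑ j, (if p (est1 E n s g A A' (runOf F (R j))) = true then 1 else 0) : ℕ) : ℝ) =
      kk - ∑ j, ind (bad (pad A, pad A') (R j)) := by
    push_cast
    have h7 : (kk : ℝ) = ∑ _j : Fin kk, (1 : ℝ) := by simp
    rw [h7, ← sum_sub_distrib]
    refine sum_congr rfl fun j _ => ?_
    rw [est1_eq E hF.1]
    by_cases h8 : bad (pad A, pad A') (R j)
    · rw [ind_of h8]
      have h9 : ¬ |(E (input (n + 2) (2 * s + 1) g 8 (FG F (pad A : Cu n) (pad A'))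
        (omE n ME (R j))) : ℝ) / g - x| ≤ 1 / (g : ℝ) := h8
      simp only [hp, decide_eq_false h9]
      norm_num
    · rw [ind_of_not h8]
      have h9 : |(E (input (n + 2) (2 * s + 1) g 8 (FG F (pad A : Cu n) (pad A'))
        (omE n ME (R j))) : ℝ) / g - x| ≤ 1 / (g : ℝ) := not_not.1 h8
      simp only [hp, decide_eq_true h9]
      norm_num
  have h7 : ((kk : ℕ) : ℝ) < ((2 * ∑ j, (if p (est1 E n s g A A' (runOf F (R j))) = true
      then 1 else 0) : ℕ) : ℝ) := by
    rw [Nat.cast_mul, h6]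
    push_cast
    linarith
  exact_mod_cast h7

/-! ### The laws -/

theorem abs_fk (f : Cu n → Bool) (A x : Cu n) : |fk f A x| ≤ 1 := by
  unfold fk bR
  split_ifs <;> simp

theorem unif_laws (f : Cu n → Bool) (D T M b : ℕ) (τ : ℝ) (hτ : 0 ≤ τ) (hb : 1 ≤ b)
    (hM : 128 * ((((n + 2) * T + 2 * n : ℕ) : ℝ) + 16 * b) ≤ M * τ ^ 2) :
    Prob (fun P : Fin M → Tr n => ¬ ∀ A : Cu n, |∑ j, fk f A (P j).1 - M * Ex (fk f A)| ≤ M * τ) ≤
      1 / (8 * (b : ℝ)) ∧
    Prob (fun P : Fin M → Tr n => ¬ ∀ (c : Cl n T) (S : Cu n),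
      |∑ j, sR (f (P j).1) * pC D c (yy (P j)) * Phi S (P j) -
        M * xw (fun x => sR (f x)) (pC D c) S| ≤ M * τ) ≤ 1 / (8 * (b : ℝ)) ∧
    Prob (fun P : Fin M → Tr n => ¬ ∀ (c : Cl n T) (S : Cu n),
      |∑ j, pC D c (P j).1 * pC D c (yy (P j)) * Phi S (P j) -
        M * xw (pC D c) (pC D c) S| ≤ M * τ) ≤ 1 / (8 * (b : ℝ)) ∧
    Prob (fun P : Fin M → Tr n => ¬ ∀ (c : Cl n T) (S : Cu n),
      |∑ j, rC f D c (P j).1 * chi S (P j).1 - M * fc (rC f D c) S| ≤ M * τ) ≤
        1 / (8 * (b : ℝ)) := by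
  have hM' : 8 * (4 : ℝ) ^ 2 * ((((n + 2) * T + 2 * n : ℕ) : ℝ) + 16 * b) ≤ M * τ ^ 2 := by
    norm_num at hM ⊢
    linarith
  have hc1 : Fintype.card (Cu n) ≤ 2 ^ ((n + 2) * T + 2 * n) := by
    have : Fintype.card (Cu n) = 2 ^ n := by simp
    rw [this]
    exact Nat.pow_le_pow_right (by norm_num) (by omega)
  refine ⟨?_, ?_, ?_, ?_⟩
  · have h := unif_dev (Ω := Tr n) M ((n + 2) * T + 2 * n) b
      (fun (A : Cu n) (p : Tr n) => fk f A p.1) 4 τ (by norm_num) (by
        intro A p
        exact (abs_fk f A p.1).trans (by norm_num)) hτ hb hc1 hM'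
    refine (prob_mono fun P hP => ?_).trans h
    push Not at hP
    obtain ⟨A, h1⟩ := hP
    refine ⟨A, ?_⟩
    rw [Ex_fst (fk f A)]
    exact h1
  · have h := unif_dev (Ω := Tr n) M ((n + 2) * T + 2 * n) b
      (fun (q : Cl n T × Cu n) (p : Tr n) => sR (f p.1) * pC D q.1 (yy p) * Phi q.2 p) 4 τ
        (by norm_num) (by
        intro q p
        rw [abs_mul, abs_mul, abs_sR, one_mul]
        have h1 := abs_pC D q.1 (yy p)
        have h2 := abs_Phi_le q.2 p
        have h3 := mul_le_mul h1 h2 (abs_nonneg _) (by norm_num)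
        linarith) hτ hb (card_idx n T) hM'
    refine (prob_mono fun P hP => ?_).trans h
    push Not at hP
    obtain ⟨c, S, h1⟩ := hP
    exact ⟨(c, S), h1⟩
  · have h := unif_dev (Ω := Tr n) M ((n + 2) * T + 2 * n) b
      (fun (q : Cl n T × Cu n) (p : Tr n) => pC D q.1 p.1 * pC D q.1 (yy p) * Phi q.2 p) 4 τ
        (by norm_num) (by
        intro q p
        rw [abs_mul, abs_mul]
        have h0 := abs_pC D q.1 p.1
        have h1 := abs_pC D q.1 (yy p)
        have h2 := abs_Phi_le q.2 p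
        have h3 := mul_le_mul h0 h1 (abs_nonneg _) (by norm_num)
        have h4 := mul_le_mul h3 h2 (abs_nonneg _) (by norm_num)
        linarith) hτ hb (card_idx n T) hM'
    refine (prob_mono fun P hP => ?_).trans h
    push Not at hP
    obtain ⟨c, S, h1⟩ := hP
    exact ⟨(c, S), h1⟩
  · have h := unif_dev (Ω := Tr n) M ((n + 2) * T + 2 * n) b
      (fun (q : Cl n T × Cu n) (p : Tr n) => rC f D q.1 p.1 * chi q.2 p.1) 4 τ
        (by norm_num) (by
        intro q p
        rw [abs_mul, abs_chi, mul_one]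
        exact (abs_rC f D q.1 p.1).trans (by norm_num)) hτ hb (card_idx n T) hM'
    refine (prob_mono fun P hP => ?_).trans h
    push Not at hP
    obtain ⟨c, S, h1⟩ := hP
    refine ⟨(c, S), ?_⟩
    have h2 : Ex (fun p : Tr n => rC f D c p.1 * chi S p.1) = fc (rC f D c) S :=
      Ex_fst fun x => rC f D c x * chi S x
    simp only
    rw [h2]
    exact h1

end Pool.Agent.L0h78.NK
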