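import Pool.Agent.L0h78.NK.Alg

/-!
# Identities for the functions of the learner
-/

namespace Pool.Agent.L0h78.NK

open Pool.Agent.L0h78.DE Finset
open Pool.Agent.NPC Pool.Agent.NPC.H532 Pool.Agent.H424R2.PPAD
open Pool.Agent.Helper91K9.DL (dnfVal termVal examples nvars)

/-! ### Pairs of subsets -/

theorem pairs_nil (cap : ℕ) : pairs cap [] = [([], [])] := rfl

theorem pairs_cons (cap : ℕ) (b : Bool) (α : List Bool) :
    pairs cap (b :: α) = pstep cap (pairs cap α) b := by
  unfold pairs
  rw [List.reverse_cons, List.foldl_append, List.foldl_cons, List.foldl_nil]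

theorem cntT_cons (b : Bool) (α : List Bool) :
    cntT (b :: α) = (if b then 1 else 0) + cntT α := by
  unfold cntT
  cases b
  · simp
  · simp [Nat.add_comm]

/-- One step without truncation. -/
def pst (l : List (List Bool × List Bool)) (b : Bool) : List (List Bool × List Bool) :=
  l.flatMap fun q => if b then [(false :: q.1, false :: q.2), (true :: q.1, false :: q.2),
    (false :: q.1, true :: q.2), (true :: q.1, true :: q.2)] else
      [(false :: q.1, false :: q.2)]

theorem pst_length (b : Bool) : ∀ l : List (List Bool × List Bool),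
    (pst l b).length = (if b then 4 else 1) * l.length := by
  intro l
  unfold pst
  induction l with
  | nil => simp
  | cons q l ih =>
    rw [List.flatMap_cons, List.length_append, ih, List.length_cons]
    cases b
    · simp
      omega
    · simp
      omega

theorem pairs_length (cap : ℕ) : ∀ α : List Bool, 4 ^ cntT α ≤ cap →
    (pairs cap α).length = 4 ^ cntT α ∧ (∀ b β, α = b :: β → pairs cap α = pst (pairs cap β) b) := by
  intro α
  induction α with
  | nil =>
    intro _
    exact ⟨by simp [pairs_nil, cntT], fun b β h => by simp at h⟩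
  | cons b α ih =>
    intro h
    rw [cntT_cons] at h
    have h1 : 4 ^ cntT α ≤ cap := le_trans (Nat.pow_le_pow_right (by norm_num) (by omega)) h
    obtain ⟨h2, -⟩ := ih h1
    have h3 : pairs cap (b :: α) = pst (pairs cap α) b := by
      rw [pairs_cons]
      unfold pstep
      refine List.take_of_length_le ?_
      have h4 := pst_length b (pairs cap α)
      unfold pst at h4
      rw [h4, h2]
      refine le_trans ?_ h
      rw [pow_add]
      cases b <;> simp
    refine ⟨?_, fun b' β hb => ?_⟩
    · rw [h3, pst_length, h2, cntT_cons, pow_add]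
      cases b <;> simp
    · rw [List.cons_eq_cons] at hb
      rw [← hb.1, ← hb.2]
      exact h3

theorem sum_pst (φ : List Bool → List Bool → ℝ) (b : Bool) :
    ∀ l : List (List Bool × List Bool), ((pst l b).map fun q => φ q.1 q.2).sum =
      (l.map fun q => if b then φ (false :: q.1) (false :: q.2) + φ (true :: q.1) (false :: q.2) +
        φ (false :: q.1) (true :: q.2) + φ (true :: q.1) (true :: q.2) else
        φ (false :: q.1) (false :: q.2)).sum := by
  intro l
  unfold pst
  induction l with
  | nil => simp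
  | cons q l ih =>
    rw [List.flatMap_cons, List.map_append, List.sum_append, ih, List.map_cons, List.sum_cons]
    cases b
    · simp
    · simp
      ring

theorem kL_cons (a x0 : Bool) (A x : List Bool) :
    kL (a :: A) (x0 :: x) = ((!a || x0) && kL A x) := rfl

theorem cf_cons (a a' : Bool) (A A' : List Bool) : cf (a :: A) (a' :: A') =
    (if a && a' then 8 else if a || a' then -4 else 1) * cf A A' := by
  unfold cf
  rw [List.zip_cons_cons, List.map_cons, List.prod_cons]

theorem phZ_cons (b x0 y0 : Bool) (α x y : List Bool) : phZ (b :: α) (x0 :: x) (y0 :: y) =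
    (if b then (if xor x0 y0 then -3 else 1) else 1) * phZ α x y := by
  unfold phZ
  rw [List.zip_cons_cons, List.zip_cons_cons, List.map_cons, List.prod_cons]

theorem t3_cons (b : Bool) (α : List Bool) : t3 (b :: α) = (if b then 3 else 1) * t3 α := by
  unfold t3
  rw [List.map_cons, List.prod_cons]

theorem t3_eq : ∀ α : List Bool, t3 α = 3 ^ cntT α := by
  intro α
  induction α with
  | nil => simp [t3, cntT]
  | cons b α ih =>
    rw [t3_cons, ih, cntT_cons, pow_add]
    cases b <;> simp

theorem bR_and (a b : Bool) : bR (a && b) = bR a * bR b := by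
  cases a <;> cases b <;> simp [bR]

/-- The expansion of the multiplier. -/
theorem sum_pairs (cap : ℕ) : ∀ (α x y : List Bool), α.length ≤ x.length → α.length ≤ y.length →
    4 ^ cntT α ≤ cap → ((pairs cap α).map fun q =>
      (cf q.1 q.2 : ℝ) * (bR (kL q.1 x) * bR (kL q.2 y))).sum = (phZ α x y : ℝ) := by
  intro α
  induction α with
  | nil =>
    intro x y _ _ _
    simp [pairs_nil, cf, kL, phZ, bR]
  | cons b α ih =>
    intro x y hx hy h
    obtain ⟨x0, x, rfl⟩ : ∃ x0 x', x = x0 :: x' := by
      cases x with
      | nil => simp at hx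
      | cons x0 x' => exact ⟨x0, x', rfl⟩
    obtain ⟨y0, y, rfl⟩ : ∃ y0 y', y = y0 :: y' := by
      cases y with
      | nil => simp at hy
      | cons y0 y' => exact ⟨y0, y', rfl⟩
    have h1 := (pairs_length cap (b :: α) h).2 b α rfl
    have h2 : 4 ^ cntT α ≤ cap := by
      rw [cntT_cons] at h
      exact le_trans (Nat.pow_le_pow_right (by norm_num) (by omega)) h
    have h3 := ih x y (by simpa using hx) (by simpa using hy) h2
    rw [h1, sum_pst (fun A A' => (cf A A' : ℝ) * (bR (kL A (x0 :: x)) * bR (kL A' (y0 :: y))))]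
    rw [phZ_cons]
    push_cast
    rw [← h3, ← List.sum_map_mul_left]
    congr 1
    refine List.map_congr_left fun q _ => ?_
    simp only [cf_cons, kL_cons, bR_and]
    push_cast
    generalize bR (kL q.1 x) = u
    generalize bR (kL q.2 y) = v
    generalize (cf q.1 q.2 : ℝ) = c
    cases b <;> cases x0 <;> cases y0 <;> simp [bR] <;> ring

theorem sum_abs_cf (cap : ℕ) : ∀ α : List Bool, 4 ^ cntT α ≤ cap →
    ((pairs cap α).map fun q => |(cf q.1 q.2 : ℝ)|).sum = 17 ^ cntT α := by
  intro α
  induction α with
  | nil =>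
    intro _
    simp [pairs_nil, cf, cntT]
  | cons b α ih =>
    intro h
    have h1 := (pairs_length cap (b :: α) h).2 b α rfl
    have h2 : 4 ^ cntT α ≤ cap := by
      rw [cntT_cons] at h
      exact le_trans (Nat.pow_le_pow_right (by norm_num) (by omega)) h
    rw [h1, sum_pst (fun A A' => |(cf A A' : ℝ)|), cntT_cons, pow_add, ← ih h2,
      ← List.sum_map_mul_left]
    congr 1
    refine List.map_congr_left fun q _ => ?_
    simp only [cf_cons]
    push_cast
    rw [abs_mul, abs_mul, abs_mul, abs_mul]
    cases b <;> simp [abs_of_pos] <;> ring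

theorem pairs_len (cap : ℕ) (α : List Bool) : ∀ q ∈ pairs cap α,
    q.1.length = α.length ∧ q.2.length = α.length := by
  intro q hq
  have h := (pairs_inv cap α.reverse [([], [])] 0 (by simp) (by simp)).2 q hq
  simpa using h

/-! ### Points -/

theorem phZ_eq : ∀ {n : ℕ} (α : List Bool) (x y : Cu n), α.length ≤ n →
    (phZ α (List.ofFn x) (List.ofFn y) : ℝ) =
      (t3 α : ℝ) * ∏ i, if (pad α : Cu n) i then psi (x i) (y i) else 1 := by
  intro n
  induction n with
  | zero =>
    intro α x y h
    have : α = [] := List.length_eq_zero_iff.1 (by omega)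
    subst this
    simp [phZ, t3]
  | succ n ih =>
    intro α x y h
    cases α with
    | nil => simp [phZ, t3, pad]
    | cons b α =>
      rw [List.ofFn_succ, List.ofFn_succ, phZ_cons, t3_cons, Fin.prod_univ_succ]
      push_cast
      rw [ih α (fun i => x i.succ) (fun i => y i.succ) (by simpa using h)]
      have h1 : (pad (b :: α) : Cu (n + 1)) 0 = b := rfl
      have h2 : ∀ i : Fin n, (pad (b :: α) : Cu (n + 1)) i.succ = (pad α : Cu n) i := fun i => rfl
      rw [h1]
      simp only [h2]
      generalize (∏ i : Fin n, if (pad α : Cu n) i then psi (x i.succ) (y i.succ) else 1) = w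
      cases b <;> cases x 0 <;> cases y 0 <;> simp [psi] <;> ring

theorem kL_eq : ∀ {n : ℕ} (A : List Bool) (x : Cu n), kL A (List.ofFn x) = kb (pad A) x := by
  intro n
  induction n with
  | zero =>
    intro A x
    simp [kL, kb]
  | succ n ih =>
    intro A x
    cases A with
    | nil => simp [kL, kb, pad]
    | cons a A =>
      rw [List.ofFn_succ, kL_cons, ih A (fun i => x i.succ)]
      unfold kb
      rw [Bool.eq_iff_iff, Bool.and_eq_true, decide_eq_true_iff, decide_eq_true_iff,
        Fin.forall_fin_succ]
      have h1 : (pad (a :: A) : Cu (n + 1)) 0 = a := rfl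
      have h2 : ∀ i : Fin n, (pad (a :: A) : Cu (n + 1)) i.succ = (pad A : Cu n) i := fun i => rfl
      rw [h1]
      simp only [h2]
      cases a <;> cases x 0 <;> simp

variable {n : ℕ}

theorem noisyL_eq (x c w : Cu n) : noisyL (List.ofFn x) (List.ofFn c) (List.ofFn w) =
    List.ofFn (yy (x, c, w)) := by
  unfold noisyL yy
  refine List.ext_getElem (by simp) fun i h1 h2 => ?_
  simp

/-! ### Energies -/

theorem Wt_zv {T : Cu n} (h : T ≠ zv) : Wt zv T = 0 := by
  have h1 : ∃ i, T i = true := by
    by_contra hcon
    push Not at hcon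
    exact h (funext fun i => by simpa [zv] using hcon i)
  obtain ⟨i, hi⟩ := h1
  unfold Wt
  refine prod_eq_zero (mem_univ i) ?_
  simp [zv, hi]

theorem xw_sR (f : Cu n → Bool) {T : Cu n} (h : T ≠ zv) :
    xw (fun x => sR (f x)) (fun x => sR (f x)) T =
      4 * xw (fun x => bR (f x)) (fun x => bR (f x)) T := by
  rw [xw_eq, xw_eq, mul_sum]
  refine sum_congr rfl fun S _ => ?_
  by_cases hS : S = zv
  · rw [hS, Wt_zv h]
    ring
  · have h1 : fc (fun x => sR (f x)) S = 2 * fc (fun x => bR (f x)) S := by
      unfold fc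
      rw [← Ex_mul_left]
      have h2 : ∀ x, sR (f x) * chi S x = 2 * (bR (f x) * chi S x) - chi S x := by
        intro x
        cases f x <;> simp [sR, bR] <;> ring
      rw [Ex_congr h2, Ex_sub, Ex_chi, if_neg hS, sub_zero]
    rw [h1]
    ring

/-- The expansion of the energies. -/
theorem xw_pairs (f : Cu n → Bool) (cap : ℕ) (α : List Bool) (hα : α.length ≤ n)
    (hcap : 4 ^ cntT α ≤ cap) : (t3 α : ℝ) * xw (fun x => bR (f x)) (fun x => bR (f x)) (pad α) =
      ((pairs cap α).map fun q => (cf q.1 q.2 : ℝ) * BB f (pad q.1) (pad q.2)).sum := by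
  unfold xw
  rw [← Ex_mul_left]
  have h1 : ∀ p : Tr n, (t3 α : ℝ) * (bR (f p.1) * bR (f (yy p)) * Phi (pad α) p) =
      ((pairs cap α).map fun q => (cf q.1 q.2 : ℝ) * (fk f (pad q.1) p.1 *
        fk f (pad q.2) (yy p))).sum := by
    intro p
    have h2 := sum_pairs cap α (List.ofFn p.1) (List.ofFn (yy p)) (by simpa using hα)
      (by simpa using hα) hcap
    rw [phZ_eq α p.1 (yy p) hα] at h2
    have h3 : (∏ i, if (pad α : Cu n) i then psi (p.1 i) (yy p i) else 1) = Phi (pad α) p := rfl
    rw [h3] at h2
    have h4 : (t3 α : ℝ) * (bR (f p.1) * bR (f (yy p)) * Phi (pad α) p) =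
        (bR (f p.1) * bR (f (yy p))) * ((t3 α : ℝ) * Phi (pad α) p) := by ring
    rw [h4, ← h2, ← List.sum_map_mul_left]
    congr 1
    refine List.map_congr_left fun q _ => ?_
    rw [kL_eq, kL_eq]
    unfold fk
    rw [bR_and, bR_and]
    ring
  rw [Ex_congr h1, Ex_list_sum (fun (q : List Bool × List Bool) (p : Tr n) =>
    (cf q.1 q.2 : ℝ) * (fk f (pad q.1) p.1 * fk f (pad q.2) (yy p)))]
  congr 1
  refine List.map_congr_left fun q _ => ?_
  rw [Ex_mul_left]
  rfl

end Pool.Agent.L0h78.NK
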