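import Pool.Agent.L0h78.NK.Defs
import Pool.Agent.L0h78.DE.Corr2

/-!
# Noise and Fourier analysis
-/

namespace Pool.Agent.L0h78.NK

open Pool.Agent.L0h78.DE Finset
open Pool.Agent.NPC Pool.Agent.H424R2.PPAD

/-- A bit as a sign. -/
noncomputable def sg (b : Bool) : ℝ := if b then -1 else 1

/-- Means of products of functions of different coordinates. -/
theorem Ex_pi {n : ℕ} {β : Type} [Fintype β] [DecidableEq β] [Nonempty β]
    (φ : Fin n → β → ℝ) :
    Ex (fun w : Fin n → β => ∏ i, φ i (w i)) = ∏ i, Ex (φ i) := by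
  unfold Ex
  rw [prod_div_distrib, prod_const, card_univ, Fintype.card_fin, Fintype.card_fun,
    Fintype.card_fin]
  have h2 : ∏ i, ∑ b : β, φ i b = ∑ w : Fin n → β, ∏ i, φ i (w i) := by
    rw [prod_univ_sum]
    rfl
  rw [h2]
  push_cast
  rfl

theorem Ex_bool (φ : Bool → ℝ) : Ex φ = (φ false + φ true) / 2 := by
  unfold Ex
  rw [Fintype.sum_bool, Fintype.card_bool]
  push_cast
  ring

/-- The Fourier expansion. -/
theorem fourier {n : ℕ} (r : Cu n → ℝ) (x : Cu n) : r x = ∑ S, fc r S * chi S x := by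
  have h1 : ∀ S, fc r S * chi S x = Ex fun y => r y * (chi S y * chi S x) := by
    intro S
    unfold fc
    rw [← Ex_mul_right]
    exact Ex_congr fun y => by ring
  have h2 : ∀ y : Cu n, ∑ S, (chi S y * chi S x) = if y = x then 2 ^ n else 0 := by
    intro y
    have h3 := Ex_chi_mul y x
    unfold Ex at h3
    rw [card_cu, div_eq_iff (by positivity)] at h3
    have h4 : ∑ S, (chi S y * chi S x) = ∑ w, (chi y w * chi x w) :=
      sum_congr rfl fun S _ => by rw [chi_comm S y, chi_comm S x]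
    rw [h4, h3]
    split_ifs <;> simp
  rw [sum_congr rfl fun S _ => h1 S, ← Ex_sum]
  have h5 : ∀ y : Cu n, ∑ S, r y * (chi S y * chi S x) = if y = x then r x * 2 ^ n else 0 := by
    intro y
    rw [← mul_sum, h2]
    split_ifs with h
    · rw [h]
    · simp
  rw [Ex_congr h5]
  unfold Ex
  rw [card_cu, eq_div_iff (by positivity)]
  simp

/-- Triples: a point, the positions of the noise, the noise. -/
abbrev Tr (n : ℕ) : Type := Cu n × Cu n × Cu n

/-- Triples as functions. -/
def trE (n : ℕ) : (Fin n → Bool × Bool × Bool) ≃ Tr n :=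
  (Equiv.arrowProdEquivProdArrow (Fin n) (fun _ => Bool) (fun _ => Bool × Bool)).trans
    (Equiv.prodCongr (Equiv.refl _)
      (Equiv.arrowProdEquivProdArrow (Fin n) (fun _ => Bool) (fun _ => Bool)))

theorem Ex_tri {n : ℕ} (φ : Fin n → Bool × Bool × Bool → ℝ) :
    Ex (fun p : Tr n => ∏ i, φ i (p.1 i, p.2.1 i, p.2.2 i)) = ∏ i, Ex (φ i) := by
  rw [← Ex_pi]
  exact (Ex_equiv (trE n) (fun p : Tr n => ∏ i, φ i (p.1 i, p.2.1 i, p.2.2 i))).symm

variable {n : ℕ}

/-- The noisy point. -/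
def yy (p : Tr n) : Cu n := fun i => if p.2.1 i then p.2.2 i else p.1 i

/-- The local factor. -/
noncomputable def psi (b b' : Bool) : ℝ := if b = b' then 1 / 3 else -1

/-- The multiplier. -/
noncomputable def Phi (T : Cu n) (p : Tr n) : ℝ := ∏ i, if T i then psi (p.1 i) (yy p i) else 1

theorem abs_Phi_le (T : Cu n) (p : Tr n) : |Phi T p| ≤ 1 := by
  unfold Phi
  rw [abs_prod]
  refine prod_le_one (fun i _ => abs_nonneg _) fun i _ => ?_
  unfold psi
  split_ifs <;> norm_num [abs_of_pos]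

/-- Correlations. -/
noncomputable def xw (f g : Cu n → ℝ) (T : Cu n) : ℝ :=
  Ex fun p : Tr n => f p.1 * g (yy p) * Phi T p

/-- The weights. -/
noncomputable def Wt (V T : Cu n) : ℝ := ∏ i, if V i then 1 / 2 else if T i then 0 else 1

theorem chi_sg (S x : Cu n) : chi S x = ∏ i, if S i then sg (x i) else 1 := by
  unfold chi sg
  refine prod_congr rfl fun i _ => ?_
  cases S i <;> cases x i <;> simp

theorem loc (s v t : Bool) : Ex (fun w : Bool × Bool × Bool => (if s then sg w.1 else 1) *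
    (if v then sg (if w.2.1 then w.2.2 else w.1) else 1) *
    (if t then psi w.1 (if w.2.1 then w.2.2 else w.1) else 1)) =
    if s = v then (if s then 1 / 2 else if t then 0 else 1) else 0 := by
  rw [Ex_prod, Ex_bool]
  simp only
  rw [Ex_prod, Ex_prod, Ex_bool, Ex_bool, Ex_bool, Ex_bool, Ex_bool, Ex_bool]
  cases s <;> cases v <;> cases t <;> simp [sg, psi] <;> norm_num

theorem xw_chi (T S V : Cu n) : xw (chi S) (chi V) T = if S = V then Wt S T else 0 := by
  unfold xw
  have h1 : ∀ p : Tr n, chi S p.1 * chi V (yy p) * Phi T p =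
      ∏ i, ((if S i then sg (p.1 i, p.2.1 i, p.2.2 i).1 else 1) *
        (if V i then sg (if (p.1 i, p.2.1 i, p.2.2 i).2.1 then (p.1 i, p.2.1 i, p.2.2 i).2.2
          else (p.1 i, p.2.1 i, p.2.2 i).1) else 1) *
        (if T i then psi (p.1 i, p.2.1 i, p.2.2 i).1 (if (p.1 i, p.2.1 i, p.2.2 i).2.1
          then (p.1 i, p.2.1 i, p.2.2 i).2.2 else (p.1 i, p.2.1 i, p.2.2 i).1) else 1)) := by
    intro p
    rw [chi_sg, chi_sg, prod_mul_distrib, prod_mul_distrib]
    rfl
  rw [Ex_congr h1, Ex_tri (fun i (w : Bool × Bool × Bool) => (if S i then sg w.1 else 1) *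
    (if V i then sg (if w.2.1 then w.2.2 else w.1) else 1) *
    (if T i then psi w.1 (if w.2.1 then w.2.2 else w.1) else 1))]
  rw [prod_congr rfl fun i _ => loc (S i) (V i) (T i)]
  split_ifs with h
  · subst h
    unfold Wt
    exact prod_congr rfl fun i _ => by rw [if_pos rfl]
  · have h2 : ∃ i, S i ≠ V i := by
      by_contra hcon
      push Not at hcon
      exact h (funext hcon)
    obtain ⟨i, hi⟩ := h2
    exact prod_eq_zero (mem_univ i) (if_neg hi)

theorem xw_eq (f g : Cu n → ℝ) (T : Cu n) : xw f g T = ∑ S, fc f S * fc g S * Wt S T := by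
  have h1 : ∀ p : Tr n, f p.1 * g (yy p) * Phi T p =
      ∑ S, ∑ V, (fc f S * fc g V) * (chi S p.1 * chi V (yy p) * Phi T p) := by
    intro p
    rw [fourier f p.1, fourier g (yy p), sum_mul_sum, sum_mul]
    refine sum_congr rfl fun S _ => ?_
    rw [sum_mul]
    exact sum_congr rfl fun V _ => by ring
  unfold xw
  rw [Ex_congr h1, Ex_sum]
  refine sum_congr rfl fun S _ => ?_
  rw [Ex_sum]
  have h2 : ∀ V, Ex (fun p : Tr n => (fc f S * fc g V) * (chi S p.1 * chi V (yy p) * Phi T p)) =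
      if S = V then fc f S * fc g V * Wt S T else 0 := by
    intro V
    rw [Ex_mul_left]
    have h3 := xw_chi T S V
    unfold xw at h3
    rw [h3]
    split_ifs <;> simp
  rw [sum_congr rfl fun V _ => h2 V, sum_ite_eq]
  simp

theorem xw_comm (f g : Cu n → ℝ) (T : Cu n) : xw f g T = xw g f T := by
  rw [xw_eq, xw_eq]
  exact sum_congr rfl fun S _ => by ring

theorem xw_sub (f p : Cu n → ℝ) (T : Cu n) :
    xw (fun x => f x - p x) (fun x => f x - p x) T =
      xw f f T - 2 * xw f p T + xw p p T := by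
  have h1 : xw (fun x => f x - p x) (fun x => f x - p x) T =
      xw f f T - xw f p T - xw p f T + xw p p T := by
    unfold xw
    rw [← Ex_sub, ← Ex_sub, ← Ex_add]
    exact Ex_congr fun x => by ring
  rw [h1, xw_comm p f]
  ring

/-! ### The energies -/

/-- The energy. -/
noncomputable def en (r : Cu n → ℝ) (T : Cu n) : ℝ := ∑ S, fc r S ^ 2 * Wt S T

theorem en_eq (r : Cu n → ℝ) (T : Cu n) : xw r r T = en r T := by
  rw [xw_eq]
  unfold en
  exact sum_congr rfl fun S _ => by ring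

theorem Wt_nonneg (S T : Cu n) : 0 ≤ Wt S T :=
  prod_nonneg fun i _ => by split_ifs <;> norm_num

theorem sum_Wt_le (S : Cu n) : ∑ T, Wt S T ≤ 1 := by
  have h1 : ∑ T : Cu n, Wt S T = ∏ i, ∑ b : Bool,
      (if S i then (1 / 2 : ℝ) else if b then 0 else 1) := by
    rw [prod_univ_sum]
    rfl
  rw [h1]
  refine prod_le_one (fun i _ => ?_) fun i _ => ?_
  · rw [Fintype.sum_bool]
    split_ifs <;> simp_all
  · rw [Fintype.sum_bool]
    cases S i <;> norm_num

/-- The number of elements. -/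
def wt (S : Cu n) : ℕ := (univ.filter fun i => S i = true).card

theorem Wt_cut (k : ℕ) (S : Cu n) : (1 / 2 : ℝ) ^ wt S = Wt S (cut k S) := by
  unfold Wt
  have h1 : (1 / 2 : ℝ) ^ wt S = ∏ i, if S i = true then (1 / 2 : ℝ) else 1 := by
    rw [prod_ite, prod_const, prod_const_one, mul_one]
    rfl
  rw [h1]
  refine prod_congr rfl fun i _ => ?_
  unfold cut
  cases hS : S i <;> simp

theorem sum_en_le (r : Cu n → ℝ) (k : ℕ) (hk : k ≤ n) (L : List (List Bool))
    (h1 : ∀ β ∈ L, β.length = k) (h2 : L.Nodup) :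
    (L.map fun β => en r (pad β)).sum ≤ Ex fun x => r x ^ 2 := by
  classical
  rw [← List.sum_toFinset _ h2]
  unfold en
  rw [sum_comm, ← sum_fc_sq]
  refine sum_le_sum fun S _ => ?_
  rw [← mul_sum]
  have hinj : Set.InjOn (fun β : List Bool => (pad β : Cu n)) L.toFinset := by
    intro β hβ γ hγ h
    have l1 := h1 β (List.mem_toFinset.1 hβ)
    have l2 := h1 γ (List.mem_toFinset.1 hγ)
    refine List.ext_getElem (by rw [l1, l2]) fun i hi hi' => ?_
    have h3 := congrFun h ⟨i, by omega⟩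
    simp only [pad] at h3
    rw [List.getD_eq_getElem _ _ hi, List.getD_eq_getElem _ _ hi'] at h3
    exact h3
  have h3 : ∑ β ∈ L.toFinset, Wt S (pad β) =
      ∑ T ∈ L.toFinset.image (fun β : List Bool => (pad β : Cu n)), Wt S T :=
    (sum_image hinj).symm
  have h4 : ∑ β ∈ L.toFinset, Wt S (pad β) ≤ 1 := by
    rw [h3]
    exact (sum_le_sum_of_subset_of_nonneg (subset_univ _) fun T _ _ => Wt_nonneg S T).trans
      (sum_Wt_le S)
  calc fc r S ^ 2 * ∑ β ∈ L.toFinset, Wt S (pad β) ≤ fc r S ^ 2 * 1 :=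
        mul_le_mul_of_nonneg_left h4 (sq_nonneg _)
    _ = _ := mul_one _

theorem length_le_of_en (r : Cu n → ℝ) (hr : ∀ x, |r x| ≤ 2) (k : ℕ) (hk : k ≤ n)
    (Z : ℕ) (hZ : 0 < Z) (L : List (List Bool)) (h1 : ∀ β ∈ L, β.length = k) (h2 : L.Nodup)
    (h3 : ∀ β ∈ L, 1 / (Z : ℝ) ≤ en r (pad β)) : L.length ≤ 4 * Z := by
  have hZ0 : (0 : ℝ) < Z := by exact_mod_cast hZ
  have h4 := sum_en_le r k hk L h1 h2
  have h5 : Ex (fun x => r x ^ 2) ≤ 4 := Ex_le fun x => by
    have := abs_le.1 (hr x)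
    nlinarith
  have h6 : ∀ L : List (List Bool), (∀ β ∈ L, 1 / (Z : ℝ) ≤ en r (pad β)) →
      (L.length : ℝ) * (1 / (Z : ℝ)) ≤ (L.map fun β => en r (pad β)).sum := by
    intro L
    induction L with
    | nil => simp
    | cons β L ih =>
      intro h
      have h7 := ih fun β' hβ' => h β' (List.mem_cons_of_mem _ hβ')
      have h8 := h β (by simp)
      rw [List.map_cons, List.sum_cons, List.length_cons]
      push_cast
      linarith
  have h7 := (h6 L h3).trans (h4.trans h5)
  rw [mul_one_div, div_le_iff₀ hZ0] at h7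
  have h8 : (L.length : ℝ) ≤ ((4 * Z : ℕ) : ℝ) := by
    push_cast
    linarith
  exact_mod_cast h8

/-- Heavy coefficients of low degree are seen at all prefixes. -/
theorem le_en (r : Cu n → ℝ) (k : ℕ) (S : Cu n) :
    fc r S ^ 2 * (1 / 2 : ℝ) ^ wt S ≤ en r (cut k S) := by
  unfold en
  have h10 := single_le_sum (s := (univ : Finset (Cu n)))
    (f := fun S' => fc r S' ^ 2 * Wt S' (cut k S))
    (fun S' _ => mul_nonneg (sq_nonneg _) (Wt_nonneg _ _)) (mem_univ S)
  rw [Wt_cut k S]
  exact h10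

end Pool.Agent.L0h78.NK
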