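import Pool.Agent.L0h78.NK.Nz

/-!
# The search and the loop, for any test of prefixes
-/

namespace Pool.Agent.L0h78.NK

open Pool.Agent.L0h78.DE Finset
open Pool.Agent.NPC Pool.Agent.NPC.H532 Pool.Agent.H424R2.PPAD

attribute [local fun_prop] Poly_addZ Poly_subZ Poly_mulZ Poly_sumZ Poly_neg Poly_isNeg
  Pool.Agent.H424R2.SG.PolyA.poly_take Pool.Agent.H424R2.SG.PolyA.poly_drop

/-- One level of the search. -/
def level (tst : ℕ → List Bool → Bool) (cap : ℕ) (L : List (List Bool)) (k : ℕ) :
    List (List Bool) :=
  ((L.flatMap fun α => [α ++ [false], α ++ [true]]).filter fun α => tst k α).take cap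

/-- The search for large coefficients. -/
def search (tst : ℕ → List Bool → Bool) (nv cap : ℕ) : List (List Bool) :=
  (List.range nv).foldl (level tst cap) [[]]

/-- One step of the learner. -/
def step (tst : List (Bool × List Bool) → ℕ → List Bool → Bool) (M D : ℕ)
    (st : List (List Bool × Bool)) (nv cap : ℕ) (H : List (Bool × List Bool)) :
    List (Bool × List Bool) :=
  match ((search (tst H) nv cap).filter (big M D st H)).head? with
  | none => H
  | some α => H ++ [(decide (ecoef D st H α < 0), α)]

/-- The loop. -/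
def loop (tst : List (Bool × List Bool) → ℕ → List Bool → Bool) (M D : ℕ)
    (st : List (List Bool × Bool)) (nv cap T : ℕ) : List (Bool × List Bool) :=
  (List.range T).foldl (fun H _ => step tst M D st nv cap H) []

/-! ### Polynomial time -/

section

variable {α : Type} [TEnc α]

/-- The lists during the search. -/
theorem search_inv (tst : ℕ → List Bool → Bool) (cap : ℕ) :
    ∀ (R : List ℕ) (L : List (List Bool)) (c : ℕ),
    L.length ≤ max 1 cap → (∀ β ∈ L, β.length = c) →
    (R.foldl (level tst cap) L).length ≤ max 1 cap ∧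
      ∀ β ∈ R.foldl (level tst cap) L, β.length = c + R.length := by
  intro R
  induction R with
  | nil => exact fun L c h1 h2 => ⟨h1, by simpa using h2⟩
  | cons k R ih =>
    intro L c h1 h2
    rw [List.foldl_cons]
    have h3 : ∀ β ∈ level tst cap L k, β.length = c + 1 := by
      intro β hβ
      unfold level at hβ
      have h4 := List.mem_of_mem_filter (List.mem_of_mem_take hβ)
      obtain ⟨γ, hγ, h5⟩ := List.mem_flatMap.1 h4
      have h6 := h2 γ hγ
      simp only [List.mem_cons, List.not_mem_nil, or_false] at h5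
      rcases h5 with rfl | rfl <;> simp [h6]
    have h4 : (level tst cap L k).length ≤ max 1 cap := by
      unfold level
      exact (List.length_take_le _ _).trans (le_max_right _ _)
    obtain ⟨h5, h6⟩ := ih _ (c + 1) h4 h3
    refine ⟨h5, fun β hβ => ?_⟩
    rw [h6 β hβ, List.length_cons]
    omega

theorem level_poly {t : α → ℕ → List Bool → Bool} {cap k : α → ℕ} {L : α → List (List Bool)}
    (ht : NPC.Poly fun p : (α × ℕ) × List Bool => t p.1.1 p.1.2 p.2)
    (hcap : NPC.Poly cap) (hL : NPC.Poly L) (hk : NPC.Poly k) :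
    NPC.Poly (fun x => level (t x) (cap x) (L x) (k x)) := by
  unfold level
  have h1 : NPC.Poly fun p : α × List Bool => t p.1 (k p.1) p.2 :=
    ht.comp (NPC.Poly.pair (NPC.Poly.pair (NPC.Poly.fst NPC.Poly.id)
      (hk.comp (NPC.Poly.fst NPC.Poly.id))) (NPC.Poly.snd NPC.Poly.id))
  have h2 : NPC.Poly fun x => (L x).flatMap fun α => [α ++ [false], α ++ [true]] := by fun_prop
  exact Pool.Agent.H424R2.SG.PolyA.poly_take
    (NPC.Poly.filter (p := fun x β => t x (k x) β) h2 h1) hcap

theorem search_poly {t : α → ℕ → List Bool → Bool} {nv cap : α → ℕ}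
    (ht : NPC.Poly fun p : (α × ℕ) × List Bool => t p.1.1 p.1.2 p.2)
    (hnv : UPoly nv) (hcap : UPoly cap) :
    NPC.Poly (fun x => search (t x) (nv x) (cap x)) := by
  obtain ⟨r, hr⟩ := Helper91K9.DL.UPoly.sz_le hnv
  obtain ⟨s, hs⟩ := Helper91K9.DL.UPoly.sz_le hcap
  have hcap' : NPC.Poly cap := hcap.toPoly
  refine NPC.Poly.foldl (F := fun x => level (t x) (cap x))
    hnv.range (NPC.Poly.const [[]]) (level_poly (α := α × List (List Bool) × ℕ)
      (t := fun p => t p.1) (cap := fun p => cap p.1) (L := fun p => p.2.1) (k := fun p => p.2.2)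
      (ht.comp (by fun_prop : NPC.Poly fun p : ((α × List (List Bool) × ℕ) × ℕ) × List Bool =>
        ((p.1.1.1, p.1.2), p.2)))
      (hcap'.comp (by fun_prop)) (by fun_prop) (by fun_prop))
    ((s + 1) * (Polynomial.C 4 * r + Polynomial.C 2) + Polynomial.C 1) ?_
  intro a k hk
  obtain ⟨h1, h2⟩ := search_inv (t a) (cap a) ((List.range (nv a)).take k) [[]] 0 (by simp)
    (by simp)
  have h3 : ((List.range (nv a)).take k).length ≤ nv a := by simp
  have h4 := sz_le_length_mul (((List.range (nv a)).take k).foldl
    (level (t a) (cap a)) [[]]) (4 * nv a + 1) (by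
      intro β hβ
      have h5 := h2 β hβ
      refine (sz_listBool_le β).trans ?_
      omega)
  refine h4.trans ?_
  have e1 := hr a
  have e2 := hs a
  simp only [Polynomial.eval_add, Polynomial.eval_mul, Polynomial.eval_C, Polynomial.eval_one]
  refine Nat.add_le_add_right (Nat.mul_le_mul ?_ (by omega)) 1
  exact h1.trans (max_le (by omega) (by omega))

theorem step_poly {t : α → List (Bool × List Bool) → ℕ → List Bool → Bool} {M D nv cap : α → ℕ}
    {st : α → List (List Bool × Bool)} {H : α → List (Bool × List Bool)}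
    (ht : NPC.Poly fun p : ((α × List (Bool × List Bool)) × ℕ) × List Bool =>
      t p.1.1.1 p.1.1.2 p.1.2 p.2)
    (hM : NPC.Poly M) (hD : NPC.Poly D)
    (hst : NPC.Poly st) (hnv : UPoly nv) (hcap : UPoly cap)
    (hH : NPC.Poly H) :
    NPC.Poly (fun x => step (t x) (M x) (D x) (st x) (nv x) (cap x) (H x)) := by
  have h0 := search_poly (t := fun x => t x (H x)) (ht.comp (NPC.Poly.pair (NPC.Poly.pair
    (NPC.Poly.pair (NPC.Poly.fst (NPC.Poly.fst NPC.Poly.id))
      (hH.comp (NPC.Poly.fst (NPC.Poly.fst NPC.Poly.id))))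
    (NPC.Poly.snd (NPC.Poly.fst NPC.Poly.id))) (NPC.Poly.snd NPC.Poly.id))) hnv hcap
  have h1 : NPC.Poly (fun x => ((search (t x (H x)) (nv x) (cap x)).filter
      (big (M x) (D x) (st x) (H x))).head?) := NPC.Poly.head?
    (NPC.Poly.filter (p := fun x β => big (M x) (D x) (st x) (H x) β) h0 (by fun_prop))
  refine (NPC.Poly.optCases (g := fun x => H x)
    (h := fun x β => H x ++ [(decide (ecoef (D x) (st x) (H x) β < 0), β)]) h1 hH
      (by fun_prop)).congr fun a => ?_
  unfold step
  cases ((search (t a (H a)) (nv a) (cap a)).filter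
    (big (M a) (D a) (st a) (H a))).head? <;> rfl

/-- The lists during the loop. -/
theorem loop_inv (t : List (Bool × List Bool) → ℕ → List Bool → Bool) (M D : ℕ)
    (st : List (List Bool × Bool)) (nv cap : ℕ) :
    ∀ (R : List ℕ) (H : List (Bool × List Bool)),
    (∀ p ∈ H, p.2.length = nv) →
    (R.foldl (fun H _ => step t M D st nv cap H) H).length ≤ H.length + R.length ∧
      ∀ p ∈ R.foldl (fun H _ => step t M D st nv cap H) H, p.2.length = nv := by
  intro R
  induction R with
  | nil => exact fun H h1 => ⟨by simp, by simpa using h1⟩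
  | cons k R ih =>
    intro H h1
    rw [List.foldl_cons]
    have h3 : (step t M D st nv cap H).length ≤ H.length + 1 ∧
        ∀ p ∈ step t M D st nv cap H, p.2.length = nv := by
      unfold step
      cases h : ((search (t H) nv cap).filter (big M D st H)).head? with
      | none => exact ⟨by simp, h1⟩
      | some β =>
        refine ⟨by simp, fun p hp => ?_⟩
        rcases List.mem_append.1 hp with hp | hp
        · exact h1 p hp
        · rw [List.mem_singleton] at hp
          subst hp
          have h4 := (search_inv (t H) cap (List.range nv) [[]] 0 (by simp)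
            (by simp)).2 β (List.mem_of_mem_filter (List.mem_of_mem_head? h))
          simpa using h4
    obtain ⟨h5, h6⟩ := ih _ h3.2
    refine ⟨h5.trans ?_, h6⟩
    rw [List.length_cons]
    omega

theorem loop_poly {t : α → List (Bool × List Bool) → ℕ → List Bool → Bool}
    {M D nv cap T : α → ℕ} {st : α → List (List Bool × Bool)}
    (ht : NPC.Poly fun p : ((α × List (Bool × List Bool)) × ℕ) × List Bool =>
      t p.1.1.1 p.1.1.2 p.1.2 p.2)
    (hM : NPC.Poly M) (hD : NPC.Poly D)
    (hst : NPC.Poly st) (hnv : UPoly nv) (hcap : UPoly cap)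
    (hT : UPoly T) :
    NPC.Poly (fun x => loop (t x) (M x) (D x) (st x) (nv x) (cap x) (T x)) := by
  obtain ⟨r, hr⟩ := Helper91K9.DL.UPoly.sz_le hnv
  obtain ⟨s, hs⟩ := Helper91K9.DL.UPoly.sz_le hT
  have h1 : NPC.Poly (fun p : α × List (Bool × List Bool) × ℕ => p.1) := by fun_prop
  have ht' : NPC.Poly fun p : (((α × List (Bool × List Bool) × ℕ) × List (Bool × List Bool)) × ℕ) ×
      List Bool => t p.1.1.1.1 p.1.1.2 p.1.2 p.2 :=
    ht.comp (by fun_prop : NPC.Poly fun p : (((α × List (Bool × List Bool) × ℕ) ×
      List (Bool × List Bool)) × ℕ) × List Bool => (((p.1.1.1.1, p.1.1.2), p.1.2), p.2))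
  refine NPC.Poly.foldl (F := fun x H _ => step (t x) (M x) (D x) (st x) (nv x) (cap x) H)
    hT.range (NPC.Poly.const []) (step_poly (α := α × List (Bool × List Bool) × ℕ)
      (t := fun p => t p.1) ht' (hM.comp h1) (hD.comp h1) (hst.comp h1)
      (hnv.comp h1) (hcap.comp h1) (by fun_prop))
    (s * (Polynomial.C 4 * r + Polynomial.C 6) + Polynomial.C 1) ?_
  intro a k hk
  obtain ⟨h1, h2⟩ := loop_inv (t a) (M a) (D a) (st a) (nv a) (cap a)
    ((List.range (T a)).take k) [] (by simp)
  have h3 : ((List.range (T a)).take k).length ≤ T a := by simp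
  have h4 := sz_le_length_mul (((List.range (T a)).take k).foldl
    (fun H _ => step (t a) (M a) (D a) (st a) (nv a) (cap a) H) []) (4 * nv a + 5) (by
      intro p hp
      have h5 := h2 p hp
      rw [show p = (p.1, p.2) from rfl, sz_pair]
      have h6 := sz_listBool_le p.2
      have h7 := sz_bool_le p.1
      omega)
  refine h4.trans ?_
  have e1 := hr a
  have e2 := hs a
  simp only [Polynomial.eval_add, Polynomial.eval_mul, Polynomial.eval_C]
  refine Nat.add_le_add_right (Nat.mul_le_mul ?_ (by omega)) 1
  simp only [List.length_nil] at h1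
  omega

end

/-! ### Correctness -/

variable {n : ℕ}

/-- A good test. -/
structure TS (n T D Z ℓ : ℕ) (f : Cu n → Bool)
    (t : List (Bool × List Bool) → ℕ → List Bool → Bool) : Prop where
  h1 : ∀ H, H.length ≤ T → ∀ k < n, ∀ α : List Bool, α.length = k + 1 → t H k α = true →
    (pad α : Cu n) ≠ zv → 1 / (Z : ℝ) ≤ en (rC f D (toC n T H)) (pad α)
  h2 : ∀ H, H.length ≤ T → ∀ k < n, ∀ S : Cu n, wt S ≤ ℓ →
    2 / (D : ℝ) ≤ |fc (rC f D (toC n T H)) S| → t H k ((List.ofFn S).take (k + 1)) = true

theorem pad_inj {k : ℕ} (hk : k ≤ n) {β γ : List Bool} (l1 : β.length = k) (l2 : γ.length = k)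
    (h : (pad β : Cu n) = pad γ) : β = γ := by
  refine List.ext_getElem (by rw [l1, l2]) fun i hi hi' => ?_
  have h3 := congrFun h ⟨i, by omega⟩
  simp only [pad] at h3
  rw [List.getD_eq_getElem _ _ hi, List.getD_eq_getElem _ _ hi'] at h3
  exact h3

theorem search_spec {T D Z ℓ cap : ℕ} {f : Cu n → Bool}
    {t : List (Bool × List Bool) → ℕ → List Bool → Bool} (hT : TS n T D Z ℓ f t) (hZ : 0 < Z)
    (hcap : 4 * Z + 1 ≤ cap) (H : List (Bool × List Bool)) (hH : H.length ≤ T) (S : Cu n)
    (hS1 : wt S ≤ ℓ) (hS : 2 / (D : ℝ) ≤ |fc (rC f D (toC n T H)) S|) : ∀ k ≤ n,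
    ((List.range k).foldl (level (t H) cap) [[]]).Nodup ∧
      (List.ofFn S).take k ∈ (List.range k).foldl (level (t H) cap) [[]] := by
  classical
  intro k
  induction k with
  | zero => intro _; simp
  | succ k ih =>
    intro hk
    obtain ⟨h1, h2⟩ := ih (by omega)
    have h0 := (search_inv (t H) cap (List.range k) [[]] 0 (by simp) (by simp)).2
    rw [List.range_succ, List.foldl_append, List.foldl_cons, List.foldl_nil]
    set L := (List.range k).foldl (level (t H) cap) [[]] with hL
    have hlen : ∀ β ∈ L, β.length = k := by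
      intro β hβ
      have := h0 β hβ
      simpa using this
    set L' := (L.flatMap fun α => [α ++ [false], α ++ [true]]).filter fun α =>
      t H k α with hL'
    have h3 : L'.Nodup := (nodup_ext h1).filter _
    have h4 : ∀ β ∈ L', β.length = k + 1 := by
      intro β hβ
      obtain ⟨γ, hγ, h5⟩ := List.mem_flatMap.1 (List.mem_of_mem_filter hβ)
      have h6 := hlen γ hγ
      simp only [List.mem_cons, List.not_mem_nil, or_false] at h5
      rcases h5 with rfl | rfl <;> simp [h6]
    have h5 : ∀ β ∈ L'.filter (fun β => decide ((pad β : Cu n) ≠ zv)),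
        1 / (Z : ℝ) ≤ en (rC f D (toC n T H)) (pad β) := by
      intro β hβ
      obtain ⟨hβ1, hβ2⟩ := List.mem_filter.1 hβ
      exact hT.h1 H hH k (by omega) β (h4 β hβ1) (List.mem_filter.1 hβ1).2
        (by simpa using hβ2)
    have h5' := length_le_of_en _ (abs_rC f D (toC n T H)) (k + 1) hk Z hZ _
      (fun β hβ => h4 β (List.mem_of_mem_filter hβ)) (h3.filter _) h5
    have h5'' : (L'.filter (fun β => !decide ((pad β : Cu n) ≠ zv))).length ≤ 1 := by
      by_contra hcon
      have hn := h3.filter (fun β => !decide ((pad β : Cu n) ≠ zv))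
      have hm : ∀ β ∈ L'.filter (fun β => !decide ((pad β : Cu n) ≠ zv)),
          β.length = k + 1 ∧ (pad β : Cu n) = zv := by
        intro β hβ
        obtain ⟨hβ1, hβ2⟩ := List.mem_filter.1 hβ
        exact ⟨h4 β hβ1, by simpa using hβ2⟩
      generalize L'.filter (fun β => !decide ((pad β : Cu n) ≠ zv)) = W at hcon hn hm
      rcases W with _ | ⟨a, _ | ⟨b, W⟩⟩
      · simp at hcon
      · simp at hcon
      · have ha := hm a (by simp)
        have hb := hm b (by simp)
        have hab := pad_inj hk ha.1 hb.1 (ha.2.trans hb.2.symm)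
        rw [List.nodup_cons] at hn
        exact hn.1 (by simp [hab])
    have h6 : L'.length ≤ cap := by
      have h7 := List.length_eq_length_filter_add (l := L')
        (fun β => decide ((pad β : Cu n) ≠ zv))
      omega
    have h7 : level (t H) cap L k = L' := by
      unfold level
      exact List.take_of_length_le h6
    rw [h7]
    refine ⟨h3, List.mem_filter.2 ⟨?_, ?_⟩⟩
    · have h8 : (List.ofFn S).take (k + 1) = (List.ofFn S).take k ++ [S ⟨k, by omega⟩] := by
        rw [List.take_succ_eq_append_getElem (by simpa using hk)]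
        simp
      rw [h8]
      refine List.mem_flatMap.2 ⟨_, h2, ?_⟩
      cases S ⟨k, by omega⟩ <;> simp
    · exact hT.h2 H hH k (by omega) S hS1 hS

/-- All coefficients of low degree are at most `θ`. -/
def SmallL (r : Cu n → ℝ) (θ : ℝ) (ℓ : ℕ) : Prop := ∀ S, wt S ≤ ℓ → |fc r S| ≤ θ

/-- The empirical coefficients are good. -/
def EC {M : ℕ} (D T : ℕ) (f : Cu n → Bool) (X : Fin M → Cu n) : Prop :=
  ∀ (H : List (Bool × List Bool)), H.length ≤ T → ∀ α : List Bool,
    |(ecoef D (stL f X) H α : ℝ) - M * D * fc (rC f D (toC n T H)) (pad α)| ≤ M / 2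

/-- One step: either nothing changes and all coefficients of low degree are small, or the potential
decreases. -/
theorem step_spec {M T D Z ℓ cap : ℕ} {f : Cu n → Bool} {X : Fin M → Cu n}
    {t : List (Bool × List Bool) → ℕ → List Bool → Bool} (hT : TS n T D Z ℓ f t)
    (hE : EC D T f X) (hZ : 0 < Z) (hD : 0 < D) (hM : 0 < M)
    (hcap : 4 * Z + 1 ≤ cap) (H : List (Bool × List Bool)) (hH : H.length + 1 ≤ T) :
    (step t M D (stL f X) n cap H = H ∧ SmallL (rC f D (toC n T H)) (2 / D) ℓ) ∨
    (pot (fun x => sR (f x)) (fun x => gC (toC n T (step t M D (stL f X) n cap H)) x / D)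
      ≤ pot (fun x => sR (f x)) (fun x => gC (toC n T H) x / D) - 1 / (D : ℝ) ^ 2) := by
  have hD0 : (0 : ℝ) < D := by exact_mod_cast hD
  have hM0 : (0 : ℝ) < M := by exact_mod_cast hM
  have hH' : H.length ≤ T := by omega
  unfold step
  cases h : ((search (t H) n cap).filter (big M D (stL f X) H)).head? with
  | none =>
    left
    refine ⟨rfl, fun S hS1 => ?_⟩
    by_contra hS
    push Not at hS
    have h1 := (search_spec hT hZ hcap H hH' S hS1 hS.le n le_rfl).2
    have h2 : (List.ofFn S).take n = List.ofFn S := List.take_of_length_le (by simp)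
    rw [h2] at h1
    have h3 := hE H hH' (List.ofFn S)
    have h4 : pad (List.ofFn S) = S := by
      funext i
      simp [pad]
    rw [h4] at h3
    have h5 : big M D (stL f X) H (List.ofFn S) = true := by
      rw [big_iff]
      have h6 : |M * D * fc (rC f D (toC n T H)) S| = M * D * |fc (rC f D (toC n T H)) S| := by
        rw [abs_mul, abs_of_pos (by positivity)]
      have h7 : 2 * (M : ℝ) ≤ M * D * |fc (rC f D (toC n T H)) S| := by
        have h8 := mul_le_mul_of_nonneg_left hS.le (by positivity : (0 : ℝ) ≤ M * D)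
        have h9 : (M : ℝ) * D * (2 / D) = 2 * M := by field_simp
        linarith
      have h10 := abs_sub_abs_le_abs_sub (M * D * fc (rC f D (toC n T H)) S)
        (ecoef D (stL f X) H (List.ofFn S) : ℝ)
      rw [abs_sub_comm] at h10
      linarith
    have h6 : List.ofFn S ∈ (search (t H) n cap).filter
        (big M D (stL f X) H) := List.mem_filter.2 ⟨h1, h5⟩
    rw [List.head?_eq_none_iff] at h
    rw [h] at h6
    simp at h6
  | some α =>
    right
    have h1 := (List.mem_filter.1 (List.mem_of_mem_head? h)).2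
    rw [big_iff] at h1
    have h2 := hE H hH' α
    set Z : ℝ := (ecoef D (stL f X) H α : ℝ) with hZ
    set v := fc (rC f D (toC n T H)) (pad α) with hv
    set σ : ℝ := (sZ (decide (ecoef D (stL f X) H α < 0)) : ℝ) with hσ
    have h3 : 1 / D ≤ σ * v ∧ σ ^ 2 = 1 := by
      by_cases hneg : ecoef D (stL f X) H α < 0
      · have e1 : σ = -1 := by
          rw [hσ, decide_eq_true hneg]
          simp [sZ]
        have e2 : Z < 0 := by
          rw [hZ]
          exact_mod_cast hneg
        rw [abs_of_neg e2] at h1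
        rw [abs_le] at h2
        rw [e1]
        refine ⟨?_, by norm_num⟩
        rw [div_le_iff₀ hD0]
        have h5 : (M : ℝ) * 1 ≤ M * (-1 * v * D) := by linarith [h2.1]
        exact le_of_mul_le_mul_left h5 hM0
      · have e1 : σ = 1 := by
          rw [hσ, decide_eq_false hneg]
          simp [sZ]
        have e2 : 0 ≤ Z := by
          rw [hZ]
          exact_mod_cast not_lt.1 hneg
        rw [abs_of_nonneg e2] at h1
        rw [abs_le] at h2
        rw [e1]
        refine ⟨?_, by norm_num⟩
        rw [div_le_iff₀ hD0]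
        have h5 : (M : ℝ) * 1 ≤ M * (1 * v * D) := by linarith [h2.2]
        exact le_of_mul_le_mul_left h5 hM0
    have h4 := pot_step (fun x => sR (f x)) (fun x => gC (toC n T H) x / D) (pad α) (σ / D)
    have h5 : (fun x : Cu n => gC (toC n T H) x / D + σ / D * chi (pad α) x) =
        fun x => gC (toC n T (H ++ [(decide (ecoef D (stL f X) H α < 0), α)])) x / D := by
      funext x
      rw [sum_append_toC H _ hH x]
      simp only [← hσ]
      ring
    rw [h5] at h4
    refine h4.trans ?_
    have h6 : fc (fun x => sR (f x) - clip (gC (toC n T H) x / D)) (pad α) = v := rfl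
    rw [h6, div_pow, h3.2]
    have h7 : 2 * (σ / D) * v = 2 * (σ * v) / D := by ring
    have h8 : 2 * (1 / (D : ℝ)) / D ≤ 2 * (σ * v) / D :=
      div_le_div_of_nonneg_right (by linarith [h3.1]) hD0.le
    have h9 : 2 * (1 / (D : ℝ)) / D = 2 * (1 / D ^ 2) := by
      field_simp
    rw [h7]
    linarith

/-- The loop. -/
theorem loop_spec {M D Z ℓ cap : ℕ} {f : Cu n → Bool} {X : Fin M → Cu n}
    {t : List (Bool × List Bool) → ℕ → List Bool → Bool} (hT : TS n (D * D + 1) D Z ℓ f t)
    (hE : EC D (D * D + 1) f X) (hZ : 0 < Z) (hD : 0 < D) (hM : 0 < M)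
    (hcap : 4 * Z + 1 ≤ cap) :
    (loop t M D (stL f X) n cap (D * D + 1)).length ≤ D * D + 1 ∧
    SmallL (rC f D (toC n (D * D + 1)
      (loop t M D (stL f X) n cap (D * D + 1)))) (2 / D) ℓ := by
  have hD0 : (0 : ℝ) < D := by exact_mod_cast hD
  set T := D * D + 1 with hTd
  set Hs : ℕ → List (Bool × List Bool) := fun i => (List.range i).foldl
    (fun H _ => step t M D (stL f X) n cap H) [] with hHs
  have hlen : ∀ i, (Hs i).length ≤ i := by
    intro i
    have := (loop_inv t M D (stL f X) n cap (List.range i) [] (by simp)).1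
    simpa using this
  have hsucc : ∀ i, Hs (i + 1) = step t M D (stL f X) n cap (Hs i) := by
    intro i
    simp only [hHs]
    rw [List.range_succ, List.foldl_append, List.foldl_cons, List.foldl_nil]
  have key : ∀ i ≤ T, (step t M D (stL f X) n cap (Hs i) = Hs i ∧
      SmallL (rC f D (toC n T (Hs i))) (2 / D) ℓ) ∨
      pot (fun x => sR (f x)) (fun x => gC (toC n T (Hs i)) x / D) ≤ 1 - i * (1 / (D : ℝ) ^ 2) := by
    intro i
    induction i with
    | zero =>
      intro _
      right
      have h1 : (fun x : Cu n => gC (toC n T (Hs 0)) x / D) = fun _ => 0 := by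
        funext x
        simp [hHs, gC, toC]
      rw [h1, pot_zero]
      simp
    | succ i ih =>
      intro hi
      rcases ih (by omega) with h | h
      · left
        rw [hsucc, h.1]
        exact h
      · have h2 := hlen i
        rcases step_spec hT hE hZ hD hM hcap (Hs i) (by omega) with h3 | h3
        · left
          rw [hsucc, h3.1]
          exact h3
        · right
          rw [hsucc]
          refine h3.trans ?_
          push_cast
          linarith
  refine ⟨hlen T, ?_⟩
  rcases key T le_rfl with h | h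
  · exact h.2
  · exfalso
    have h1 := pot_nonneg (f := fun x => sR (f x)) (g := fun x => gC (toC n T (Hs T)) x / D)
      (fun x => (abs_sR _).le)
    have h2 : (T : ℝ) * (1 / (D : ℝ) ^ 2) > 1 := by
      rw [mul_one_div, gt_iff_lt, lt_div_iff₀ (by positivity), hTd]
      push_cast
      nlinarith
    linarith

end Pool.Agent.L0h78.NK
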